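import Mathlib

set_option autoImplicit false

/-!
# MP_172a45_an: `∑ 1/|a - ζ_k| ≥ (n-1) - C n^(5/6)`, the independent pieces

`m` = number of critical points, `l k = (a - w k)⁻¹`, `J = (m+1) ∫₀^a ∏ (1 - u l_k) du`.
-/

namespace Pool.Agent.H798.BV

/-- (AI1) An alternating inequality: `|∑_{S ⊆ B} (-1)^|S| |S|! ∏_{k∈S} l_k| ≥ 1 - ∑_B |l_k|`.

Proof (power series majorants). For `T ⊆ B` let `I_T(y) = ∑_{S ⊆ T} (-1)^|S| |S|! ∏_S l_k y^|S| ∈ ℂ[[y]]`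
(constant coefficient `1`, so invertible) and `v_T = y (I_T + y I_T') / I_T ∈ ℂ[[y]]` (`v_∅ = y`).
For `k ∉ T`, `c = l_k`, `T⁺ = T ∪ {k}`:
  (1) `I_{T⁺} = I_T - c y (I_T + y I_T') = I_T (1 - c v_T)` since `(|S|+1)! = |S|! (|S| + 1)`;
  (2) hence `I_{T⁺}'/I_{T⁺} = I_T'/I_T - c v_T'/(1 - c v_T)` and `v_{T⁺} = v_T - c y² v_T' / (1 - c v_T)`.
Claim: `|[y^j] v_T| ≤ [y^j] (y/(1 - x y))`, i.e. `≤ x^(j-1)` for `j ≥ 1` and `= 0` for `j = 0`, where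
`x = ∑_T |l_k|`.  Induction: write `f ≪ F` for coefficientwise `|·| ≤ ·` (compatible with sums, products,
derivative).  If `v_T ≪ V = y/(1 - x y)` and `μ = |c|` then `1/(1 - c v_T) ≪ 1/(1 - μ V)` and
`v_{T⁺} ≪ V + μ y² V'/(1 - μ V) = y/(1 - (x+μ) y)` exactly (because `V' = (1 - x y)^{-2}`,
`1 - μ V = (1 - (x+μ) y)/(1 - x y)`).
For `x < 1` the series `v_T` converges absolutely at `y = 1` and `|v_T(1)| ≤ ∑_{j≥1} x^(j-1) = 1/(1 - x)`; the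
formal identity `I_T v_T = y (I_T + y I_T')` (polynomial times absolutely summable series) gives
`I_T(1) v_T(1) = I_T(1) + I_T'(1)`, so `I_{T⁺}(1) = I_T(1) (1 - c v_T(1))` and
`|I_{T⁺}(1)| ≥ |I_T(1)| (1 - |c|/(1 - x)) = |I_T(1)| (1 - x - |c|)/(1 - x)`.
With `|I_T(1)| ≥ 1 - x` by induction: `|I_{T⁺}(1)| ≥ 1 - x - |c|`.
(One may avoid the division by working with the coefficient sequence of `v_T` defined by the recursion (2);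
if `∑ |l_k| = 1` the claim is trivial.) -/
def S_AI1 : Prop :=
  ∀ (K : ℕ) (l : Fin K → ℂ) (B : Finset (Fin K)), ∑ k ∈ B, ‖l k‖ ≤ 1 →
    1 - ∑ k ∈ B, ‖l k‖ ≤ ‖∑ S ∈ B.powerset, (-1 : ℂ) ^ S.card * (S.card.factorial : ℂ) * ∏ k ∈ S, l k‖

/-- (AI2) from (AI1).  Expand `∏_B (1 - t l_k) = ∑_{S⊆B} (-1)^|S| t^|S| ∏_S l_k` (`Finset.prod_sub` or
`Finset.prod_add`), use `∫₀^∞ t^j e^{-ts} dt = j!/s^(j+1)` for `Re s > 0`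
(`Complex.integral_cpow_mul_exp_neg_mul_Ioi` with `a = j + 1`), so the integral is
`s⁻¹ ∑_S (-1)^|S| |S|! ∏_S (l_k / s)`; apply (AI1) to `l_k / s`. -/
def S_AI2 : Prop :=
  ∀ (K : ℕ) (l : Fin K → ℂ) (B : Finset (Fin K)) (s : ℂ), 0 < s.re → ∑ k ∈ B, ‖l k‖ ≤ ‖s‖ →
    MeasureTheory.IntegrableOn
      (fun t : ℝ => (∏ k ∈ B, (1 - (t : ℂ) * l k)) * Complex.exp (-((t : ℂ) * s))) (Set.Ioi 0) ∧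
    (‖s‖ - ∑ k ∈ B, ‖l k‖) / ‖s‖ ^ 2 ≤
      ‖∫ t in Set.Ioi (0:ℝ), (∏ k ∈ B, (1 - (t : ℂ) * l k)) * Complex.exp (-((t : ℂ) * s))‖

/-- (EV) `A` a set of indices with all `|l_k| ≤ η m`, `s' = (∑_A l_k)/m`.

Proof. `x_k = (t/m) l_k`, `|x_k| ≤ η t ≤ 1/2`, `∑ |x_k| ≤ t`. `log(1 - x_k) = -x_k + r_k`, `|r_k| ≤ |x_k|²`
(`Complex.norm_log_one_add_sub_self_le` or similar, `|x| ≤ 1/2`). `R = ∑ r_k`, `|R| ≤ η t · t ≤ η T² ≤ 1`.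
`∏ (1 - x_k) = exp(-t s') exp(R)` and `|exp R - 1| ≤ 2 |R|` (`Complex.norm_exp_sub_one_le`). -/
def S_EV : Prop :=
  ∀ (m : ℕ) (l : Fin m → ℂ) (A : Finset (Fin m)) (η T t : ℝ), 1 ≤ m → 0 < η →
    (∀ k ∈ A, ‖l k‖ ≤ η * m) → ∑ k ∈ A, ‖l k‖ ≤ m → η * T ≤ 1 / 2 → η * T ^ 2 ≤ 1 → 0 ≤ t → t ≤ T →
    ‖∏ k ∈ A, (1 - ((t / m : ℝ) : ℂ) * l k) - Complex.exp (-((t : ℂ) * ((∑ k ∈ A, l k) / m)))‖ ≤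
      2 * η * T ^ 2 * Real.exp (-(t * ((∑ k ∈ A, l k) / m).re))

/-- (EB) Bounds for the exponent.  `B` contains all large `l_k`.

Proof. `|B| η m ≤ ∑_B |l_k| ≤ m`.  `∑_B |1 - a l_k| ≥ a ∑_B |l_k| - |B|`;
`∑_{∉B} |1 - a l_k| ≥ Re ∑_{∉B} (1 - a l_k) = (m - |B|) - a Re ∑_{∉B} l_k`. Add and use the hypothesis:
`a (Re ∑_{∉B} l_k - ∑_B |l_k|) ≥ δ m - 2 |B|`, and divide by `a m` (`0 < a ≤ 1`, and `δ m - 2|B| ≥ 0` by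
`4 ≤ η δ m`). `δ ≤ a`: `∑ |1 - a l_k| ≥ m - a ∑ |l_k| ≥ m - a m`. -/
def S_EB : Prop :=
  ∀ (m : ℕ) (l : Fin m → ℂ) (a δ η : ℝ), 1 ≤ m → 0 < a → a ≤ 1 → 0 < δ → 0 < η → 4 ≤ η * δ * m →
    ∑ k, ‖l k‖ ≤ m → ∑ k, ‖1 - (a : ℂ) * l k‖ ≤ (1 - δ) * m →
    δ ≤ a ∧
    δ / 2 + (∑ k ∈ Finset.univ.filter (fun k => η * m < ‖l k‖), ‖l k‖) / m ≤
      ((∑ k ∈ Finset.univ.filter (fun k => ¬ η * m < ‖l k‖), l k) / m).re ∧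
    ‖(∑ k ∈ Finset.univ.filter (fun k => ¬ η * m < ‖l k‖), l k) / m‖ ≤ 1

/-- (ET) Decay of the product and the tail of the integral.

Proof. For `0 ≤ u ≤ a`: `1 - u l = (1 - u/a) + (u/a)(1 - a l)`, so `|1 - u l_k| ≤ 1 - (u/a)(1 - |1 - a l_k|)`; by AM-GM
(`Real.inner_le_nnorm_mul_nnorm` is not needed; `Real.geom_mean_le_arith_mean_weighted` or
`inner_le..`, or `1 + y ≤ exp y` for each factor) `∏ |1 - u l_k| ≤ exp(-(u/a) ∑ (1 - |1 - a l_k|)) ≤ exp(-u δ m/a)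
≤ exp(-u δ m)`.  The second part: integrate `exp(-δ t)` from `T` to `a m`. -/
def S_ET : Prop :=
  ∀ (m : ℕ) (l : Fin m → ℂ) (a δ : ℝ), 1 ≤ m → 0 < a → a ≤ 1 → 0 < δ →
    ∑ k, ‖1 - (a : ℂ) * l k‖ ≤ (1 - δ) * m →
    (∀ t : ℝ, 0 ≤ t → t ≤ a * m →
      ‖∏ k, (1 - ((t / m : ℝ) : ℂ) * l k)‖ ≤ Real.exp (-(δ * t))) ∧
    (∀ T : ℝ, 0 ≤ T → T ≤ a * m →
      ‖∫ t in T..(a * m), ∏ k, (1 - ((t / m : ℝ) : ℂ) * l k)‖ ≤ Real.exp (-(δ * T)) / δ)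

/-- (EC) from (EV): on `[0, T]` the product over all `k` is replaced by
`∏_B (1 - t l_k / m) e^{-t s'}`; `B` large indices, `s' = (∑_{∉B} l_k)/m`.

Proof. Pointwise the difference is `∏_B (1 - (t/m) l_k) · (∏_{∉B} (1 - (t/m) l_k) - e^{-t s'})`
(`Finset.prod_filter_mul_prod_filter_not`), `|∏_B| ≤ exp(t ∑_B |l_k|/m)`, so by (EV) at most
`2 η T² exp(-t (Re s' - ∑_B |l_k|/m)) ≤ 2 η T² exp(-δ t/2)`; integrate: `≤ 4 η T²/δ`. -/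
def S_EC : Prop :=
  ∀ (m : ℕ) (l : Fin m → ℂ) (δ η T : ℝ), 1 ≤ m → 0 < δ → 0 < η → 0 ≤ T →
    η * T ≤ 1 / 2 → η * T ^ 2 ≤ 1 → ∑ k, ‖l k‖ ≤ m →
    δ / 2 + (∑ k ∈ Finset.univ.filter (fun k => η * m < ‖l k‖), ‖l k‖) / m ≤
      ((∑ k ∈ Finset.univ.filter (fun k => ¬ η * m < ‖l k‖), l k) / m).re →
    ‖(∫ t in (0:ℝ)..T, ∏ k, (1 - ((t / m : ℝ) : ℂ) * l k)) -
      ∫ t in (0:ℝ)..T, (∏ k ∈ Finset.univ.filter (fun k => η * m < ‖l k‖), (1 - (t : ℂ) * (l k / m))) *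
        Complex.exp (-((t : ℂ) * ((∑ k ∈ Finset.univ.filter (fun k => ¬ η * m < ‖l k‖), l k) / m)))‖ ≤
      4 * η * T ^ 2 / δ

/-- (ED) from (AI2): lower bound of the truncated model integral.

Proof. `λ_k = l_k`, `∑_B |λ_k| + δ/2 ≤ Re s ≤ |s| ≤ 1`. (AI2): `|∫_{Ioi 0}| ≥ (|s| - ∑|λ|)/|s|² ≥ δ/2`
(`≥ (δ/2)/|s|² ≥ δ/2`), and `|∫_T^∞| ≤ ∫_T^∞ exp(t ∑|λ| - t Re s) dt ≤ ∫_T^∞ exp(-δ t/2) dt = (2/δ) exp(-δT/2)`;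
`∫_{Ioi 0} = ∫_0^T + ∫_{Ioi T}`. -/
def S_ED : Prop :=
  ∀ (K : ℕ) (l : Fin K → ℂ) (B : Finset (Fin K)) (s : ℂ) (δ T : ℝ), 0 < δ → 0 ≤ T →
    δ / 2 + ∑ k ∈ B, ‖l k‖ ≤ s.re → ‖s‖ ≤ 1 →
    δ / 2 - 2 / δ * Real.exp (-(δ * T / 2)) ≤
      ‖∫ t in (0:ℝ)..T, (∏ k ∈ B, (1 - (t : ℂ) * l k)) * Complex.exp (-((t : ℂ) * s))‖

/-- (EE) from (EB), (ET), (EC), (ED): the lower bound with free parameters.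

Proof. Substitute `u = t/m`: `J = ((m+1)/m) ∫_0^{am} P(t/m) dt`, `(m+1)/m ≥ 1`.  `|∫_0^{am}| ≥ |∫_0^T| - |∫_T^{am}|`,
(ET) `|∫_T^{am}| ≤ e^{-δT}/δ ≤ e^{-δT/2}/δ`; (EC), (ED) (with `l_k / m` for `l_k`; `T ≤ δ m ≤ a m` by (EB)). -/
def S_EE : Prop :=
  ∀ (m : ℕ) (l : Fin m → ℂ) (a δ η T : ℝ), 1 ≤ m → 0 < a → a ≤ 1 → 0 < δ → 0 < η → 0 ≤ T →
    η * T ≤ 1 / 2 → η * T ^ 2 ≤ 1 → T ≤ δ * m → 4 ≤ η * δ * m →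
    ∑ k, ‖l k‖ ≤ m → ∑ k, ‖1 - (a : ℂ) * l k‖ ≤ (1 - δ) * m →
    δ / 2 - 4 * η * T ^ 2 / δ - 3 / δ * Real.exp (-(δ * T / 2)) ≤
      ‖((m : ℂ) + 1) * ∫ u in (0:ℝ)..a, ∏ k, (1 - (u : ℂ) * l k)‖

/-- (EF) Choice of the parameters: `T = (4/δ) log m`, `η = δ²/(100 T²)`; `δ⁵ m ≥ m^(1/6)` because
`δ^6 m ≥ 1`.  Then `4ηT²/δ = δ/25`, `(3/δ) e^{-δT/2} = (3/δ) m^{-2} ≤ δ/25` (`δ² m² ≥ m^(5/3)`),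
`ηδm = δ⁵ m/(1600 log² m) ≥ 4` and `T ≤ δ m` (`δ² m ≥ m^(2/3) ≥ 4 log m`) for large `m`. And
`exp(-δ m)` is smaller than `δ/8`.  Only real analysis; no `l`. -/
def S_EF : Prop :=
  ∃ N : ℕ, 1 ≤ N ∧ ∀ (m : ℕ) (δ : ℝ), N ≤ m → 0 < δ → δ ≤ 1 → 1 ≤ δ ^ 6 * m →
    ∃ η T : ℝ, 0 < η ∧ 0 ≤ T ∧ η * T ≤ 1 / 2 ∧ η * T ^ 2 ≤ 1 ∧ T ≤ δ * m ∧ 4 ≤ η * δ * m ∧
      δ / 4 ≤ δ / 2 - 4 * η * T ^ 2 / δ - 3 / δ * Real.exp (-(δ * T / 2)) ∧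
      (1 - δ) ^ m < δ / 8

end Pool.Agent.H798.BV
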