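import Mathlib
import Pool.Agent.H798.BV.Stm
import Pool.Agent.H798.BV.Stm4

set_option autoImplicit false

/-!
# MP_172a45_an: the exact inequality in large degree for `0 < r₀ ≤ |a| ≤ r < 1`, the pieces

`m` = number of critical points, `l k = (a - w k)⁻¹`. We assume `∑ |l_k| ≤ m` and derive a contradiction for
large `m`.  `L = 2/(1-r)`, `B = {k : L < |l_k|}`, `β = ∑_B |l_k| / m`, `s' = ∑_{∉B} l_k / m`,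
`Y = ∑_{∉B} l_k² / m`, `κ = 2r/(1+r) < 1`.
-/

namespace Pool.Agent.H798.BV

/-- big part of `∑ |l|` -/
noncomputable def bB {m : ℕ} (L : ℝ) (l : Fin m → ℂ) : ℝ :=
  (∑ k ∈ Finset.univ.filter (fun k => L < ‖l k‖), ‖l k‖) / m

/-- mean of the small `l` -/
noncomputable def sR {m : ℕ} (L : ℝ) (l : Fin m → ℂ) : ℂ :=
  (∑ k ∈ Finset.univ.filter (fun k => ¬ L < ‖l k‖), l k) / m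

/-- second moment of the small `l` -/
noncomputable def yR {m : ℕ} (L : ℝ) (l : Fin m → ℂ) : ℂ :=
  (∑ k ∈ Finset.univ.filter (fun k => ¬ L < ‖l k‖), l k ^ 2) / m

/-- the end point bound in all directions `ω` -/
def EPh (m : ℕ) (l : Fin m → ℂ) (r δ : ℝ) : Prop :=
  ∀ (ω : ℂ) (ρ : ℝ), ‖ω‖ = 1 → 0 < ρ → ρ ≤ (1 - r) / 8 →
    ‖∫ τ in (0:ℝ)..ρ, ∏ k, (1 - (τ : ℂ) * (ω * l k))‖ ≤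
      3 / (m + 1) * Real.exp (m * (10 / (1 - r) * Real.sqrt δ)) *
        ∏ k ∈ Finset.univ.filter (fun k => ¬ 2 / (1 - r) < ‖l k‖), ‖1 - (ρ : ℂ) * (ω * l k)‖

/-- (F0U) `F(a - ρω) / F'(a)` as an integral of `F'` along a segment (norms only).

Proof. As `Pool.Agent.H878.BV.t_F0` (the case `ω = 1`, `ρ = a`; adapt that file): `F = ∏ (X - z_j)`,
`F' = (m+1) ∏ (X - w_k)`, `F(a) = 0`, `d/dτ F(a - τω) = -ω F'(a - τω) = -ω (m+1) ∏ (a - w_k) ∏ (1 - τ ω l_k)`. -/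
def S_F0U : Prop :=
  ∀ (m : ℕ) (z : Fin (m + 1) → ℂ) (w : Fin m → ℂ) (a : ℂ), Crit m z w → z 0 = a →
    (∀ k, w k ≠ a) → ∀ (ω : ℂ) (ρ : ℝ), ‖ω‖ = 1 →
    ∏ j, ‖a - (ρ : ℂ) * ω - z j‖ = ((m : ℝ) + 1) * (∏ k, ‖a - w k‖) *
      ‖∫ τ in (0:ℝ)..ρ, ∏ k, (1 - (τ : ℂ) * (ω * (a - w k)⁻¹))‖

/-- (EP) The end point bound, from (PM) and (F0U).

Proof. Put `l_k = (a-w_k)⁻¹`, `u = ρω`, `c = (1-r)/4`, `φ(z) = log (max ‖a - u - z‖ c)`, Lipschitz with constant `4/(1-r)`,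
`log ‖a-u-z_j‖ ≤ φ(z_j) ≤ log 3`. (If some `a - u - z_j = 0` the left side is `0` and everything is trivial.)
`∑_j φ(z_j) = ∑_k ∑_j S_kj φ(z_j) + (1/(m+1)) ∑_j φ(z_j)` (column sums `m/(m+1)`) `≤ ∑_k φ(w_k)
 + (4/(1-r)) ∑_k ∑_j S_kj ‖z_j - w_k‖ + log 3`.  `∑_j S_kj ‖z_j - w_k‖ ≤ √(∑_j S_kj ‖z_j - w_k‖²) ≤ √(1 - ‖w_k‖²)`
(variance: `∑_j S_kj ‖z_j‖² - ‖w_k‖²`), `∑_k √(1-‖w_k‖²) ≤ √(m ∑ 2 (1-‖w_k‖))`, and `∑ (1-‖w_k‖) ≤ 2 ∑ (1-‖w_k‖)‖l_k‖ ≤ 2 δ m`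
(`‖l_k‖ ≥ 1/2`; `‖1 - a l_k‖ = ‖w_k‖ ‖l_k‖`). So that term is `≤ (8/(1-r)) m √δ`.
`∑_k φ(w_k)`: if `‖l_k‖ ≤ 2/(1-r)` then `‖a-w_k‖ ≥ (1-r)/2`, `φ(w_k) = log ‖a-w_k‖ + log ‖1 - u l_k‖`; otherwise
`φ(w_k) ≤ 0`. Finally by (F0U) the integral is `(m+1)⁻¹ ∏_j ‖a-u-z_j‖ ∏_k ‖l_k‖`, the small `k` cancel, and
`∏_{big} ‖l_k‖ ≤ exp ∑_{big} ‖l_k‖`, `∑_{big} ‖l_k‖ ≤ (2/(1-r)) ∑ (1-‖w_k‖)‖l_k‖ ≤ 2 δ m/(1-r) ≤ 2 √δ m/(1-r)` because for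
big `k`: `1 - ‖w_k‖ ≥ 1 - a - (1-r)/2 ≥ (1-r)/2`. -/
def S_EP : Prop :=
  ∀ (m : ℕ) (z : Fin (m + 1) → ℂ) (w : Fin m → ℂ) (a r δ : ℝ), 1 ≤ m → Crit m z w → z 0 = a →
    0 ≤ a → a ≤ r → r < 1 → (∀ j, ‖z j‖ ≤ 1) → (∀ k, w k ≠ a) → (∀ k, ‖w k‖ ≤ 1) → 0 < δ → δ ≤ 1 →
    ∑ k, ‖((a : ℂ) - w k)⁻¹‖ ≤ m → (1 - δ) * m ≤ ∑ k, ‖1 - (a : ℂ) * ((a : ℂ) - w k)⁻¹‖ →
    EPh m (fun k => ((a : ℂ) - w k)⁻¹) r δ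

/-- (TR) Second order expansion of the product of the small factors.

Proof. `x_k = u l_k`, `|x_k| ≤ 1/4`, `|log(1-x) + x + x²/2| ≤ |x|³/2`, `∑_A |x_k|³ ≤ |u|³ L² ∑|l_k|`. -/
def S_TR : Prop :=
  ∀ (m : ℕ) (l : Fin m → ℂ) (A : Finset (Fin m)) (L : ℝ) (u : ℂ), 0 < L → (∀ k ∈ A, ‖l k‖ ≤ L) →
    ∑ k ∈ A, ‖l k‖ ≤ m → ‖u‖ * L ≤ 1 / 4 →
    ∃ E : ℂ, ‖E‖ ≤ m * ‖u‖ ^ 3 * L ^ 2 / 2 ∧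
      ∏ k ∈ A, (1 - u * l k) =
        Complex.exp (-(u * ∑ k ∈ A, l k) - u ^ 2 * (∑ k ∈ A, l k ^ 2) / 2 + E)

/-- (PT) from (TR): pointwise comparison of `∏_A (1 - τ l_k)` with `exp(-mτ s)`, `m s = ∑_A l_k`, `m Y = ∑_A l_k²`.

Proof. `∏ = exp(-mτs) exp(ζ)`, `ζ = -mτ²Y/2 + E`, `|ζ| ≤ mτ²L/2 + mτ³L²/2 ≤ mτ²L` (`|Y| ≤ L`).  In the first case
`|e^ζ - 1| ≤ |ζ| e^{|ζ|} ≤ mτ²L e^{mτ²L}` and `τL ≤ (1-κ) Re s/2`; in the second case `Re ζ ≤ -mτ²/24 + mτ²/48 ≤ -mτ²/48`, so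
`|e^ζ - 1| ≤ |ζ|`.  The other two bounds are `|∏| = e^{-mτ Re s} e^{Re ζ}`. -/
def S_PT : Prop :=
  ∀ (m : ℕ) (l : Fin m → ℂ) (A : Finset (Fin m)) (L κ τ : ℝ), 1 ≤ m → 1 ≤ L → 0 ≤ κ → κ ≤ 1 → 0 ≤ τ →
    (∀ k ∈ A, ‖l k‖ ≤ L) → ∑ k ∈ A, ‖l k‖ ≤ m → τ * L ≤ 1 / 4 → 0 ≤ ((∑ k ∈ A, l k) / m).re →
    ((τ * L ≤ (1 - κ) / 2 * ((∑ k ∈ A, l k) / m).re →
      ‖∏ k ∈ A, (1 - (τ : ℂ) * l k) - Complex.exp (-((m * τ : ℝ) * ((∑ k ∈ A, l k) / m)))‖ ≤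
        m * τ ^ 2 * L * Real.exp (-(m * τ * ((1 + κ) / 2 * ((∑ k ∈ A, l k) / m).re))) ∧
      ‖∏ k ∈ A, (1 - (τ : ℂ) * l k)‖ ≤ Real.exp (-(m * τ * ((∑ k ∈ A, l k) / m).re / 2))) ∧
     (1 / 12 ≤ ((∑ k ∈ A, l k ^ 2) / m).re → τ ≤ 1 / (24 * L ^ 2) →
      ‖∏ k ∈ A, (1 - (τ : ℂ) * l k) - Complex.exp (-((m * τ : ℝ) * ((∑ k ∈ A, l k) / m)))‖ ≤
        m * τ ^ 2 * L * Real.exp (-(m * τ * ((1 + κ) / 2 * ((∑ k ∈ A, l k) / m).re))) ∧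
      ‖∏ k ∈ A, (1 - (τ : ℂ) * l k)‖ ≤ Real.exp (-(m * τ ^ 2 / 48))))

/-- (LB) from (AI2): lower bound of the local integral, exponential case.

Proof. `t = mτ`.  Model: `∏_B (1 - t l_k/m) e^{-ts}`; (AI2) gives over `(0,∞)` at least `(|s|-β)/|s|² ≥ (1-κ)/|s|` (`β ≤ κ Re s`).
`|∏_B (1 - t l_k/m)| ≤ e^{tβ} ≤ e^{tκ Re s}`. With `ν = (1-κ) Re s/2`: difference to the model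
`≤ ∫ (t²L/m) e^{-t(1+κ)Re s/2} e^{tκ Re s} dt ≤ (L/m) ∫ t² e^{-tν} dt = 2L/(mν³)`; tail of the model from `mρ` on:
`≤ e^{-2νmρ}/(2ν)`. (The integrand on `[0, ρ]` is continuous, a polynomial.) -/
def S_LB : Prop :=
  ∀ (m : ℕ) (l : Fin m → ℂ) (L κ ρ : ℝ), 1 ≤ m → 1 ≤ L → 0 ≤ κ → κ < 1 → 0 < ρ →
    ‖sR L l‖ ≤ 1 → 0 < (sR L l).re → bB L l ≤ κ * (sR L l).re →
    (∀ τ : ℝ, 0 ≤ τ → τ ≤ ρ →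
      ‖∏ k ∈ Finset.univ.filter (fun k => ¬ L < ‖l k‖), (1 - (τ : ℂ) * l k) -
        Complex.exp (-((m * τ : ℝ) * sR L l))‖ ≤
        m * τ ^ 2 * L * Real.exp (-(m * τ * ((1 + κ) / 2 * (sR L l).re)))) →
    (1 - κ) / ‖sR L l‖ - 2 * L / (m * ((1 - κ) / 2 * (sR L l).re) ^ 3)
      - 1 / ((1 - κ) / 2 * (sR L l).re) * Real.exp (-(m * ρ * ((1 - κ) / 2 * (sR L l).re))) ≤
      m * ‖∫ τ in (0:ℝ)..ρ, ∏ k, (1 - (τ : ℂ) * l k)‖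

/-- (C2c) from (PT), (LB): the case `|s'| ≥ ε`.

Proof. `L = 2/(1-r)`, `ω = conj s'/|s'|`, `l̃ = ω l` (`bB`, and the set of small indices are the same, `sR L l̃ = |s'| ≥ ε` real positive).
`ρ = ε (1-κ)/(2L)`, so `ρL ≤ (1-κ)/2 · |s'|` and `ρ L ≤ 1/8`, `ρ ≤ (1-r)/8`.  (PT) first case for all `τ ≤ ρ`, (LB):
`m |∫| ≥ (1-κ)/|s'| - 2L/(mν³) - e^{-mρν}/ν ≥ (1-κ)/2` for large `m` (`ν ≥ (1-κ)ε/2`, `|s'| ≤ 1`).  `EPh` at `ρ`: `m |∫| ≤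
3 exp(m (10/(1-r) √δ - ρε/2)) ≤ 3 exp(-mρε/4)` if `10/(1-r) √δ ≤ ρε/4`.  Contradiction for large `m`. -/
def S_C2c : Prop :=
  ∀ r κ ε : ℝ, 0 < r → r < 1 → 0 < κ → κ < 1 → 0 < ε → ε ≤ 1 / 4 →
    ∃ δ₀ : ℝ, 0 < δ₀ ∧ δ₀ ≤ 1 ∧ ∃ N : ℕ, ∀ (m : ℕ) (l : Fin m → ℂ) (δ : ℝ), N ≤ m → 0 < δ → δ ≤ δ₀ →
      ∑ k, ‖l k‖ ≤ m → bB (2 / (1 - r)) l ≤ κ * (sR (2 / (1 - r)) l).re → EPh m l r δ →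
      ε ≤ ‖sR (2 / (1 - r)) l‖ → False

/-- (C2b) from (PT), (LB): the case `K/√m ≤ |s'|`, `Y` near the positive axis.

Proof. `L = 2/(1-r)`. If `Re s' ≥ |s'|/2` let `ω = 1`; otherwise `ω = exp(-i sgn(Im s') π/6)`; then `Re(ω s') ≥ |s'|/2`,
`β ≤ κ Re s' ≤ κ Re (ω s')` and `Re(ω² Y) ≥ Re Y/2 - |Im Y| ≥ 1/12`. `l̃ = ω l`, `ρ = min (1/(24L²)) ((1-r)/8)` `= 1/(24 L²)`.
(PT) second case, (LB): with `ν = (1-κ) Re s̃/2 ≥ (1-κ)|s'|/4`: `m|∫| ≥ (1-κ)/|s'| - 128 L/(m (1-κ)³ |s'|³) - e^{-mρν}/ν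
≥ (1-κ)/(2|s'|) ≥ (1-κ)/2` if `K² ≥ 512 L/(1-κ)⁴` and `m` is large (`mν ≥ (1-κ) K √m/4`).  `EPh` at `ρ`, and
`|∏_{small}(1 - ρ l̃)| ≤ exp(-mρ²/48)`: `m|∫| ≤ 3 exp(m (10/(1-r) √δ - ρ²/48)) ≤ 3 exp(-mρ²/96)` if `10/(1-r) √δ ≤ ρ²/96`. -/
def S_C2b : Prop :=
  ∀ r κ : ℝ, 0 < r → r < 1 → 0 < κ → κ < 1 →
    ∃ K : ℝ, 0 < K ∧ ∃ δ₀ : ℝ, 0 < δ₀ ∧ δ₀ ≤ 1 ∧ ∃ N : ℕ, ∀ (m : ℕ) (l : Fin m → ℂ) (δ : ℝ), N ≤ m →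
      0 < δ → δ ≤ δ₀ → ∑ k, ‖l k‖ ≤ m → bB (2 / (1 - r)) l ≤ κ * (sR (2 / (1 - r)) l).re →
      EPh m l r δ → K ≤ Real.sqrt m * ‖sR (2 / (1 - r)) l‖ → 1 / 5 ≤ (yR (2 / (1 - r)) l).re →
      |(yR (2 / (1 - r)) l).im| ≤ 1 / 60 → False

/-- (FL) Formal lemma behind the alternating inequalities (compare `S_AI1` and its proof in `H190/BV/Ai1.lean`, which is the
case `f = 1/(1+X)`, `D = 1`).  `f ∈ ℂ[[X]]`, `f(0) ≠ 0`, `u` with `f' = -u f` and `|[X^j] u| ≤ D^{-(j+1)}`, i.e. `u ≪ 1/(D-X)`.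
Then for `∑_B |λ_k| < D`: `|(∏_B (1 + λ_k ∂) f)(0)| ≥ |f(0)| (1 - ∑|λ_k|/D)`, where
`∏_B (1 + λ_k ∂) f (0) = ∑_{S⊆B} ∏_S λ_k · |S|! [X^{|S|}] f`.

Proof. One step: `f⁺ = f + λ f' = f (1 - λ u)`, `u⁺ = u + λ u'/(1 - λ u)` (so `f⁺' = -u⁺ f⁺`), and
`u⁺ ≪ 1/(D-X) + μ (D-X)⁻²/(1 - μ/(D-X)) = 1/(D-μ-X)` exactly, `μ = |λ|`; `|f⁺(0)| ≥ |f(0)| (1 - μ/D) = |f(0)| (D-μ)/D`.
Induction on `B`, telescoping product. -/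
def S_FL : Prop :=
  ∀ (K : ℕ) (l : Fin K → ℂ) (B : Finset (Fin K)) (f u : PowerSeries ℂ) (D : ℝ), 0 < D →
    PowerSeries.derivative ℂ f = -(u * f) → (∀ j, ‖PowerSeries.coeff j u‖ ≤ (1 / D) ^ (j + 1)) →
    ∑ k ∈ B, ‖l k‖ < D →
    ‖PowerSeries.coeff 0 f‖ * (1 - (∑ k ∈ B, ‖l k‖) / D) ≤
      ‖∑ S ∈ B.powerset, (∏ k ∈ S, l k) * ((S.card.factorial : ℂ) * PowerSeries.coeff S.card f)‖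

/-- the Mills type function -/
noncomputable def gG (s : ℂ) : ℂ := ∫ x in Set.Ioi (0:ℝ), Complex.exp (-((x : ℂ) * s) - (x : ℂ) ^ 2 / 2)

/-- (G1A) `gG` is entire with the expected derivatives.

Proof. Differentiation under the integral (dominated: `|x^n e^{-xs - x²/2}| ≤ x^n e^{x|s| - x²/2}`, e.g.
`hasDerivAt_integral_of_dominated_loc_of_deriv_le`), induction on `n`. -/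
def S_G1A : Prop :=
  Differentiable ℂ gG ∧
  ∀ (n : ℕ) (s : ℂ), iteratedDeriv n gG s =
    ∫ x in Set.Ioi (0:ℝ), (-(x : ℂ)) ^ n * Complex.exp (-((x : ℂ) * s) - (x : ℂ) ^ 2 / 2)

/-- (G1B) `∫ (-x-s) e^{-xs - x²/2} dx = [e^{-xs-x²/2}]_0^∞ = -1`; and expansion of a product, with integrability. -/
def S_G1B : Prop :=
  (∀ (n : ℕ) (s : ℂ), MeasureTheory.IntegrableOn
    (fun x : ℝ => (-(x : ℂ)) ^ n * Complex.exp (-((x : ℂ) * s) - (x : ℂ) ^ 2 / 2)) (Set.Ioi 0)) ∧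
  (∀ s : ℂ, ∫ x in Set.Ioi (0:ℝ), (-(x : ℂ)) * Complex.exp (-((x : ℂ) * s) - (x : ℂ) ^ 2 / 2) =
    s * gG s - 1) ∧
  (∀ (K : ℕ) (l : Fin K → ℂ) (B : Finset (Fin K)) (s : ℂ),
    ∫ x in Set.Ioi (0:ℝ), (∏ k ∈ B, (1 - (x : ℂ) * l k)) * Complex.exp (-((x : ℂ) * s) - (x : ℂ) ^ 2 / 2) =
      ∑ S ∈ B.powerset, (∏ k ∈ S, l k) *
        ∫ x in Set.Ioi (0:ℝ), (-(x : ℂ)) ^ S.card * Complex.exp (-((x : ℂ) * s) - (x : ℂ) ^ 2 / 2))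

/-- (G2) For `Re s > 0`, with `e(s) = E 1/|s+iτ|²`, `τ` standard normal: `Re G = Re s · e`, `|G|² ≤ e`, `|G'| ≤ e`.

Proof. `e^{-x²/2} = E e^{-ixτ}` (characteristic function of the Gaussian), Fubini: `G(s) = E 1/(s+iτ)`, `G'(s) = -E 1/(s+iτ)²`
(same Fubini with the factor `-x`, or differentiate). `Re 1/(s+iτ) = Re s/|s+iτ|²`; Cauchy-Schwarz (Jensen). -/
def S_G2 : Prop :=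
  ∀ s : ℂ, 0 < s.re → ∃ e : ℝ, 0 < e ∧ (gG s).re = s.re * e ∧ ‖gG s‖ ^ 2 ≤ e ∧
    ‖∫ x in Set.Ioi (0:ℝ), (-(x : ℂ)) * Complex.exp (-((x : ℂ) * s) - (x : ℂ) ^ 2 / 2)‖ ≤ e

/-- (G3) Carathéodory in a half plane: `v` analytic with `Re v ≥ 0` on `Re s > 0`, then
`|v^{(j)}(s)|/j! ≤ Re v(s)/(Re s)^j` for `j ≥ 1`.

Proof. `D = Re s`, `F(ζ) = v(s + 2Dζ/(1-ζ))` is analytic on the unit disc with `Re F ≥ 0`, so `F = ∑ c_n ζ^n` with `|c_n| ≤ 2 Re c_0`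
(`n ≥ 1`; Carathéodory: Cauchy formula for `F` and for the conjugate on `|ζ| = R < 1`, `c_n R^n = (1/π) ∫ Re F(Re^{iθ}) e^{-inθ} dθ`, `R → 1`).
`v(s + η D) = F(ζ)`, `ζ = η/(2+η) = (η/2)/(1+η/2)`; so `[η^j]` of `v(s+ηD)` is `∑_{n=1}^j c_n [η^j] ((η/2)/(1+η/2))^n`, bounded by
`2 Re c_0 [η^j] ∑_n ((η/2)/(1-η/2))^n = Re c_0 [η^j] (2 (η/2)/(1-η)) = Re c_0`. -/
def S_G3 : Prop :=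
  ∀ v : ℂ → ℂ, DifferentiableOn ℂ v {s | 0 < s.re} → (∀ s : ℂ, 0 < s.re → 0 ≤ (v s).re) →
    ∀ (s : ℂ) (j : ℕ), 0 < s.re → 1 ≤ j →
      ‖iteratedDeriv j v s‖ / j.factorial ≤ (v s).re / s.re ^ j

/-- (GAI) from (FL), (G1A), (G1B), (G2), (G3): Gaussian alternating inequality.

Proof. Let `Re s > 0`, `D = Re s`. `G ≠ 0` (`Re G > 0` by G2). `v = -G'/G = 1/G - s` (G1) is analytic on the right half plane,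
`Re v = Re G/|G|² - Re s ≥ 0` (G2: `|G|² ≤ e = Re G/Re s`), `|v| ≤ e/|G| ≤ e/Re G = 1/Re s`. By (G3) `|v^{(j)}(s)|/j! ≤ D^{-(j+1)}` for all `j`.
Let `f, u` be the Taylor series of `G, v` at `s` (`G' = -vG`); (FL) with `κD` etc. gives `|∫| ≥ |G(s)| (1 - ∑|λ|/D) ≥ (1-κ)|G(s)|`
((G1) last item). If `Re s = 0` then `∑_B |λ_k| = 0`, all factors are `1` and the integral is `G(s)`.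
`|G| ≥ c` on the compact set `Re s ≥ 0, |s| ≤ K` (continuous, nonzero: for `Re s > 0` by (G2); for `s = iy`:
`Re G(iy) = ∫_0^∞ e^{-x²/2} cos(xy) dx = √(π/2) e^{-y²/2} > 0`). -/
def S_GAI : Prop :=
  ∀ K : ℝ, 0 < K → ∃ c : ℝ, 0 < c ∧ ∀ (n : ℕ) (l : Fin n → ℂ) (B : Finset (Fin n)) (s : ℂ) (κ : ℝ),
    0 ≤ κ → κ < 1 → 0 ≤ s.re → ‖s‖ ≤ K → ∑ k ∈ B, ‖l k‖ ≤ κ * s.re →
    (1 - κ) * c ≤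
      ‖∫ x in Set.Ioi (0:ℝ), (∏ k ∈ B, (1 - (x : ℂ) * l k)) * Complex.exp (-((x : ℂ) * s) - (x : ℂ) ^ 2 / 2)‖

/-- (GAY) from (GAI): the same with `e^{-x² Y/2}`, `1/5 ≤ Y ≤ L`: substitute `x = y/√Y`. -/
def S_GAY : Prop :=
  ∀ K L : ℝ, 0 < K → 1 ≤ L → ∃ c : ℝ, 0 < c ∧ ∀ (n : ℕ) (l : Fin n → ℂ) (B : Finset (Fin n)) (s : ℂ) (κ Y : ℝ),
    0 ≤ κ → κ < 1 → 0 ≤ s.re → ‖s‖ ≤ K → ∑ k ∈ B, ‖l k‖ ≤ κ * s.re → 1 / 5 ≤ Y → Y ≤ L →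
    (1 - κ) * c ≤
      ‖∫ x in Set.Ioi (0:ℝ), (∏ k ∈ B, (1 - (x : ℂ) * l k)) *
        Complex.exp (-((x : ℂ) * s) - (x : ℂ) ^ 2 * Y / 2)‖

/-- (LG) from (TR), (GAY): lower bound of the local integral, Gaussian case.

Proof. `x = √m τ`, `λ_k = l_k/√m`, `σ = √m s'`, `|σ| ≤ K`, `Y₀ = Re Y`, `ρ ≤ 1/(24L²)`. Model `∏_B (1 - xλ_k) e^{-xσ - x²Y₀/2}` on `(0,∞)`: (GAY)
`≥ (1-κ)c`. On `[0, √m ρ]`: by (TR) `∏_{small} = e^{-xσ-x²Y₀/2} e^ζ`, `ζ = -i x² Im Y/2 + E`, `|E| ≤ x³L²/(2√m) ≤ x²/48`, so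
`|e^ζ - 1| ≤ |ζ| e^{|Re ζ|}`, `|Re ζ| ≤ x²/48`; `|∏_B (1-xλ_k)| ≤ e^{xκ Re σ}`; so the difference is
`≤ ∫ (x² |Im Y|/2 + x³ L²/(2√m)) e^{-x²/10 + x²/48} dx ≤ 200 (|Im Y| + L²/√m)`; tail of the model
`≤ ∫_{√mρ}^∞ e^{-x²/10} dx ≤ 4 e^{-mρ²/20}`. -/
def S_LG : Prop :=
  ∀ K L : ℝ, 0 < K → 1 ≤ L → ∃ c : ℝ, 0 < c ∧ ∀ (m : ℕ) (l : Fin m → ℂ) (κ ρ : ℝ), 1 ≤ m → 0 ≤ κ → κ < 1 →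
    0 < ρ → ρ ≤ 1 / (24 * L ^ 2) → ∑ k, ‖l k‖ ≤ m → Real.sqrt m * ‖sR L l‖ ≤ K → 0 ≤ (sR L l).re →
    bB L l ≤ κ * (sR L l).re → 1 / 5 ≤ (yR L l).re →
    (1 - κ) * c - 200 * (|(yR L l).im| + L ^ 2 / Real.sqrt m) - 4 * Real.exp (-(m * ρ ^ 2 / 20)) ≤
      Real.sqrt m * ‖∫ τ in (0:ℝ)..ρ, ∏ k, (1 - (τ : ℂ) * l k)‖

/-- (C2a) from (PT), (LG): the case `√m |s'| ≤ K`.

Proof. `L = 2/(1-r)`, `ρ = 1/(24L²)` (`≤ (1-r)/8`), `ω = 1`; `ι` with `200 ι ≤ (1-κ)c/4`, (LG) gives `√m |∫| ≥ (1-κ)c/2` for large `m`; `EPh` and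
(PT) second case (`|∏_{small}(1-ρl)| ≤ e^{-mρ²/48}`): `√m|∫| ≤ 3 exp(m (10/(1-r) √δ - ρ²/48)) ≤ 3 exp(-mρ²/96)` if `10/(1-r) √δ ≤ ρ²/96`. -/
def S_C2a : Prop :=
  ∀ r κ K : ℝ, 0 < r → r < 1 → 0 < κ → κ < 1 → 0 < K →
    ∃ ι : ℝ, 0 < ι ∧ ∃ δ₀ : ℝ, 0 < δ₀ ∧ δ₀ ≤ 1 ∧ ∃ N : ℕ, ∀ (m : ℕ) (l : Fin m → ℂ) (δ : ℝ), N ≤ m →
      0 < δ → δ ≤ δ₀ → ∑ k, ‖l k‖ ≤ m → bB (2 / (1 - r)) l ≤ κ * (sR (2 / (1 - r)) l).re →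
      EPh m l r δ → Real.sqrt m * ‖sR (2 / (1 - r)) l‖ ≤ K → 1 / 5 ≤ (yR (2 / (1 - r)) l).re →
      |(yR (2 / (1 - r)) l).im| ≤ ι → False

/-- (BK) `β ≤ κ Re s'`.

Proof. `q_k = ‖l_k‖ + a Re l_k - 1 ≥ 0` (`‖l_k‖ ≥ ‖1-al_k‖ ≥ Re(1-al_k)`). `a Re s' = (1/m) ∑_{small} (1 - ‖l_k‖ + q_k)
≥ (m - |B|)/m - (X - β)`, `X = ∑‖l‖/m ≤ 1`, `|B| ≤ mβ/L`: `a Re s' ≥ β (1 - 1/L) = β (1+r)/2`, `a ≤ r`. -/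
def S_BK : Prop :=
  ∀ (m : ℕ) (l : Fin m → ℂ) (a r : ℝ), 1 ≤ m → 0 < a → a ≤ r → r < 1 → (∀ k, ‖1 - (a : ℂ) * l k‖ ≤ ‖l k‖) →
    ∑ k, ‖l k‖ ≤ m → bB (2 / (1 - r)) l ≤ 2 * r / (1 + r) * (sR (2 / (1 - r)) l).re

/-- (YY) the second moment is near the positive axis if `s'` is small.

Proof. `L = 2/(1-r)`. `∑_k q_k = ∑‖l_k‖ - m + a Re ∑ l_k ≤ m (|s'| + β) ≤ 2 m ε` (`β ≤ Re s'`). Write `l = x+iy`. `q ≥ a² y²/(2‖l‖)`: if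
`1 - ax ≥ 0` then `q = (‖l‖² - (1-ax)²)/(‖l‖+1-ax) ≥ a²y²/(2‖l‖)` (`‖l‖² ≥ (1-ax)² + a²y²`), otherwise `q ≥ ‖l‖ ≥ a²y²/(2‖l‖)`. So
`∑_{small} y² ≤ (2L/r₀²) · 2mε`. `Re Y = (1/m) ∑_{small} (‖l‖² - 2y²) ≥ (1/4)(1 - |B|/m) - 8Lε/r₀²`, `|B| ≤ mβ ≤ mε`;
`|Im Y| ≤ (2/m) ∑_{small} ‖l‖ |y| ≤ 2 √L √(4Lε/r₀²)` (Cauchy-Schwarz, `∑_{small} ‖l‖² ≤ L m`). -/
def S_YY : Prop :=
  ∀ r₀ r ι : ℝ, 0 < r₀ → r₀ ≤ r → r < 1 → 0 < ι → ∃ ε : ℝ, 0 < ε ∧ ε ≤ 1 / 4 ∧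
    ∀ (m : ℕ) (l : Fin m → ℂ) (a : ℝ), 1 ≤ m → r₀ ≤ a → a ≤ r → (∀ k, ‖1 - (a : ℂ) * l k‖ ≤ ‖l k‖) →
      (∀ k, 1 / 2 ≤ ‖l k‖) → ∑ k, ‖l k‖ ≤ m → bB (2 / (1 - r)) l ≤ (sR (2 / (1 - r)) l).re →
      ‖sR (2 / (1 - r)) l‖ ≤ ε →
      1 / 5 ≤ (yR (2 / (1 - r)) l).re ∧ |(yR (2 / (1 - r)) l).im| ≤ ι

/-- (ED2) from (AI2), as (ED) (`H764/BV/Ed.lean`, adapt it): `(|s| - ∑_B|l|)/|s|² ≥ 1 - 2b/δ` since `δ/2 ≤ |s| ≤ 1`. -/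
def S_ED2 : Prop :=
  ∀ (K : ℕ) (l : Fin K → ℂ) (B : Finset (Fin K)) (s : ℂ) (δ T b : ℝ), 0 < δ → 0 ≤ T →
    δ / 2 + ∑ k ∈ B, ‖l k‖ ≤ s.re → ‖s‖ ≤ 1 → ∑ k ∈ B, ‖l k‖ ≤ b →
    1 - 2 * b / δ - 2 / δ * Real.exp (-(δ * T / 2)) ≤
      ‖∫ t in (0:ℝ)..T, (∏ k ∈ B, (1 - (t : ℂ) * l k)) * Complex.exp (-((t : ℂ) * s))‖

/-- (EE2) from (EB), (ET), (EC), (ED2), exactly as (EE) (`H788/BV/Ee.lean`, adapt it). -/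
def S_EE2 : Prop :=
  ∀ (m : ℕ) (l : Fin m → ℂ) (a δ η T b : ℝ), 1 ≤ m → 0 < a → a ≤ 1 → 0 < δ → 0 < η → 0 ≤ T →
    η * T ≤ 1 / 2 → η * T ^ 2 ≤ 1 → T ≤ δ * m → 4 ≤ η * δ * m →
    ∑ k, ‖l k‖ ≤ m → ∑ k, ‖1 - (a : ℂ) * l k‖ ≤ (1 - δ) * m →
    ∑ k ∈ Finset.univ.filter (fun k => η * m < ‖l k‖), ‖l k‖ ≤ b * m →
    1 - 2 * b / δ - 4 * η * T ^ 2 / δ - 3 / δ * Real.exp (-(δ * T / 2)) ≤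
      ‖((m : ℂ) + 1) * ∫ u in (0:ℝ)..a, ∏ k, (1 - (u : ℂ) * l k)‖

/-- (AG) improved arithmetic-geometric mean inequality.

Proof. `log x ≤ x - 1` for all `x > 0`, `log x ≤ x/2 - 1` for `x ≥ 6`; so `∑ log‖l_k‖ ≤ ∑‖l_k‖ - m - (1/2) ∑_B ‖l_k‖ ≤ -(1/2)∑_B‖l_k‖`.
(Positive product, so all `‖l_k‖ > 0`.) -/
def S_AG : Prop :=
  ∀ (m : ℕ) (l : Fin m → ℂ) (x c : ℝ), 6 ≤ x → 0 < c → ∑ k, ‖l k‖ ≤ m → c ≤ ∏ k, ‖l k‖ →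
    ∑ k ∈ Finset.univ.filter (fun k => x < ‖l k‖), ‖l k‖ ≤ 2 * Real.log (1 / c)

/-- (R1) from (EE), (EE2), (AG): first regime, `δ` bounded below.

Proof. Fixed `δ`, `r`.  `T = m^(1/4)`, `η = δ (1-r) / (100 T²)` say (`η m → ∞`, `ηT ≤ 1/2`, `ηT² ≤ 1`, `T ≤ δm`, `4 ≤ ηδm` for large `m`).  (EE) gives
`|J| ≥ δ/2 - 4ηT²/δ - (3/δ) e^{-δT/2} ≥ δ/4` for large `m` if also `η T² ≤ δ²/100` (take `η = min(δ(1-r), δ²)/(100 T²)`), so `∏‖l_k‖ ≥ |J|/a ≥ δ/4`; (AG) with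
`x = ηm` (`≥ 6`), `c = δ/4`: `∑_{ηm<‖l‖} ‖l‖ ≤ 2 log(4/δ) = b m`, `b → 0`.  (EE2): `|J| ≥ 1 - 2b/δ - (1-r)/25 - (3/δ) e^{-δT/2} > r` for large `m`.
But `|J| ≤ a ∏‖l_k‖ ≤ a ≤ r` (AM-GM, `∑‖l_k‖ ≤ m`). -/
def S_R1 : Prop :=
  ∀ δ r : ℝ, 0 < δ → δ ≤ 1 → 0 < r → r < 1 → ∃ N : ℕ, 1 ≤ N ∧ ∀ (m : ℕ) (l : Fin m → ℂ) (a : ℝ), N ≤ m →
    0 < a → a ≤ r → ∑ k, ‖l k‖ ≤ m → ∑ k, ‖1 - (a : ℂ) * l k‖ ≤ (1 - δ) * m →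
    ‖((m : ℂ) + 1) * ∫ u in (0:ℝ)..a, ∏ k, (1 - (u : ℂ) * l k)‖ ≤ a * ∏ k, ‖l k‖ → False

end Pool.Agent.H798.BV
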