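import Mathlib
import Pool.Agent.H798.BV.Stm
import Pool.Agent.H798.BV.Stm5

set_option autoImplicit false

/-!
# MP_f0bc87_an: the critical pair `p = s = 2`, i.e. `∑ 1/|w_k - ζ|² ≥ (n-1)/σ_2²` in large degree, the pieces

`m` = number of critical points, `l k = (a - w k)⁻¹`, `s = (∑ l_k)/m`, normalisation `∑ w_k = 0`,
`∑ |w_k|² ≤ m`, `∑ |l_k|² ≤ m`; `yR L l = (∑_{|l_k| ≤ L} l_k²)/m` (from `Stm5`).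
-/

namespace Pool.Agent.H798.BV

/-- the product over the complement of `S` -/
noncomputable def fS {m : ℕ} (l : Fin m → ℂ) (S : Finset (Fin m)) (u : ℝ) : ℂ :=
  ∏ k ∈ Sᶜ, (1 - (u : ℂ) * l k)

/-- (L1) The integral when `√m |s|` is large.

Proof. `Λ_S = ∑_{k∉S} l_k`, `f_S = fS l S`. Since `f_{S∪k} = f_S + u l_k f_{S∪k}` (`k ∉ S`),
`f_S' = -∑_{k∉S} l_k f_{S∪k} = -Λ_S f_S - u ∑_{k∉S} l_k² f_{S∪k}`. Integrating, and integrating `u f_S'`: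
(I) `Λ_S ∫₀^a f_S = 1 - f_S(a) - ∑_{k∉S} l_k² ∫₀^a u f_{S∪k} du`;
(II) `Λ_S ∫₀^a u f_S = ∫₀^a f_S - a f_S(a) - ∑_{k∉S} l_k² ∫₀^a u² f_{S∪k} du`.
By the Gaussian bounds (`∫₀^∞ e^{-c₀mu²} du = √π/(2√(c₀m))`, `∫₀^∞ u² e^{-c₀mu²} du = √π/(4 (c₀m)^(3/2))`, `a e^{-c₀ma²} ≤ 1/√(c₀m)`;
any cruder bounds with the same powers of `m` will do) the right side of (II) with `S = {j}` is at most `C₁/√m` in norm, and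
`|Λ_{j}| ≥ |Λ| - |l_j| ≥ √m (K - 1)`, `K = √m |s| ≥ K₀` (`|l_j| ≤ √m`). So `|∫ u f_{j}| ≤ C₁/(m (K₀-1))`, and (I) with `S = ∅` gives
`|Λ ∫ f - 1| ≤ C₀ e^{-c₀ K₀} + C₁/(K₀-1) ≤ 1/2` for `K₀` large. `Λ = m s`. -/
def S_L1 : Prop :=
  ∀ C₀ c₀ : ℝ, 0 < C₀ → 0 < c₀ → ∃ K₀ : ℝ, 1 ≤ K₀ ∧ ∀ (m : ℕ) (l : Fin m → ℂ) (a : ℝ), 1 ≤ m → 0 < a →
    K₀ ≤ m * a ^ 2 → ∑ k, ‖l k‖ ^ 2 ≤ m →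
    (∀ S : Finset (Fin m), S.card ≤ 2 → ∀ u : ℝ, 0 ≤ u → u ≤ a →
      ‖fS l S u‖ ≤ C₀ * Real.exp (-(c₀ * (m * u ^ 2)))) →
    K₀ ≤ Real.sqrt m * ‖(∑ k, l k) / m‖ →
    1 / 2 ≤ m * ‖(∑ k, l k) / m‖ * ‖∫ u in (0:ℝ)..a, ∏ k, (1 - (u : ℂ) * l k)‖

/-- (L2a) Pointwise Gaussian approximation on `[0, X]`, `u = x/√m`.

Proof. `ζ_k = (x/√m) l_k`. Small `k` (`|l_k| ≤ L`): `|ζ_k| ≤ XL/√m ≤ 1/2`; other `k`: `|l_k|² ≤ ε m`, `|ζ_k| ≤ X√ε ≤ 1/2`.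
`log(1-ζ) = -ζ - ζ²/2 + O(|ζ|³)` for the small `k`, `log(1-ζ) = -ζ + O(|ζ|²)` for the others. So
`∏ (1-ζ_k) = exp(-x √m s - x² yR/2 + E)`, `|E| ≤ ∑_{small} |ζ_k|³ + ∑_{big} |ζ_k|² ≤ X³L/√m + X²ε`, and
`|x²/2 (yR - 1)| ≤ X²ε/2`; `|exp(-x√m s - x²/2)| ≤ 1`, `|e^y - 1| ≤ 2|y|` for `|y| ≤ 1`. (`K` is not needed.) -/
def S_L2a : Prop :=
  ∀ X η L : ℝ, 0 < X → 0 < η → 1 ≤ L → ∃ ε M : ℝ, 0 < ε ∧ 1 ≤ M ∧ ∀ (m : ℕ) (l : Fin m → ℂ), M ≤ m →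
    ∑ k, ‖l k‖ ^ 2 ≤ m → 0 ≤ ((∑ k, l k) / m).re →
    ∑ k ∈ Finset.univ.filter (fun k => L < ‖l k‖), ‖l k‖ ^ 2 ≤ ε * m → ‖yR L l - 1‖ ≤ ε →
    ∀ x : ℝ, 0 ≤ x → x ≤ X →
      ‖∏ k, (1 - ((x / Real.sqrt m : ℝ) : ℂ) * l k) -
        Complex.exp (-((x : ℂ) * ((Real.sqrt m : ℂ) * ((∑ k, l k) / m))) - (x : ℂ) ^ 2 / 2)‖ ≤ η

/-- (L2) from (L2a), (GAI): the integral when `√m |s| ≤ K` and `Y` is near `1`.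

Proof. (GAI) with `B = ∅`, `κ = 0`: `‖gG σ‖ ≥ c₁ > 0` for `Re σ ≥ 0`, `|σ| ≤ K`. Choose `X ≥ 1` with
`∫_X^∞ e^{-x²/2} dx ≤ c₁/4` and `C₀ ∫_X^∞ e^{-c₀x²} dx ≤ c₁/4`, then (L2a) with `η = c₁/(4X)`; `M ≥ X²` so that `X/√m ≤ a`.
With `u = x/√m`: `√m ∫₀^a f du = ∫₀^{√m a} f(x/√m) dx`, and it differs from `gG(√m s)` by at most `3c₁/4`. `c = c₁/4`. -/
def S_L2 : Prop :=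
  ∀ C₀ c₀ L K : ℝ, 0 < C₀ → 0 < c₀ → 1 ≤ L → 0 < K → ∃ ε c M : ℝ, 0 < ε ∧ 0 < c ∧ 1 ≤ M ∧
    ∀ (m : ℕ) (l : Fin m → ℂ) (a : ℝ), M ≤ m → 0 < a → M ≤ m * a ^ 2 → ∑ k, ‖l k‖ ^ 2 ≤ m →
    (∀ u : ℝ, 0 ≤ u → u ≤ a →
      ‖∏ k, (1 - (u : ℂ) * l k)‖ ≤ C₀ * Real.exp (-(c₀ * (m * u ^ 2)))) →
    0 ≤ ((∑ k, l k) / m).re → Real.sqrt m * ‖(∑ k, l k) / m‖ ≤ K →
    ∑ k ∈ Finset.univ.filter (fun k => L < ‖l k‖), ‖l k‖ ^ 2 ≤ ε * m → ‖yR L l - 1‖ ≤ ε →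
    c ≤ Real.sqrt m * ‖∫ u in (0:ℝ)..a, ∏ k, (1 - (u : ℂ) * l k)‖

/-- (L3a) Basic facts for small `a`.

Proof. `x_k = a - w_k = 1/l_k`, `r = |x_k|`, `e = x_k/r`. `∑ x_k = m a`, `∑ r² = ∑|a-w_k|² = m a² + ∑|w_k|² ≤ m (a²+1)`,
`∑ r⁻² ≤ m`, so `∑ (r - 1/r)² ≤ m a²`. `l = conj x/r² = conj x + conj e (1/r - r)`, so `m s = m a + ∑ conj e_k (1/r_k - r_k)`:
`|s| ≤ 2a` and, with `U = (∑ (Re e_k)²)/m` (`Re e = Re l/|l|`) and Cauchy-Schwarz, `Re s ≥ a - √U a`. If `|l| > 2` (`r < 1/2`) then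
`(r-1/r)² ≥ (9/16) |l|²` and `≥ 9/4`: fourth claim, and the number of such `k` is `≤ (4/9) m a² ≤ m a/2`. For `r ≥ 1/2`:
`l² = conj e² + conj e² (1/r² - 1)`, `|1/r²-1| ≤ 2|1/r - r|` (if `r ≥ 1/2`: `|1/r² - 1| = |1/r - r|/r`), so
`|yR - (∑ conj e_k²)/m| ≤ 2a + a/2`. `|e² - 1| = 2|Im e|`, `(∑ |Im e_k|)/m ≤ √(1-U)`; `Re (∑ conj e_k²)/m = 2U - 1`. -/
def S_L3a : Prop :=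
  ∀ (m : ℕ) (w : Fin m → ℂ) (a : ℝ), 1 ≤ m → 0 < a → a ≤ 1 / 2 → (∀ k, w k ≠ a) → ∑ k, w k = 0 →
    ∑ k, ‖w k‖ ^ 2 ≤ m → ∑ k, ‖((a : ℂ) - w k)⁻¹‖ ^ 2 ≤ m →
    ∃ U : ℝ, 0 ≤ U ∧ U ≤ 1 ∧
      ‖(∑ k, ((a : ℂ) - w k)⁻¹) / m‖ ≤ 2 * a ∧
      a * (1 - Real.sqrt U) ≤ ((∑ k, ((a : ℂ) - w k)⁻¹) / m).re ∧
      ∑ k ∈ Finset.univ.filter (fun k => 2 < ‖((a : ℂ) - w k)⁻¹‖), ‖((a : ℂ) - w k)⁻¹‖ ^ 2 ≤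
        2 * a ^ 2 * m ∧
      ‖yR 2 (fun k => ((a : ℂ) - w k)⁻¹) - 1‖ ≤ 2 * Real.sqrt (1 - U) + 3 * a ∧
      2 * U - 1 - 3 * a ≤ (yR 2 (fun k => ((a : ℂ) - w k)⁻¹)).re

/-- (L3b) Gaussian decay for small `a`.

Proof. `ζ = u l`. `log|1-ζ| ≤ -Re ζ + |ζ|²/2` for all `ζ` (`log t ≤ t - 1` for `t = |1-ζ|²`; used for `|l_k| > 2`), and
`log|1-ζ| ≤ -Re ζ - Re(ζ²)/2 + |ζ|³` for `|ζ| ≤ 1/2` (used for `|l_k| ≤ 2`). Sum over `k ∉ S`, with `x = √m u`: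
`log|f_S| ≤ -m u Re s + u ∑_S |l_k| + m a² u² - (u²/2) m Re yR + (u²/2)·8 + 2 m u³`.
`|l_k| ≤ 2 + √(2m) a` for every `k`, so `u ∑_S |l_k| ≤ 4a + 3 a x ≤ 1 + x²/32`. Together with the lower bounds of `Re s`, `Re yR`:
`log|f_S| ≤ 2 - m u (a (1-√U) + u (U - 1/2)) + 4 a m u² + x²/32`, and `a (1-√U) + u (U-1/2) ≥ u/4` for `0 ≤ u ≤ a`
(`u = τa`; it is `a ((1-τ)(1-√U) + τ((√U-1/2)² + 1/4))`). So `≤ 2 - m u² (1/4 - 1/8 - 1/32) ≤ 2 - m u²/16`. `C = e²`.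
(Work with products of norms bounded by `Real.exp`, to avoid `log 0`.) -/
def S_L3b : Prop :=
  ∃ C : ℝ, 1 ≤ C ∧ ∀ (m : ℕ) (l : Fin m → ℂ) (a U : ℝ), 1 ≤ m → 0 < a → a ≤ 1 / 32 → 0 ≤ U → U ≤ 1 →
    ∑ k, ‖l k‖ ^ 2 ≤ m → a * (1 - Real.sqrt U) ≤ ((∑ k, l k) / m).re →
    ∑ k ∈ Finset.univ.filter (fun k => 2 < ‖l k‖), ‖l k‖ ^ 2 ≤ 2 * a ^ 2 * m →
    2 * U - 1 - 3 * a ≤ (yR 2 l).re →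
    ∀ S : Finset (Fin m), S.card ≤ 2 → ∀ u : ℝ, 0 ≤ u → u ≤ a →
      ‖fS l S u‖ ≤ C * Real.exp (-(1 / 16 * (m * u ^ 2)))

/-- (L4) Basic facts when `θ = mean |w_k||l_k| ≥ 1 - δ`. `L = 2 (A+1)`, `h_k = |1 - a l_k| - Re(1 - a l_k) ≥ 0`.

Proof. `ρ = |w|`, `r = |a-w| = 1/|l|`; `1 - a l = - w l`. `∑ (ρ-|l|)² ≤ 2m - 2(1-δ)m = 2δm`; by Cauchy-Schwarz
`∑ρ², ∑|l|² ≥ (1-δ)² m`. `∑ r² = m a² + ∑ρ² ≤ (A²+1) m`. `∑ |ρr - 1| = ∑ r |ρ - |l|| ≤ C₁ √δ m`. `∑ Re(conj w (w - a)) = ∑ρ² ≥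
(1-2δ) m`, so `∑ (ρ r - Re(conj w (w-a))) ≤ (C₁√δ + 2δ) m`; multiplied by `|l|²` the summand is `h_k`: `|l|² conj w (w-a) =
- conj w conj l = conj(1 - a l)`. So `∑_{small} h ≤ L² (C₁√δ + 2δ) m`. Big `k` (`|l| > L`): `ρ ≤ a + 1/L ≤ L/2 ≤ |l|/2`, so
`∑_{big} |l|² ≤ 4 ∑ (ρ-|l|)² ≤ 8δm`, and `h ≤ 2|1-al| ≤ |l|²`. `|l + conj w|² = (|l|-ρ)² + 2h` and `∑ (l_k + conj w_k) = m s`, so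
`|s|² ≤ (1/m) ∑ |l + conj w|² ≤ 2δ + (2/m) ∑ h`; also `0 ≤ ∑ |l + conj w|² = ∑(|l|²+ρ²) - 2m + 2a Re ∑ l ≤ 2a Re ∑ l`. With `y = Im l`:
`h = a² y²/(|1-al| + Re(1-al)) ≥ a² y²/(2|1-al|)`, so for small `k`: `y² ≤ 2(1+AL) h/a₁²`, `h² ≤ 2(1+AL) h`. `l² - |l|² = 2 i y l`, so
`|yR - (∑_{small}|l|²)/m| ≤ (2/m) ∑_{small} |y||l| ≤ 2 √((1/m)∑_{small} y²)`. -/
def S_L4 : Prop :=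
  ∀ A a₁ : ℝ, 0 < a₁ → a₁ ≤ A → 1 ≤ A → ∃ C : ℝ, 1 ≤ C ∧ ∀ (m : ℕ) (w : Fin m → ℂ) (a δ : ℝ), 1 ≤ m →
    a₁ ≤ a → a ≤ A → 0 < δ → δ ≤ 1 → (∀ k, w k ≠ a) → ∑ k, w k = 0 → ∑ k, ‖w k‖ ^ 2 ≤ m →
    ∑ k, ‖((a : ℂ) - w k)⁻¹‖ ^ 2 ≤ m → (1 - δ) * m ≤ ∑ k, ‖w k‖ * ‖((a : ℂ) - w k)⁻¹‖ →
    0 ≤ ((∑ k, ((a : ℂ) - w k)⁻¹) / m).re ∧
    ‖(∑ k, ((a : ℂ) - w k)⁻¹) / m‖ ≤ C * Real.sqrt (Real.sqrt δ) ∧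
    ‖yR (2 * (A + 1)) (fun k => ((a : ℂ) - w k)⁻¹) - 1‖ ≤ C * Real.sqrt (Real.sqrt δ) ∧
    ∑ k ∈ Finset.univ.filter (fun k => 2 * (A + 1) < ‖((a : ℂ) - w k)⁻¹‖), ‖((a : ℂ) - w k)⁻¹‖ ^ 2 ≤
      8 * δ * m ∧
    (1 - 10 * δ) * m ≤ ∑ k ∈ Finset.univ.filter (fun k => ¬ 2 * (A + 1) < ‖((a : ℂ) - w k)⁻¹‖),
      ‖((a : ℂ) - w k)⁻¹‖ ^ 2 ∧
    ∑ k ∈ Finset.univ.filter (fun k => ¬ 2 * (A + 1) < ‖((a : ℂ) - w k)⁻¹‖),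
      (|(((a : ℂ) - w k)⁻¹).im| + (‖1 - (a : ℂ) * ((a : ℂ) - w k)⁻¹‖ -
        (1 - (a : ℂ) * ((a : ℂ) - w k)⁻¹).re) / a) ^ 2 ≤ C * Real.sqrt δ * m

/-- (L5) Gaussian decay on all of `[0, a]` when `θ ≥ 1 - δ`; `l` is arbitrary with the last facts of (L4).

Proof. `v = u/a ∈ [0,1]`, `1 - ul = (1-v) + v(1-al)`, so `|1 - u l_k| ≤ 1 - t_k`, `t_k = v (1 - |1-a l_k|) = u d_k ≤ 1`,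
`d_k = (1-|1-a l_k|)/a`. For real `t ≤ 1`: `max 0 (1-t) ≤ exp(-t - t²/(2(1+|t|)))` (i.e. `log(1-t) ≤ -t - t²/2` for `0 ≤ t < 1` and
`log(1+x) ≤ x - x²/(2(1+x))` for `x ≥ 0`). `∑_k t_k ≥ 0`, so `∑_{k∉S} t_k ≥ -2`. `|d| ≤ |l|`, so for small `k`: `1+|t_k| ≤ 1 + AL ≤ 2(A+1)²`.
`|l - d| ≤ |Im l| + h/a` (`d = Re l - h/a`), so `(∑_{small} d²)^(1/2) ≥ (∑_{small} |l|²)^(1/2) - (C√δ m)^(1/2) ≥ (m/2)^(1/2)` for `δ ≤ δ₀`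
(or `d² ≥ (3/4)|l|² - 3 (|Im l| + h/a)²`), and `∑_{small, ∉S} d² ≥ m/2 - 2L² ≥ m/4` for `m ≥ N`. So
`|f_S(u)| ≤ exp(2 - (u²/(4(A+1)²)) m/4)`, `e² ≤ 8`. -/
def S_L5 : Prop :=
  ∀ A a₁ C : ℝ, 0 < a₁ → a₁ ≤ A → 1 ≤ A → 1 ≤ C → ∃ δ₀ : ℝ, 0 < δ₀ ∧ ∃ N : ℕ, ∀ (m : ℕ) (l : Fin m → ℂ)
    (a δ : ℝ), N ≤ m → a₁ ≤ a → a ≤ A → 0 < δ → δ ≤ δ₀ → ∑ k, ‖1 - (a : ℂ) * l k‖ ≤ m →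
    (1 - 10 * δ) * m ≤ ∑ k ∈ Finset.univ.filter (fun k => ¬ 2 * (A + 1) < ‖l k‖), ‖l k‖ ^ 2 →
    ∑ k ∈ Finset.univ.filter (fun k => ¬ 2 * (A + 1) < ‖l k‖),
      (|(l k).im| + (‖1 - (a : ℂ) * l k‖ - (1 - (a : ℂ) * l k).re) / a) ^ 2 ≤ C * Real.sqrt δ * m →
    ∀ S : Finset (Fin m), S.card ≤ 2 → ∀ u : ℝ, 0 ≤ u → u ≤ a →
      ‖fS l S u‖ ≤ 8 * Real.exp (-(1 / (16 * (A + 1) ^ 2) * (m * u ^ 2)))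

end Pool.Agent.H798.BV
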