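import Pool.Agent.H798.BV.Stm

set_option autoImplicit false

/-!
# `∑ 1/|a - w_k|² ≥ (n-1)/σ_p²` for every `p > 2` in all large degrees: the independent pieces

`m` = number of critical points, `n = m + 1`, `z 0 = a ≥ 0`, `w k` the critical points, `l k = (a - w k)⁻¹`.
Normalisation: `∑ |z_j|^p = n`, `0` is the `p`-centre (so `∑ χ_p(z_j) = 0`), and (for a contradiction)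
`∑ |l_k|² < m`.  Here `2 < p ≤ 3`, `κ = p(p-1)/2 ≤ 3`.
-/

open Polynomial MeasureTheory

namespace Pool.Agent.H798.BV

/-- (B1P) Upper bound of the Bregman distance of `|z|^p` for `2 ≤ p ≤ 3`.

Proof. `f(t) = |z - t c|^p`, `f'(0) = -p Re(conj χ(z) c)`, `f'' ≤ p(p-1)|z - tc|^(p-2)|c|²` and
`|z - tc|^(p-2) ≤ |z|^(p-2) + |c|^(p-2)`. (Or: `|z-c|² = |z|² (1 + x)` and `(1+x)^(p/2) ≤ 1 + (p/2) x + …`.) -/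
def S_B1P : Prop :=
  ∀ p : ℝ, 2 ≤ p → p ≤ 3 → ∀ z c : ℂ,
    ‖z - c‖ ^ p ≤ ‖z‖ ^ p - p * ((starRingEnd ℂ) (chi p z) * c).re
      + p * (p - 1) / 2 * (‖z‖ ^ (p - 2) * ‖c‖ ^ 2 + ‖c‖ ^ p)

/-- (B2P) convexity of `|z|^p`; same proof as `t_B2` in `Pool/Agent/H798/BV/Elem.lean` (helper798 does it). -/
def S_B2P : Prop :=
  ∀ p : ℝ, 1 < p → ∀ z w : ℂ,
    ‖w‖ ^ p + p * ((starRingEnd ℂ) (chi p w) * (z - w)).re ≤ ‖z‖ ^ p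

/-- (G0P) (G0) for `1 < p ≤ 3`: the same proof (`Pool/Agent/H686/BV/G0.lean`);
`|R^α - R^β| ≤ |R - 1|` for `α, β ∈ [0,1]`, and `4 p ≤ 12`. -/
def S_G0P : Prop :=
  ∀ p : ℝ, 1 < p → p ≤ 3 → ∀ (n : ℕ), 1 ≤ n → ∀ z : Fin n → ℂ,
    ∑ j, ‖z j‖ ^ p = n → ∑ j, chi p (z j) = 0 →
    ‖∏ j, z j‖ ≤ Real.exp (-(n * ‖(∑ j, z j) / n‖ ^ 2 / 12))

/-- (LOGTP) assume (B1P).

Proof. Sum (B1P) with `c = a ≤ 1`, `∑ |z_j|^(p-2) ≤ n`: `∑_j |z_j - a|^p ≤ n (1 + 6 a²)`. AM-GM: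
`(m+1)^p ≤ ∏_{j≥1} |z_j - a|^p ≤ ((m+1)(1 + 6a²)/m)^m`, so `p log(m+1) ≤ 1 + 6 m a²`. -/
def S_LOGTP : Prop :=
  ∀ p : ℝ, 2 ≤ p → p ≤ 3 → ∃ K : ℝ, 0 < K ∧ ∀ (m : ℕ), 1 ≤ m → ∀ (z : Fin (m + 1) → ℂ) (a : ℝ),
    z 0 = a → 0 ≤ a → a ≤ 1 → ∑ j, ‖z j‖ ^ p = m + 1 → ∑ j, chi p (z j) = 0 →
    (m : ℝ) + 1 ≤ ‖∏ j : Fin m, ((a : ℂ) - z j.succ)‖ →
    Real.log (m + 1) ≤ K * (1 + m * a ^ 2)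

/-- (THP) `θ = mean |w_k| |l_k|` stays away from `1`; assume (B2P). Compare (TH),
`Pool/Agent/H878/BV/Th.lean`.

Proof. `ρ = |w|`, `ℓ = |a - w|⁻¹`, `N = (1/2 - 1/p) + ρ^p/p + ℓ²/2 - ρ ℓ ≥ 0` (weighted AM-GM), `= 0` only
if `ρ = ℓ = 1`, and `N ≥ c ρ^p - C`, `N ≥ c ℓ² - C`. `mean ρ^p ≤ 1` (`c = 0`) and `mean ℓ² ≤ 1` give
`mean N ≤ 1 - θ` and `mean ρ^p ≥ 1 - p(1 - θ)`.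
If `a ≥ 4`: `ρ ≥ 2` or `ℓ ≤ 1/2`, so `N ≥ c` pointwise and `θ ≤ 1 - c`.
If `a₀ ≤ a ≤ 4`: `Re w = (a² + ρ² - ℓ⁻²)/(2a)`; there is `K = K(p, a₀)` with `ρ^(p-2) Re w ≥ a/4 - K N`
(if `N` is small then `ρ, ℓ` are near `1` and `Re w ≥ 3a/8`; otherwise `|ρ^(p-2) Re w| ≤ 1 + ρ^p ≤ K' N`).
Take `c = -t`, `0 < t ≤ 1`: by (B2P) `m(1 + 3(t² + t^p)) ≥ ∑ |w + t|^p ≥ ∑ (|w|^p + p t |w|^(p-2) Re w)`, so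
`6 t² ≥ - p(1-θ) + p t (a/4 - K(1-θ))`; if `K(1-θ) ≤ a₀/8`, `t = min(1, p a₀/96)` gives `1 - θ ≥ t a₀/16`. -/
def S_THP : Prop :=
  ∀ p : ℝ, 2 < p → p ≤ 3 → ∀ a₀ : ℝ, 0 < a₀ → ∃ δ : ℝ, 0 < δ ∧ ∀ a : ℝ, a₀ ≤ a →
    ∀ (m : ℕ) (w : Fin m → ℂ), (∀ k, w k ≠ a) → ∑ k, ‖((a : ℂ) - w k)⁻¹‖ ^ 2 ≤ m →
      (∀ c : ℂ, ∑ k, ‖w k - c‖ ^ p ≤ m * (1 + 3 * (‖c‖ ^ 2 + ‖c‖ ^ p))) →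
      ∑ k, ‖w k‖ * ‖((a : ℂ) - w k)⁻¹‖ ≤ (1 - δ) * m

/-- (C1P) End of the proof for `a ≤ A` bounded away from `0`. Compare (C1A), `Pool/Agent/H738/BV/C1a.lean`
and `Pool/Agent/H399/BV/C1.lean`.

Proof. `U = mean |l|² < 1`, `V = U - |s|²`, `s = mean l`, `x = 1 - |s| > 0`, `0 ≤ V ≤ 1 - |s|² ≤ 2x`,
`g = mean w`, `|g| ≤ 1`. `1 - a l_k = - w_k l_k`, `1 - a s = - mean((w-g)(l-s)) - g s`, so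
`|1 - a s|² ≤ 2 V + 2|g|²`; `G = mean |1 - a l|² = |1 - as|² + a² V ≤ (2 + A²) V + 2|g|²`;
`θ = mean |w l| ≤ 1 - δ`, `θ ≤ √G`, so `|1 - as| |∏(1 - a l_k)| ≤ √G θ^m ≤ (1-δ)^(m-1) G`. The right side of
the last hypothesis is `≤ η V`, `η → 0`. `|J| ≤ exp(-(m+1)|g|²/12) ≤ 1 - |g|²/2` for `m ≥ 11`. So
`(1-x)(1-|g|²/2) ≥ |s J| ≥ 1 - ε(V + |g|²) - ηV` while the left side is `≤ 1 - x/2 - |g|²/2`. -/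
def S_C1P : Prop :=
  ∀ A : ℝ, 0 < A → ∀ δ : ℝ, 0 < δ → ∃ M : ℕ, ∀ m : ℕ, M ≤ m → ∀ (a : ℝ), 0 < a → a ≤ A →
    ∀ w : Fin m → ℂ, (∀ k, w k ≠ a) →
    ∑ k, ‖((a : ℂ) - w k)⁻¹‖ ^ 2 < m → ∑ k, ‖w k‖ ^ 2 ≤ m →
    ∑ k, ‖w k‖ * ‖((a : ℂ) - w k)⁻¹‖ ≤ (1 - δ) * m →
    ∀ J : ℂ, ‖J‖ ≤ Real.exp (-((m + 1) * ‖(∑ k, w k) / m‖ ^ 2 / 12)) →
    ‖(∑ k, ((a : ℂ) - w k)⁻¹) / m * J - 1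
        + (1 - a * ((∑ k, ((a : ℂ) - w k)⁻¹) / m)) * ∏ k, (1 - (a : ℂ) * ((a : ℂ) - w k)⁻¹)‖ ≤
      ((∑ k, ‖((a : ℂ) - w k)⁻¹‖ ^ 2) / m - ‖(∑ k, ((a : ℂ) - w k)⁻¹) / m‖ ^ 2) * a ^ 2
        * (m - 2) ^ 2 / ((m * δ - 2) ^ 2 * (m - 1)) → False

/-- (C2P) End of the proof for `a ≥ 4`. Compare `Pool/Agent/H650/BV/C2.lean`.

Proof. `|a s| ≤ 1 + |1 - as| ≤ 1 + θ ≤ 2`, so `|s| ≤ 1/2`. `|1 - as||∏| ≤ θ^(m+1) ≤ (1-δ)^m`.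
`V ≤ mean |l|² ≤ 1` and `a² ≤ (m+1)^(2/p)`, `2/p < 1`, so the right side of the last hypothesis is at most
`4 (m+1)^(2/p)/(δ² (m-1)) → 0` for large `m`. So `1/2 ≥ |s J| ≥ 1 - o(1)`, a contradiction. -/
def S_C2P : Prop :=
  ∀ p : ℝ, 2 < p → p ≤ 3 → ∀ δ : ℝ, 0 < δ → ∃ M : ℕ, ∀ m : ℕ, M ≤ m → ∀ (a : ℝ), 4 ≤ a →
    a ^ p ≤ m + 1 → ∀ w : Fin m → ℂ, (∀ k, w k ≠ a) → ∑ k, ‖((a : ℂ) - w k)⁻¹‖ ^ 2 ≤ m →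
    ∑ k, ‖w k‖ * ‖((a : ℂ) - w k)⁻¹‖ ≤ (1 - δ) * m →
    ∀ J : ℂ, ‖J‖ ≤ 1 →
    ‖(∑ k, ((a : ℂ) - w k)⁻¹) / m * J - 1
        + (1 - a * ((∑ k, ((a : ℂ) - w k)⁻¹) / m)) * ∏ k, (1 - (a : ℂ) * ((a : ℂ) - w k)⁻¹)‖ ≤
      ((∑ k, ‖((a : ℂ) - w k)⁻¹‖ ^ 2) / m - ‖(∑ k, ((a : ℂ) - w k)⁻¹) / m‖ ^ 2) * a ^ 2
        * (m - 2) ^ 2 / ((m * δ - 2) ^ 2 * (m - 1)) → False

/-- (BDP) Bregman domination for `2 < p ≤ 3`. Compare `Pool/Agent/H807/BV/Bd.lean` (`breg`).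

Proof. `v = z - w`, `W = w - a`, `|W| ≥ 1/2`, `|w| ≥ |W|/2`. The right hand side is
`≥ c |v|² (|W| + |v|)^(p-2)` (homogeneity: `|W| = 1`, `x = |z-a|`: it equals
`(x^p - 1 - p(x-1)) + (p/2)(|v|² - (x-1)²)`). The Taylor remainder of `χ_p` with
`L v = |w|^(p-2) v + (p-2)|w|^(p-4) Re(conj w v) w` is `≤ C |v|² |w|^(p-3)` for `|v| ≤ |w|/2`
and `≤ C |v|^(p-1)` for `|v| > |w|/2`; both are `≤ C' |v|² (|W| + |v|)^(p-2)` because `|W| ≥ 1/2`. -/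
def S_BDP : Prop :=
  ∀ p : ℝ, 2 < p → p ≤ 3 → ∃ K : ℝ, 0 < K ∧ ∀ a : ℝ, 0 ≤ a → a ≤ 1 / 4 → ∀ w : ℂ,
    1 / 2 ≤ ‖w - a‖ → ∃ α β : ℂ, ∀ z : ℂ,
      ‖chi p z - chi p w - (α * (z - w) + β * (starRingEnd ℂ) (z - w))‖ ≤
        K * (‖z - a‖ ^ p - ‖w - a‖ ^ p - p * ((starRingEnd ℂ) (chi p (w - a)) * (z - w)).re)

/-- (XPP) First order expansion of `χ_p(a - x)`.

Proof. `Dχ_p(x)[a] = a |x|^(p-2) (p/2 + ((p-2)/2) x²/|x|²)`. If `|x| ≤ 2a` every term is `≤ C a^(p-1)`.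
If `|x| > 2a` the second derivative is `≤ C |x|^(p-3)` on the segment from `x` to `x - a`, so the
remainder is `≤ C a² |x|^(p-3) ≤ C' a^(p-1)`. -/
def S_XPP : Prop :=
  ∀ p : ℝ, 2 < p → p ≤ 3 → ∃ K : ℝ, 0 < K ∧ ∀ a : ℝ, 0 ≤ a → a ≤ 1 → ∀ x : ℂ, x ≠ 0 →
    ‖chi p ((a : ℂ) - x) + chi p x
        - (a : ℂ) * (‖x‖ ^ (p - 2) : ℝ) * ((p / 2 : ℝ) + ((p - 2) / 2 : ℝ) * (x / ‖x‖) ^ 2)‖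
      ≤ K * a ^ (p - 1)

/-- (PTW) Pointwise inequalities for `Θ(r) = (r^p - 1) + (p/2)(r⁻² - 1)`.

Proof. `Θ(1) = Θ'(1) = 0`, `Θ''(1) = p(p+2)`, `Θ > 0` for `r ≠ 1` (`Θ' = p(r^(p-1) - r⁻³)`). Near `1` all the
functions `r^(p-2) - 1`, `r⁻² - 1`, `r^(p-1) - r⁻¹` are `O(|r-1|)`, the last one `= p (r-1) + O((r-1)²)`,
so its square is at most `(2p/(p+2) + η) Θ` for `|r - 1| ≤ ν(η)`. For `|r - 1| ≥ ν` all of them are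
`≤ K_ν Θ`, because `Θ ≥ c_ν (1 + r^p + r⁻²)` there. -/
def S_PTW : Prop :=
  ∀ p : ℝ, 2 < p → p ≤ 3 → ∀ η : ℝ, 0 < η → ∃ K : ℝ, 0 < K ∧ ∀ r Θ : ℝ, 0 < r →
    Θ = (r ^ p - 1) + p / 2 * ((r ^ 2)⁻¹ - 1) →
    0 ≤ Θ ∧ |r ^ (p - 2) - 1| ≤ K * (Θ + Real.sqrt Θ) ∧ |(r ^ 2)⁻¹ - 1| ≤ K * (Θ + Real.sqrt Θ) ∧
    (r < 1 / 2 → (r ^ 2)⁻¹ ≤ K * Θ) ∧
    |r ^ (p - 1) - r⁻¹| ≤ Real.sqrt ((2 * p / (p + 2) + η) * Θ) + K * Θ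

/-- (AVP) `∑ χ_p(w_k) = O(m a²)`; assume (PM), (B1P), (B2P), (BDP), (PTW). Compare
`Pool/Agent/H376/BV/Avg.lean`.

Proof. `S` as in (PM), `r_k = |w_k - a|`, `b_k = ∑_j S k j |z_j - a|^p - r_k^p ≥ 0` (B2P). By (B1P) and
`∑ |z_j|^(p-2) ≤ m+1`, `∑_k b_k ≤ m(1 + κ(a² + a^p)) - ∑ r_k^p ≤ 2κ m a²`, because `Θ ≥ 0` and
`∑ r_k⁻² ≤ m` give `∑ r_k^p ≥ m`; in the same way `∑ Θ(r_k) ≤ 2κ m a²`.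
For `r_k ≥ 1/2` (BDP) gives `|∑_j S k j χ(z_j) - χ(w_k)| ≤ K b_k`. The number of `k` with `r_k < 1/2` is
`≤ K m a²` (`Θ ≥ c` there), and for these `|∑_j S k j χ(z_j) - χ(w_k)| ≤ K (1 + ∑_j S k j |z_j - a|^p) ≤
K'(1 + b_k)`. Sum; `∑_k ∑_j S k j χ(z_j) = (m/(m+1)) ∑_j χ(z_j) = 0`. -/
def S_AVP : Prop :=
  ∀ p : ℝ, 2 < p → p ≤ 3 → ∃ K : ℝ, 0 < K ∧ ∀ (m : ℕ), 1 ≤ m → ∀ (z : Fin (m + 1) → ℂ)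
    (w : Fin m → ℂ) (a : ℝ), Crit m z w → 0 ≤ a → a ≤ 1 / 4 → ∑ j, ‖z j‖ ^ p = m + 1 →
    ∑ j, chi p (z j) = 0 → (∀ k, w k ≠ a) → ∑ k, ‖((a : ℂ) - w k)⁻¹‖ ^ 2 ≤ m →
    ‖∑ k, chi p (w k)‖ ≤ K * (m * a ^ 2)

/-- (REAL) The lower bound of the exponent; assume (PTW).

Proof. `r = |x|`, `e = x/|x|`, means over `k`. `mean Θ ≤ κ(a² + a^p)` (`Θ` of (PTW)), which gives the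
third claim and `mean |r⁻² - 1|, mean |r^(p-2) - 1| ≤ K a`. `u = (mean (Re e)²)^(1/2) ∈ [0,1]`,
`Re mean e² = 2u² - 1`, `Re mean x⁻² = 2u² - 1 + O(a)`. Put `H = mean (r^(p-1) - r⁻¹) e`. Then
`|Re H| ≤ mean |r^(p-1) - r⁻¹||Re e| ≤ ((2p/(p+2) + η) mean Θ)^(1/2) u + K mean Θ` and
`Re mean x⁻¹ = Re mean (e/r) = Re mean χ_p(x) - Re H
 = a (p/2 + ((p-2)/2)(2u²-1)) - Re H + O(a² + a^(p-1)) ≥ a (1 + (p-2)u² - c u) - o(a)` with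
`c² = (2p/(p+2) + η) κ`, near `c_p² = p²(p-1)/(p+2)`. So `τ Re mean x⁻¹ + aτ² Re mean x⁻²/2 ≥
aτ (1 + (p-2)u² - cu + τ(u² - 1/2)) - o(a) τ`. The bracket is affine in `τ`; at `τ = 1` it is
`1/2 + (p-1)u² - cu ≥ 1/2 - c²/(4(p-1))`, positive since `c_p²/(4(p-1)) = p²/(4(p+2)) < 1/2` for `p ≤ 3`;
at `τ = 0` it is `1 + (p-2)u² - cu`: if `c ≥ 2(p-2)` this is `≥ p - 1 - c`, positive since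
`c_p < p - 1` iff `p² < (p-1)(p+2)` iff `p > 2`; if `c < 2(p-2)` it is `≥ 1 - c²/(4(p-2)) > 1 - (p-2) ≥ 0`
(choose `η` first, then `μ`, then `a₀`). First claim: `|mean x⁻¹| ≤ |mean χ_p(x)| + mean |r^(p-1) - r⁻¹|`. -/
def S_REAL : Prop :=
  ∀ p : ℝ, 2 < p → p ≤ 3 → ∀ K₀ : ℝ, 0 < K₀ → ∃ a₀ μ K : ℝ, 0 < a₀ ∧ 0 < μ ∧ 0 < K ∧
    ∀ (m : ℕ), 1 ≤ m → ∀ (a : ℝ) (x : Fin m → ℂ), 0 ≤ a → a ≤ a₀ → (∀ k, x k ≠ 0) →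
    ∑ k, ‖x k‖ ^ p ≤ m * (1 + p * (p - 1) / 2 * (a ^ 2 + a ^ p)) →
    ∑ k, ‖(x k)⁻¹‖ ^ 2 ≤ m →
    ‖∑ k, (chi p (x k) - (a : ℂ) * (‖x k‖ ^ (p - 2) : ℝ)
        * ((p / 2 : ℝ) + ((p - 2) / 2 : ℝ) * (x k / ‖x k‖) ^ 2))‖ ≤
          K₀ * (m * (a ^ 2 + a ^ (p - 1))) →
    ‖(∑ k, (x k)⁻¹) / m‖ ≤ K * a ∧
    (∀ τ : ℝ, 0 ≤ τ → τ ≤ 1 →
      μ * a * τ ≤ τ * ((∑ k, (x k)⁻¹) / m).re + a * τ ^ 2 * ((∑ k, ((x k)⁻¹) ^ 2) / m).re / 2) ∧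
    ∑ k, (if 2 < ‖(x k)⁻¹‖ then ‖(x k)⁻¹‖ ^ 2 else 0) ≤ K * (a ^ 2 * m)

/-- (INTP) The integral is large when `a` is small and `m a²` is large, the `l_k` not bounded by `1`.
Compare `Pool/Agent/H337/BV/Int.lean`, `Pool/Agent/H264/BV/Int1.lean`.

Proof. `P(u) = ∏ (1 - u l_k)`, `L = mean l`, `q = mean l²`. For all `ζ`:
`log|1 - ζ| ≤ - Re ζ - Re(ζ²)/2 + 9 min(|ζ|², |ζ|³)`. With `ζ = u l_k`, `0 ≤ u ≤ a`, the error terms sum to at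
most `9 m (2u³ + K u² a²) ≤ 9 (2 + K) m u a²`, so for `a ≤ a₀`: `|P(u)| ≤ exp(-m μ a u/2)` (hypothesis with
`τ = u/a`). Let `u₁ = K₁/(m a)`, `K₁` large: `∫_{u₁}^a |P| ≤ (2/(mμa)) exp(-μK₁/2)`. For `u ≤ u₁` all
`|u l_k| ≤ 1/2` (as `|l_k|² ≤ 4 + K a² m`) and `|log P(u) + m u L| ≤ 2 m u² ≤ 2 K₁²/(m a²)`, small if
`T₀` is large. `∫₀^{u₁} e^{-muL} du = (1 - e^{-m u₁ L})/(m L)` has norm `≥ (1 - e^{-μK₁})/(m K a)`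
(`Re L ≥ μ a`, from small `τ`). Hence `|∫₀^a P| ≥ 1/(2 K m a)` and `(m+1)/(2Kma) > 1` for small `a`. -/
def S_INTP : Prop :=
  ∀ μ K : ℝ, 0 < μ → 0 < K → ∃ a₀ T₀ : ℝ, 0 < a₀ ∧ ∀ (m : ℕ) (a : ℝ), 0 < a → a ≤ a₀ →
    T₀ ≤ m * a ^ 2 → ∀ l : Fin m → ℂ, ∑ k, ‖l k‖ ^ 2 ≤ m → ‖(∑ k, l k) / m‖ ≤ K * a →
    (∀ τ : ℝ, 0 ≤ τ → τ ≤ 1 →
      μ * a * τ ≤ τ * ((∑ k, l k) / m).re + a * τ ^ 2 * ((∑ k, (l k) ^ 2) / m).re / 2) →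
    ∑ k, (if 2 < ‖l k‖ then ‖l k‖ ^ 2 else 0) ≤ K * (a ^ 2 * m) →
    1 < ‖((m : ℂ) + 1) * ∫ u in (0:ℝ)..a, ∏ k, (1 - (u : ℂ) * l k)‖

end Pool.Agent.H798.BV
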