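import Mathlib
import Pool.Agent.H798.BV.Stm
import Pool.Agent.H798.BV.Stm4
import Pool.Agent.H798.BV.Stm5

set_option autoImplicit false

/-!
# MP_172a45_an: the exact inequality in large degree, small `a` (so that `|a| ≤ r < 1` becomes uniform)

`L = 4` everywhere (`r = 1/2`): `β = bB 4 l`, `s' = sR 4 l`, `Y = yR 4 l`.
-/

namespace Pool.Agent.H798.BV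

/-- (EPI) Improved end point bound, from (PM) and (F0U): exponent linear in `∑ (‖l‖ - ‖1 - a l‖) = ∑ (1 - ‖w‖)‖l‖`.

Proof. `b = a - ρω`, `‖a - b‖ = ρ ≤ (1-r)/8`. If some `b = z_j` the left side is `0` by (F0U). Column sums:
`∑_j log‖b-z_j‖ = ∑_k ∑_j S_kj log‖b-z_j‖ + (1/(m+1)) ∑_j log‖b-z_j‖`, the last term is `≤ log 3` (`‖b-z_j‖ ≤ 3`).
For all complex `y`: `log‖1-y‖ ≤ -Re y + ‖y‖²/2` (`log(1+t) ≤ t` for `t = -2 Re y + ‖y‖²`). If `‖l_k‖ ≤ 2/(1-r)` then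
`‖a-w_k‖ ≥ (1-r)/2`, `‖b-w_k‖ ≥ 3(1-r)/8`, and with `y = (z_j-w_k)/(b-w_k)` (`∑_j S_kj (z_j-w_k) = 0`):
`∑_j S_kj log‖b-z_j‖ ≤ log‖b-w_k‖ + ∑_j S_kj ‖z_j-w_k‖²/(2‖b-w_k‖²) ≤ log‖b-w_k‖ + (1-‖w_k‖²)·32/(9(1-r)²)`
`≤ log‖b-w_k‖ + (128/9)(1-‖w_k‖)‖l_k‖/(1-r)²` (`‖l_k‖ ≥ 1/2`). For the other `k`: `∑_j S_kj log‖b-z_j‖ ≤ log 3 ≤ 11/10`, and
`11/10 + log‖l_k‖ ≤ (11/10)‖l_k‖ ≤ (11/5)(1-‖w_k‖)‖l_k‖/(1-r)` since `‖l_k‖ > 2`, `1-‖w_k‖ ≥ (1-r)/2`.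
(F0U): the integral is `(m+1)⁻¹ ∏_j‖b-z_j‖ ∏_k‖l_k‖`, and `‖b-w_k‖‖l_k‖ = ‖1 - ρω l_k‖`; `‖1-a l_k‖ = ‖w_k‖‖l_k‖`. -/
def S_EPI : Prop :=
  ∀ (m : ℕ) (z : Fin (m + 1) → ℂ) (w : Fin m → ℂ) (a r : ℝ), 1 ≤ m → Crit m z w → z 0 = a →
    0 ≤ a → a ≤ r → r < 1 → (∀ j, ‖z j‖ ≤ 1) → (∀ k, w k ≠ a) → (∀ k, ‖w k‖ ≤ 1) →
    ∀ (ω : ℂ) (ρ : ℝ), ‖ω‖ = 1 → 0 < ρ → ρ ≤ (1 - r) / 8 →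
    ‖∫ τ in (0:ℝ)..ρ, ∏ k, (1 - (τ : ℂ) * (ω * ((a : ℂ) - w k)⁻¹))‖ ≤
      3 / (m + 1) * Real.exp (18 / (1 - r) ^ 2 *
          ∑ k, (‖((a : ℂ) - w k)⁻¹‖ - ‖1 - (a : ℂ) * ((a : ℂ) - w k)⁻¹‖)) *
        ∏ k ∈ Finset.univ.filter (fun k => ¬ 2 / (1 - r) < ‖((a : ℂ) - w k)⁻¹‖),
          ‖1 - (ρ : ℂ) * (ω * ((a : ℂ) - w k)⁻¹)‖

/-- standing hypotheses for small `a` -/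
structure SmallH (m : ℕ) (l : Fin m → ℂ) (a : ℝ) : Prop where
  pos : 0 < a
  half : a ≤ 1 / 2
  disc : ∀ k, ‖1 - (a : ℂ) * l k‖ ≤ ‖l k‖
  low : ∀ k, 1 / 2 ≤ ‖l k‖
  mean : ∑ k, ‖l k‖ ≤ m
  ep : ∀ (ω : ℂ) (ρ : ℝ), ‖ω‖ = 1 → 0 < ρ → ρ ≤ 1 / 16 →
    ‖∫ τ in (0:ℝ)..ρ, ∏ k, (1 - (τ : ℂ) * (ω * l k))‖ ≤
      3 / (m + 1) * Real.exp (72 * ∑ k, (‖l k‖ - ‖1 - (a : ℂ) * l k‖)) *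
        ∏ k ∈ Finset.univ.filter (fun k => ¬ 4 < ‖l k‖), ‖1 - (ρ : ℂ) * (ω * l k)‖

/-- (SB) Basic bounds.

Proof. `q_k = ‖l_k‖ + a Re l_k - 1 ≥ ‖l_k‖ - ‖1 - a l_k‖ ≥ 0` (`Re(1-al) ≤ ‖1-al‖ ≤ ‖l‖`), `∑ q_k = ∑‖l‖ - m + a Re ∑ l ≤ a Re ∑ l`.
First: `a Re s' = (1/m) ∑_{small} (1-‖l‖+q) ≥ (m-|B|)/m - (1-β) ≥ β - β/4` (`4|B| ≤ mβ`). Second: `a Re ∑ l ≤ a m (‖s'‖ + β)`, `β ≤ ‖s'‖`.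
Third: `q ≥ a² y²/(2‖l‖) ≥ a² y²/8` for small `l = x + iy` (if `1-ax ≥ 0`: `q = (‖l‖²-(1-ax)²)/(‖l‖+1-ax)`, `‖l‖² ≥ (1-ax)²+a²y²`,
`|1-ax| ≤ ‖l‖`; otherwise `q ≥ ‖l‖`), `∑ q ≤ a m (Re s' + β) ≤ (5/3) a m Re s'`, and `2∑_{small} y² = ∑_{small} ‖l‖² - Re ∑_{small} l² ≥
(m-|B|)/4 - m ‖Y‖`, `|B| ≤ mβ/4 ≤ m a Re s'/3`. So `(a²/16)(m(1-aRe s'/3)/4 - m‖Y‖) ≤ (5/3) a m Re s'`. -/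
def S_SB : Prop :=
  ∀ (m : ℕ) (l : Fin m → ℂ) (a : ℝ), 1 ≤ m → SmallH m l a →
    bB 4 l ≤ 4 / 3 * a * (sR 4 l).re ∧
    ∑ k, (‖l k‖ - ‖1 - (a : ℂ) * l k‖) ≤ 2 * a * m * ‖sR 4 l‖ ∧
    (‖yR 4 l‖ ≤ 1 / 320 → a / 160 ≤ (sR 4 l).re)

/-- (S1) from (SB), (PT), (LB).

Proof. `κ = 1/2`, `L = 4`, `ω = conj s'/‖s'‖`, `l̃ = ω l` (so `sR 4 l̃ = ‖s'‖`), `ρ = ‖s'‖/64` (`≤ 1/64` as `‖s'‖ ≤ 1`), `β ≤ (4/3) a ‖s'‖ ≤ ‖s'‖/2` (`a ≤ 1/C`). (PT) first case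
for `τ ≤ ρ` (`4ρ = ‖s'‖/16 ≤ ‖s'‖/4`), (LB) with `ν = ‖s'‖/4`: `m|∫| ≥ (1/‖s'‖)(1/2 - 512/K² - 4 e^{-K²/256}) ≥ 1/(4‖s'‖) ≥ 1/4`.
`ep` and (SB): `m|∫| ≤ 3 exp(144 a m ‖s'‖ - mρ‖s'‖/2) = 3 exp(m‖s'‖(144 a - ‖s'‖/128)) ≤ 3 exp(-m‖s'‖²/256) ≤ 3 e^{-K²/256}` if
`C = 36864`. Contradiction for large `K`. -/
def S_S1 : Prop :=
  ∃ C K : ℝ, 1 ≤ C ∧ 1 ≤ K ∧ ∀ (m : ℕ) (l : Fin m → ℂ) (a : ℝ), 1 ≤ m → SmallH m l a →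
    C * a ≤ ‖sR 4 l‖ → K ≤ Real.sqrt m * ‖sR 4 l‖ → False

/-- (S3) from (SB), (TR).

Proof. `ρ = c/√m`, `c` small with `cC + 4c² ≤ 1/8`, `ω = 1`. For `0 ≤ τ ≤ ρ`, (TR): `∏_{small}(1-τl) = e^ζ`, `|ζ| ≤ mτ‖s'‖ + 4mτ² ≤ 1/8`;
`|∏_B (1-τl) - 1| ≤ exp(τmβ) - 1`, `τ m β ≤ (4/3) c √m a ‖s'‖ ≤ (4/3) c C √M/√m ≤ 1/8` for large `m` (`a ≤ √(M/m)`). So `|∏ - 1| ≤ 1/2`, `|∫| ≥ ρ/2`.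
`ep`, (SB): `|∫| ≤ (3/(m+1)) exp(144 a m ‖s'‖ + 1/8) ≤ (3/(m+1)) exp(144 C √M + 1/8)`. Contradiction for large `m`. -/
def S_S3 : Prop :=
  ∀ M C : ℝ, 0 < M → 0 < C → ∃ N : ℕ, ∀ (m : ℕ) (l : Fin m → ℂ) (a : ℝ), N ≤ m → 1 ≤ m → SmallH m l a →
    m * a ^ 2 ≤ M → Real.sqrt m * ‖sR 4 l‖ ≤ C → False

/-- (S4) from (SB), (TR), (LB).

Proof. `y = 1/640`. Choose `ω`, `‖ω‖ = 1`, with `Re(ω s') ≥ ‖s'‖/2` and `Re(ω² Y) ≥ ‖Y‖/2 ≥ y`: let `τ₀ = -arg(Y)/2` or `-arg(Y)/2 + π` with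
`|τ₀ + arg s'| ≤ π/2` mod `2π`; if `≤ π/3` take `ω = e^{iτ₀}`, otherwise turn by `π/6` towards `-arg s'`. `l̃ = ωl`, `ρ = y/32`.
(TR) for `τ ≤ ρ` (`4ρ ≤ 1/4`): `∏_{small}(1-τl̃) = e^{-mτs̃} e^ζ`, `|ζ| ≤ 2mτ² + 8mτ³ ≤ 4mτ²`, `Re ζ ≤ -mτ²y/2 + 8mτ³ ≤ -mτ²y/4`; hence the hypothesis of (LB)
(`|e^ζ-1| ≤ |ζ|`; `κ = 1/2`, `β ≤ (4/3)a‖s'‖ ≤ ‖s'‖/4 ≤ κ Re s̃` for `a ≤ 3/16`). `ν = Re s̃/4 ≥ ‖s'‖/8`: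
`m|∫| ≥ (1/‖s'‖)(1/2 - 4096/K² - 8 e^{-√m ρK/8}) ≥ 1/4`. `ep`, (SB): `m|∫| ≤ 3 exp(144 a m - mρ²y/4) ≤ 3 exp(-mρ²y/8)` if `144 a ≤ ρ²y/8`. -/
def S_S4 : Prop :=
  ∃ K r₀ : ℝ, 1 ≤ K ∧ 0 < r₀ ∧ ∃ N : ℕ, ∀ (m : ℕ) (l : Fin m → ℂ) (a : ℝ), N ≤ m → 1 ≤ m → SmallH m l a →
    a ≤ r₀ → K ≤ Real.sqrt m * ‖sR 4 l‖ → 1 / 320 ≤ ‖yR 4 l‖ → False

/-- (S5) from (SB), (TR), (GAI).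

Proof. Choose `ω` with `ω² Y = ‖Y‖` and `Re(ω s') ≥ 0` (one of the two square roots). `l̃ = ωl`, `V = ‖Y‖ ∈ [1/320, 4]`, `x = √m τ`, `σ = √m ω s'`, `|σ| ≤ K`,
`ρ = 1/20480` (so `8ρ ≤ V/8`). By (TR) `∏_{small}(1-τl̃) = e^{-xσ-x²V/2} e^E`, `|E| ≤ 8x³/√m ≤ x²V/8`. `|∏_B(1-τl̃) - 1| ≤ e^{xβ'} - 1 ≤ xβ' e^{xβ'}`,
`β' = √m β ≤ (4/3) a K ≤ 1`. So the difference of the integrand and `e^{-xσ-x²V/2}` is at most `(xβ' e^x + 8x³ e^x/√m) e^{-x²V/4}`, with integral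
`≤ C' (a + 1/√m)`. Model: `|∫_0^∞ e^{-xσ-x²V/2} dx| = V^{-1/2} |gG(σ/√V)| ≥ (1/2) c` by (GAI) with `B = ∅`, `κ = 0` (`|σ/√V| ≤ 18K`); tail from `√mρ`:
`≤ C'' e^{-mρ²/2000}`. So `√m |∫| ≥ c/4` for small `a` and large `m`. `ep`, (SB): `√m|∫| ≤ 3 exp(144 a m K/√m - mρ²V/4)` and this tends to `0`
(`V ≥ 1/320`; `a ≤ 1`). -/
def S_S5 : Prop :=
  ∀ K : ℝ, 1 ≤ K → ∃ r₀ : ℝ, 0 < r₀ ∧ ∃ N : ℕ, ∀ (m : ℕ) (l : Fin m → ℂ) (a : ℝ), N ≤ m → 1 ≤ m →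
    SmallH m l a → a ≤ r₀ → Real.sqrt m * ‖sR 4 l‖ ≤ K → 1 / 320 ≤ ‖yR 4 l‖ → False

/-- (S6) from (SB), (TR).

Proof. `c = 1/160`, `Re s' ≥ ca`. For `0 ≤ u ≤ a` (`4a ≤ 1/4`), (TR): `∏_{small}(1-ul) = e^{-mus'} e^ζ`, `|ζ| ≤ mu²‖Y‖/2 + 8mu³`,
`|ζ| ≤ mu(a/640 + 8a²) ≤ mu ca/2` (`a ≤ c/64`). `|∏_B - 1| ≤ muβ e^{muβ}`, `β ≤ 2Ca²`, `muβ ≤ mu ca/4` (`a ≤ c/(8C)`). So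
`|∏ - e^{-mus'}| ≤ e^{-muca/4} (2Ca²mu + mu²/640 + 8mu³)`. With `v = mu`: `m ∫_0^a |∏ - e^{-mus'}| ≤ 32C/c² + (128/(640 c³ m a²))/a + 12288/(c⁴ m² a⁴)`
`≤ 32C/c² + 1/(8Ca) + 12288/c⁴` for `M` large. `|m ∫_0^a e^{-mus'} du| = |1 - e^{-mas'}|/‖s'‖ ≥ (1 - e^{-cM})/(Ca) ≥ 1/(2Ca)`. So `|J| ≥ 1/(2Ca) - 1/(8Ca) - const ≥ 1/(4Ca) > a`
for small `a`. -/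
def S_S6 : Prop :=
  ∀ C : ℝ, 1 ≤ C → ∃ r₀ M : ℝ, 0 < r₀ ∧ 1 ≤ M ∧ ∀ (m : ℕ) (l : Fin m → ℂ) (a : ℝ), 1 ≤ m →
    SmallH m l a → a ≤ r₀ → M ≤ m * a ^ 2 → ‖sR 4 l‖ ≤ C * a → ‖yR 4 l‖ ≤ 1 / 320 →
    ‖((m : ℂ) + 1) * ∫ u in (0:ℝ)..a, ∏ k, (1 - (u : ℂ) * l k)‖ ≤ a → False

end Pool.Agent.H798.BV
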