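import Pool.Agent.H798.BV.Stm2
import Pool.Agent.H798.BV.Core

set_option autoImplicit false

open Polynomial

namespace Pool.Agent.H798.BV

theorem t_B2P : S_B2P := by
  intro p hp1 z w
  rcases eq_or_ne w 0 with rfl | hw
  · have : chi p 0 = 0 := by simp [chi]
    rw [this, map_zero, zero_mul, Complex.zero_re, norm_zero, Real.zero_rpow (by linarith)]
    have : 0 ≤ ‖z‖ ^ p := by positivity
    linarith
  have hw0 : 0 < ‖w‖ := norm_pos_iff.2 hw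
  rw [chi_mul_re, mul_sub, Complex.sub_re]
  have e1 : ((starRingEnd ℂ) w * w).re = ‖w‖ ^ 2 := by
    rw [Complex.conj_mul', ← Complex.ofReal_pow, Complex.ofReal_re]
  rw [e1]
  have h1 : ‖w‖ ^ (p - 2) * (((starRingEnd ℂ) w * z).re - ‖w‖ ^ 2) ≤
      ‖w‖ ^ (p - 1) * ‖z‖ - ‖w‖ ^ p := by
    rw [mul_sub, rpow_sub_two hw0]
    have : ‖w‖ ^ (p - 2) * ((starRingEnd ℂ) w * z).re ≤ ‖w‖ ^ (p - 1) * ‖z‖ := by
      calc _ ≤ ‖w‖ ^ (p - 2) * (‖w‖ * ‖z‖) :=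
            mul_le_mul_of_nonneg_left (re_conj_mul_le w z) (by positivity)
        _ = _ := by rw [← mul_assoc, rpow_sub_two_mul hw0]
    linarith
  -- tangent line
  have h2 : ‖w‖ ^ p + p * (‖w‖ ^ (p - 1) * ‖z‖ - ‖w‖ ^ p) ≤ ‖z‖ ^ p := by
    set t : ℝ := ‖z‖ / ‖w‖ with ht
    have ht0 : 0 ≤ t := by positivity
    have hz : ‖z‖ = ‖w‖ * t := by rw [ht]; field_simp
    have h3 : 1 + p * (t - 1) ≤ (1 + (t - 1)) ^ p :=
      one_add_mul_self_le_rpow_one_add (by linarith) hp1.le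
    have h4 : ‖w‖ ^ (p - 1) * ‖w‖ = ‖w‖ ^ p := by
      nth_rewrite 2 [← Real.rpow_one ‖w‖]
      rw [← Real.rpow_add hw0]; congr 1; ring
    have h5 : ‖z‖ ^ p = ‖w‖ ^ p * t ^ p := by
      rw [hz, Real.mul_rpow hw0.le ht0]
    have h6 : ‖w‖ ^ (p - 1) * ‖z‖ = ‖w‖ ^ p * t := by rw [hz, ← mul_assoc, h4]
    rw [h5, h6]
    have h7 : (1 + (t - 1)) = t := by ring
    rw [h7] at h3
    have h8 : 0 ≤ ‖w‖ ^ p := by positivity
    nlinarith
  nlinarith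

/-- de Bruijn–Springer for `|· - c|^p` from (PM), all `p > 1` -/
lemma dbsP (hPM : S_PM) {p : ℝ} (hp1 : 1 < p) {m : ℕ} {z : Fin (m + 1) → ℂ}
    {w : Fin m → ℂ} (h : Crit m z w) (c : ℂ) :
    ∑ k, ‖w k - c‖ ^ p ≤ (m : ℝ) / (m + 1) * ∑ j, ‖z j - c‖ ^ p := by
  obtain ⟨S, hS0, hS1, hS2, hS3⟩ := hPM m z w h
  have h1 : ∀ k, ‖w k - c‖ ^ p ≤ ∑ j, S k j * ‖z j - c‖ ^ p := by
    intro k
    have h2 : ∑ j, S k j * (‖w k - c‖ ^ p +
        p * ((starRingEnd ℂ) (chi p (w k - c)) * ((z j - c) - (w k - c))).re) ≤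
        ∑ j, S k j * ‖z j - c‖ ^ p :=
      Finset.sum_le_sum fun j _ => mul_le_mul_of_nonneg_left (t_B2P p hp1 _ _) (hS0 k j)
    have h3 : ∑ j, (S k j : ℂ) * (z j - w k) = 0 := by
      simp_rw [mul_sub]
      rw [Finset.sum_sub_distrib, ← Finset.sum_mul, ← hS3 k, ← Complex.ofReal_sum, hS1 k]
      simp
    have h4 : ∑ j, S k j * (‖w k - c‖ ^ p +
        p * ((starRingEnd ℂ) (chi p (w k - c)) * ((z j - c) - (w k - c))).re) = ‖w k - c‖ ^ p := by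
      have e1 : ∀ j, S k j * (‖w k - c‖ ^ p +
        p * ((starRingEnd ℂ) (chi p (w k - c)) * ((z j - c) - (w k - c))).re) =
        S k j * ‖w k - c‖ ^ p +
        p * ((starRingEnd ℂ) (chi p (w k - c)) * ((S k j : ℂ) * (z j - w k))).re := by
        intro j
        have : (starRingEnd ℂ) (chi p (w k - c)) * ((S k j : ℂ) * (z j - w k)) =
          (S k j : ℂ) * ((starRingEnd ℂ) (chi p (w k - c)) * ((z j - c) - (w k - c))) := by ring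
        rw [this, Complex.re_ofReal_mul]; ring
      rw [Finset.sum_congr rfl fun j _ => e1 j, Finset.sum_add_distrib, ← Finset.sum_mul, hS1 k,
        ← Finset.mul_sum, ← Complex.re_sum, ← Finset.mul_sum, h3]
      simp
    rw [← h4]; exact h2
  calc ∑ k, ‖w k - c‖ ^ p ≤ ∑ k, ∑ j, S k j * ‖z j - c‖ ^ p := Finset.sum_le_sum fun k _ => h1 k
    _ = ∑ j, (∑ k, S k j) * ‖z j - c‖ ^ p := by
        rw [Finset.sum_comm]
        exact Finset.sum_congr rfl fun j _ => (Finset.sum_mul _ _ _).symm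
    _ = _ := by
        rw [Finset.mul_sum]
        exact Finset.sum_congr rfl fun j _ => by rw [hS2 j]

lemma rpow_sub_two_le {p : ℝ} (hp : 2 ≤ p) {r : ℝ} (hr : 0 ≤ r) :
    r ^ (p - 2) ≤ 2 / p + (p - 2) / p * r ^ p := by
  have hp0 : 0 < p := by linarith
  have h := Real.geom_mean_le_arith_mean2_weighted (w₁ := 2 / p) (w₂ := (p - 2) / p) (p₁ := 1)
    (p₂ := r ^ p) (by positivity) (div_nonneg (by linarith) hp0.le) zero_le_one (by positivity)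
    (by field_simp; ring)
  rw [Real.one_rpow, one_mul, ← Real.rpow_mul hr] at h
  have e : p * ((p - 2) / p) = p - 2 := by field_simp
  rw [e] at h
  linarith

lemma sq_le_rpow {p : ℝ} (hp : 2 ≤ p) {r : ℝ} (hr : 0 ≤ r) :
    r ^ 2 ≤ (p - 2) / p + 2 / p * r ^ p := by
  have hp0 : 0 < p := by linarith
  have h := Real.geom_mean_le_arith_mean2_weighted (w₁ := (p - 2) / p) (w₂ := 2 / p) (p₁ := 1)
    (p₂ := r ^ p) (div_nonneg (by linarith) hp0.le) (by positivity) zero_le_one (by positivity)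
    (by field_simp; ring)
  rw [Real.one_rpow, one_mul, ← Real.rpow_mul hr] at h
  have e : p * (2 / p) = ((2 : ℕ) : ℝ) := by push_cast; field_simp
  rw [e, Real.rpow_natCast] at h
  linarith

lemma sum_sub_rpow_le (hB1 : S_B1P) {p : ℝ} (hp2 : 2 ≤ p) (hp3 : p ≤ 3) {n : ℕ} (z : Fin n → ℂ)
    (hsum : ∑ j, ‖z j‖ ^ p = n) (hchi : ∑ j, chi p (z j) = 0) (c : ℂ) :
    ∑ j, ‖z j - c‖ ^ p ≤ n * (1 + p * (p - 1) / 2 * (‖c‖ ^ 2 + ‖c‖ ^ p)) := by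
  have hκ : 0 ≤ p * (p - 1) / 2 := by nlinarith
  have h0 : ∑ j, ‖z j‖ ^ (p - 2) ≤ n := by
    calc ∑ j, ‖z j‖ ^ (p - 2) ≤ ∑ j, (2 / p + (p - 2) / p * ‖z j‖ ^ p) :=
          Finset.sum_le_sum fun j _ => rpow_sub_two_le hp2 (norm_nonneg _)
      _ = n := by
          rw [Finset.sum_add_distrib, ← Finset.mul_sum, hsum, Finset.sum_const, Finset.card_univ,
            Fintype.card_fin, nsmul_eq_mul]
          have hp0 : p ≠ 0 := by linarith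
          field_simp; ring
  calc ∑ j, ‖z j - c‖ ^ p ≤
      ∑ j, (‖z j‖ ^ p - p * ((starRingEnd ℂ) (chi p (z j)) * c).re
        + p * (p - 1) / 2 * (‖z j‖ ^ (p - 2) * ‖c‖ ^ 2 + ‖c‖ ^ p)) :=
        Finset.sum_le_sum fun j _ => hB1 p hp2 hp3 _ _
    _ = n + p * (p - 1) / 2 * ((∑ j, ‖z j‖ ^ (p - 2)) * ‖c‖ ^ 2 + n * ‖c‖ ^ p) := by
        rw [Finset.sum_add_distrib, Finset.sum_sub_distrib, ← Finset.mul_sum, ← Complex.re_sum,
          ← Finset.sum_mul, ← map_sum, hchi, hsum, ← Finset.mul_sum, Finset.sum_add_distrib,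
          Finset.sum_const, Finset.card_univ, Fintype.card_fin, nsmul_eq_mul, ← Finset.sum_mul]
        simp
    _ ≤ n + p * (p - 1) / 2 * (n * ‖c‖ ^ 2 + n * ‖c‖ ^ p) := by gcongr
    _ = _ := by ring

lemma mom (hPM : S_PM) (hB1 : S_B1P) {p : ℝ} (hp2 : 2 ≤ p) (hp3 : p ≤ 3) {m : ℕ}
    {z : Fin (m + 1) → ℂ} {w : Fin m → ℂ} (h : Crit m z w)
    (hsum : ∑ j, ‖z j‖ ^ p = m + 1) (hchi : ∑ j, chi p (z j) = 0) (c : ℂ) :
    ∑ k, ‖w k - c‖ ^ p ≤ m * (1 + p * (p - 1) / 2 * (‖c‖ ^ 2 + ‖c‖ ^ p)) := by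
  refine (dbsP hPM (by linarith) h c).trans ?_
  have h1 := sum_sub_rpow_le hB1 hp2 hp3 z (by rw [hsum]; push_cast; ring) hchi c
  push_cast at h1
  calc (m : ℝ) / (m + 1) * ∑ j, ‖z j - c‖ ^ p ≤
      (m : ℝ) / (m + 1) * ((m + 1) * (1 + p * (p - 1) / 2 * (‖c‖ ^ 2 + ‖c‖ ^ p))) :=
        mul_le_mul_of_nonneg_left h1 (by positivity)
    _ = _ := by field_simp

/-- the centre of the `p`-variance, `2 ≤ p ≤ 3` -/
theorem exists_centreP (hB1 : S_B1P) {p : ℝ} (hp2 : 2 ≤ p) (hp3 : p ≤ 3) {n : ℕ} (z : Fin n → ℂ)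
    (hmin : ∀ c : ℂ, ∑ j, ‖z j‖ ^ p ≤ ∑ j, ‖z j - c‖ ^ p) : ∑ j, chi p (z j) = 0 := by
  set X := ∑ j, chi p (z j) with hX
  by_contra hne
  have hX0 : 0 < ‖X‖ := norm_pos_iff.2 hne
  set A : ℝ := ∑ j, ‖z j‖ ^ (p - 2) with hA
  have hA0 : 0 ≤ A := Finset.sum_nonneg fun j _ => by positivity
  set κ : ℝ := p * (p - 1) / 2 with hκ
  have hκ0 : 0 < κ := by rw [hκ]; nlinarith
  set C0 : ℝ := κ * (A * ‖X‖ ^ 2 + n * ‖X‖ ^ p) + 1 with hC0
  have hC0' : 0 < C0 := by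
    have : 0 ≤ κ * (A * ‖X‖ ^ 2 + n * ‖X‖ ^ p) := by positivity
    linarith
  have key : ∀ t : ℝ, 0 < t → t ≤ 1 → p * ‖X‖ ^ 2 ≤ t * C0 := by
    intro t ht ht1
    have h1 := hmin (t * X)
    have h2 : ∑ j, ‖z j - t * X‖ ^ p ≤
        ∑ j, (‖z j‖ ^ p - p * ((starRingEnd ℂ) (chi p (z j)) * (t * X)).re
          + p * (p - 1) / 2 * (‖z j‖ ^ (p - 2) * ‖(t:ℂ) * X‖ ^ 2 + ‖(t:ℂ) * X‖ ^ p)) :=
      Finset.sum_le_sum fun j _ => hB1 p hp2 hp3 (z j) (t * X)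
    have h3 : ∑ j, ((starRingEnd ℂ) (chi p (z j)) * (t * X)).re = t * ‖X‖ ^ 2 := by
      rw [← Complex.re_sum, ← Finset.sum_mul, ← map_sum, ← hX]
      have : (starRingEnd ℂ) X * (t * X) = (t : ℂ) * ((starRingEnd ℂ) X * X) := by ring
      rw [this, Complex.re_ofReal_mul, Complex.conj_mul', ← Complex.ofReal_pow, Complex.ofReal_re]
    rw [Finset.sum_add_distrib, Finset.sum_sub_distrib, ← Finset.mul_sum, h3, ← Finset.mul_sum,
      Finset.sum_add_distrib, ← Finset.sum_mul, Finset.sum_const,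
      Finset.card_univ, Fintype.card_fin, nsmul_eq_mul, ← hκ, ← hA] at h2
    have h4 : ‖(t:ℂ) * X‖ ^ p ≤ t ^ 2 * ‖X‖ ^ p := by
      rw [norm_mul, Complex.norm_real, Real.norm_of_nonneg ht.le, Real.mul_rpow ht.le hX0.le]
      refine mul_le_mul_of_nonneg_right ?_ (by positivity)
      rw [← Real.rpow_natCast]
      exact Real.rpow_le_rpow_of_exponent_ge ht ht1 (by push_cast; linarith)
    have h5 : ‖(t:ℂ) * X‖ ^ 2 = t ^ 2 * ‖X‖ ^ 2 := by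
      rw [norm_mul, Complex.norm_real, Real.norm_of_nonneg ht.le]; ring
    have h6 : κ * (A * ‖(t:ℂ) * X‖ ^ 2 + n * ‖(t:ℂ) * X‖ ^ p) ≤
        κ * (A * (t ^ 2 * ‖X‖ ^ 2) + n * (t ^ 2 * ‖X‖ ^ p)) := by
      rw [h5]; gcongr
    have h7 : t * (p * ‖X‖ ^ 2) ≤ t * (t * C0) := by
      have e : κ * (A * (t ^ 2 * ‖X‖ ^ 2) + n * (t ^ 2 * ‖X‖ ^ p)) = t ^ 2 * (C0 - 1) := by
        rw [hC0]; ring
      nlinarith [sq_nonneg t]
    exact le_of_mul_le_mul_left h7 ht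
  have hpX : 0 < p * ‖X‖ ^ 2 := by positivity
  have h8 := key (min 1 (p * ‖X‖ ^ 2 / (2 * C0))) (by positivity) (min_le_left _ _)
  have h9 : min 1 (p * ‖X‖ ^ 2 / (2 * C0)) * C0 ≤ p * ‖X‖ ^ 2 / (2 * C0) * C0 :=
    mul_le_mul_of_nonneg_right (min_le_right _ _) hC0'.le
  have h10 : p * ‖X‖ ^ 2 / (2 * C0) * C0 = p * ‖X‖ ^ 2 / 2 := by field_simp
  linarith

theorem core2 (hPM : S_PM) (hDB : S_DB) (hF0 : S_F0) (hFP : S_FP) (hB1 : S_B1P) (hG0 : S_G0P)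
    (hLT : S_LOGTP) (hTH : S_THP) (hC1 : S_C1P) (hC2 : S_C2P) (hAVP : S_AVP) (hXPP : S_XPP)
    (hREAL : S_REAL) (hINT : S_INTP) (p : ℝ) (hp2 : 2 < p) (hp3 : p ≤ 3) :
    ∃ N : ℕ, ∀ m : ℕ, N ≤ m → ∀ (z : Fin (m + 1) → ℂ) (w : Fin m → ℂ) (a : ℝ), Crit m z w →
      z 0 = a → 0 ≤ a → ∑ j, ‖z j‖ ^ p = m + 1 → ∑ j, chi p (z j) = 0 →
      (∀ k, w k ≠ a) → ∑ k, ‖((a : ℂ) - w k)⁻¹‖ ^ 2 < m → False := by
  obtain ⟨K₁, hK₁, hAVP⟩ := hAVP p hp2 hp3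
  obtain ⟨K₂, hK₂, hXPP⟩ := hXPP p hp2 hp3
  obtain ⟨a₀, μ, K, ha₀, hμ, hK, hREAL⟩ := hREAL p hp2 hp3 (K₁ + K₂) (by positivity)
  obtain ⟨a₀', T₀, ha₀', hINT⟩ := hINT μ K hμ hK
  obtain ⟨K2, hK2, hLT⟩ := hLT p hp2.le hp3
  obtain ⟨δ, hδ, hTH⟩ := hTH p hp2 hp3 (min (min a₀ a₀') (1 / 4)) (by positivity)
  obtain ⟨M1, hC1⟩ := hC1 4 (by norm_num) δ hδ
  obtain ⟨M2, hC2⟩ := hC2 p hp2 hp3 δ hδ
  obtain ⟨M3, hM3⟩ := exists_nat_gt (2 / δ)
  obtain ⟨M4, hM4⟩ := exists_nat_gt (Real.exp (K2 * (1 + max T₀ 1)))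
  refine ⟨max 3 (max M1 (max M2 (max M3 M4))), fun m hm z w a hcr hz0 ha hsum hchi hne hinv => ?_⟩
  simp only [max_le_iff] at hm
  obtain ⟨hm3, hmM1, hmM2, hmM3, hmM4⟩ := hm
  have hm0 : (0:ℝ) < m := by exact_mod_cast (by omega : 0 < m)
  have hm1 : (0:ℝ) < (m:ℝ) + 1 := by positivity
  set J : ℂ := ((m : ℂ) + 1) * ∫ u in (0:ℝ)..a, ∏ k, (1 - (u : ℂ) * ((a : ℂ) - w k)⁻¹) with hJ
  have hf0 := hF0 m z w a hcr hz0 hne
  rw [← hJ] at hf0
  have hprodl : ∏ k, ‖((a : ℂ) - w k)⁻¹‖ ^ 2 ≤ 1 := by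
    calc ∏ k, ‖((a : ℂ) - w k)⁻¹‖ ^ 2 ≤ ∏ k, Real.exp (‖((a : ℂ) - w k)⁻¹‖ ^ 2 - 1) :=
          Finset.prod_le_prod (fun _ _ => by positivity) fun k _ => by
            have := Real.add_one_le_exp (‖((a : ℂ) - w k)⁻¹‖ ^ 2 - 1)
            linarith
      _ = Real.exp (∑ k, (‖((a : ℂ) - w k)⁻¹‖ ^ 2 - 1)) := (Real.exp_sum _ _).symm
      _ ≤ 1 := by
          rw [Real.exp_le_one_iff, Finset.sum_sub_distrib, Finset.sum_const, Finset.card_univ,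
            Fintype.card_fin, nsmul_eq_mul, mul_one]
          linarith
  have hprod : 1 ≤ ∏ k, ‖(a : ℂ) - w k‖ := by
    have h1 : (∏ k, ‖((a : ℂ) - w k)⁻¹‖) ≤ 1 := by
      have h2 : (∏ k, ‖((a : ℂ) - w k)⁻¹‖) ^ 2 ≤ 1 := by
        rw [← Finset.prod_pow]; exact hprodl
      have h3 : 0 ≤ ∏ k, ‖((a : ℂ) - w k)⁻¹‖ := Finset.prod_nonneg fun _ _ => norm_nonneg _
      nlinarith
    have h4 : (∏ k, ‖((a : ℂ) - w k)⁻¹‖) * ∏ k, ‖(a : ℂ) - w k‖ = 1 := by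
      rw [← Finset.prod_mul_distrib]
      refine Finset.prod_eq_one fun k _ => ?_
      rw [norm_inv]
      exact inv_mul_cancel₀ (norm_ne_zero_iff.2 (sub_ne_zero.2 fun h => hne k h.symm))
    have h5 : 0 ≤ ∏ k, ‖(a : ℂ) - w k‖ := Finset.prod_nonneg fun _ _ => norm_nonneg _
    nlinarith
  have hJle : ‖J‖ ≤ ‖∏ j, z j‖ := by
    rw [hf0]
    exact le_mul_of_one_le_left (norm_nonneg _) hprod
  have hcen : (∑ j, z j) / ((m + 1 : ℕ) : ℂ) = (∑ k, w k) / m := by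
    rw [sum_w hPM hcr]
    have h1 : (m : ℂ) ≠ 0 := by exact_mod_cast hm0.ne'
    have h2 : (m : ℂ) + 1 ≠ 0 := by exact_mod_cast hm1.ne'
    push_cast
    field_simp
  have hg0 := hG0 p (by linarith) hp3 (m + 1) (by omega) z (by rw [hsum]; push_cast; ring) hchi
  rw [hcen] at hg0
  have hJexp : ‖J‖ ≤ Real.exp (-((m + 1) * ‖(∑ k, w k) / m‖ ^ 2 / 12)) := by
    refine hJle.trans (hg0.trans (le_of_eq ?_))
    push_cast; ring_nf
  have hJ1 : ‖J‖ ≤ 1 := by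
    refine hJexp.trans (Real.exp_le_one_iff.2 ?_)
    have : 0 ≤ (m + 1 : ℝ) * ‖(∑ k, w k) / m‖ ^ 2 / 12 := by positivity
    linarith
  -- moments
  have hmom := fun c => mom hPM hB1 hp2.le hp3 hcr hsum hchi c
  have hκ3 : p * (p - 1) / 2 ≤ 3 := by nlinarith
  have hdbs : ∀ c : ℂ, ∑ k, ‖w k - c‖ ^ p ≤ m * (1 + 3 * (‖c‖ ^ 2 + ‖c‖ ^ p)) := by
    intro c
    refine (hmom c).trans ?_
    have : 0 ≤ ‖c‖ ^ 2 + ‖c‖ ^ p := by positivity
    gcongr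
  have hsw : ∑ k, ‖w k‖ ^ p ≤ m := by
    have := hmom 0
    simpa [Real.zero_rpow (show p ≠ 0 by linarith)] using this
  have hsw2 : ∑ k, ‖w k‖ ^ 2 ≤ m := by
    calc ∑ k, ‖w k‖ ^ 2 ≤ ∑ k, ((p - 2) / p + 2 / p * ‖w k‖ ^ p) :=
          Finset.sum_le_sum fun k _ => sq_le_rpow hp2.le (norm_nonneg _)
      _ = m * ((p - 2) / p) + 2 / p * ∑ k, ‖w k‖ ^ p := by
          rw [Finset.sum_add_distrib, ← Finset.mul_sum, Finset.sum_const, Finset.card_univ,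
            Fintype.card_fin, nsmul_eq_mul]
      _ ≤ m * ((p - 2) / p) + 2 / p * m := by gcongr
      _ = m := by
          have hp0 : p ≠ 0 := by linarith
          field_simp; ring
  rcases le_total a (min (min a₀ a₀') (1 / 4)) with hsmall | hbig
  · -- small `a`
    have ha4 : a ≤ 1 / 4 := hsmall.trans (min_le_right _ _)
    have haa : a ≤ a₀ := hsmall.trans ((min_le_left _ _).trans (min_le_left _ _))
    have haa' : a ≤ a₀' := hsmall.trans ((min_le_left _ _).trans (min_le_right _ _))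
    have h1 : (m : ℝ) + 1 ≤ ‖∏ j : Fin m, ((a : ℂ) - z j.succ)‖ := by
      have h2 := hFP m z w hcr
      rw [hz0] at h2
      rw [h2, norm_mul, norm_prod]
      have h3 : ‖(m : ℂ) + 1‖ = (m : ℝ) + 1 := by
        have : ((m : ℂ) + 1) = ((m + 1 : ℕ) : ℂ) := by push_cast; ring
        rw [this, Complex.norm_natCast]; push_cast; ring
      rw [h3]
      exact le_mul_of_one_le_right hm1.le hprod
    have h2 := hLT m (by omega) z a hz0 ha (by linarith) hsum hchi h1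
    have h3 : max T₀ 1 ≤ m * a ^ 2 := by
      by_contra hcon
      push Not at hcon
      have h4 : Real.log (m + 1) < K2 * (1 + max T₀ 1) :=
        h2.trans_lt (mul_lt_mul_of_pos_left (by linarith) hK2)
      have h5 : (m : ℝ) + 1 < Real.exp (K2 * (1 + max T₀ 1)) := by
        rw [← Real.exp_log hm1]
        exact Real.exp_lt_exp.2 h4
      have h6 : (M4 : ℝ) ≤ m := by exact_mod_cast hmM4
      linarith
    have ha0 : 0 < a := by
      rcases ha.eq_or_lt with h | h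
      · rw [← h] at h3
        have := (le_max_right T₀ 1).trans h3
        norm_num at this
      · exact h
    have hxne : ∀ k, (a : ℂ) - w k ≠ 0 := fun k => sub_ne_zero.2 fun h => hne k h.symm
    have havp := hAVP m (by omega) z w a hcr ha ha4 hsum hchi hne hinv.le
    have hexp : ‖∑ k, (chi p ((a : ℂ) - w k) - (a : ℂ) * (‖(a : ℂ) - w k‖ ^ (p - 2) : ℝ)
        * ((p / 2 : ℝ) + ((p - 2) / 2 : ℝ) * (((a : ℂ) - w k) / ‖(a : ℂ) - w k‖) ^ 2))‖ ≤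
          (K₁ + K₂) * (m * (a ^ 2 + a ^ (p - 1))) := by
      have e1 : ∑ k, (chi p ((a : ℂ) - w k) - (a : ℂ) * (‖(a : ℂ) - w k‖ ^ (p - 2) : ℝ)
        * ((p / 2 : ℝ) + ((p - 2) / 2 : ℝ) * (((a : ℂ) - w k) / ‖(a : ℂ) - w k‖) ^ 2)) =
        ∑ k, (chi p ((a : ℂ) - ((a : ℂ) - w k)) + chi p ((a : ℂ) - w k) -
          (a : ℂ) * (‖(a : ℂ) - w k‖ ^ (p - 2) : ℝ)
        * ((p / 2 : ℝ) + ((p - 2) / 2 : ℝ) * (((a : ℂ) - w k) / ‖(a : ℂ) - w k‖) ^ 2))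
        - ∑ k, chi p (w k) := by
        rw [← Finset.sum_sub_distrib]
        refine Finset.sum_congr rfl fun k _ => ?_
        rw [sub_sub_cancel]; ring
      rw [e1]
      have h5 : ‖∑ k, (chi p ((a : ℂ) - ((a : ℂ) - w k)) + chi p ((a : ℂ) - w k) -
          (a : ℂ) * (‖(a : ℂ) - w k‖ ^ (p - 2) : ℝ)
        * ((p / 2 : ℝ) + ((p - 2) / 2 : ℝ) * (((a : ℂ) - w k) / ‖(a : ℂ) - w k‖) ^ 2))‖ ≤
          m * (K₂ * a ^ (p - 1)) := by
        refine (norm_sum_le _ _).trans ?_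
        refine (Finset.sum_le_sum fun k _ => hXPP a ha (by linarith) _ (hxne k)).trans ?_
        rw [Finset.sum_const, Finset.card_univ, Fintype.card_fin, nsmul_eq_mul]
      have h6 : 0 ≤ a ^ (p - 1) := by positivity
      have h7 : 0 ≤ K₁ * (m * a ^ (p - 1)) := by positivity
      have h8 : 0 ≤ K₂ * (m * a ^ 2) := by positivity
      calc _ ≤ _ := norm_sub_le _ _
        _ ≤ m * (K₂ * a ^ (p - 1)) + K₁ * (m * a ^ 2) := add_le_add h5 havp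
        _ ≤ _ := by nlinarith
    have hx1 : ∑ k, ‖(a : ℂ) - w k‖ ^ p ≤ m * (1 + p * (p - 1) / 2 * (a ^ 2 + a ^ p)) := by
      have h5 := hmom a
      rw [Complex.norm_real, Real.norm_of_nonneg ha] at h5
      refine (le_of_eq ?_).trans h5
      exact Finset.sum_congr rfl fun k _ => by rw [norm_sub_rev]
    obtain ⟨hr1, hr2, hr3⟩ := hREAL m (by omega) a (fun k => (a : ℂ) - w k) ha haa hxne hx1 hinv.le
      hexp
    have h4 := hINT m a ha0 haa' ((le_max_left _ _).trans h3)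
      (fun k => ((a : ℂ) - w k)⁻¹) hinv.le hr1 hr2 hr3
    rw [← hJ] at h4
    linarith
  · -- `a` bounded below
    have ha0 : 0 < a := lt_of_lt_of_le (by positivity) hbig
    have hth := hTH a hbig m w hne hinv.le hdbs
    have hmδ : 2 < m * δ := by
      have h1 : (M3 : ℝ) ≤ m := by exact_mod_cast hmM3
      have h2 : 2 / δ < m := hM3.trans_le h1
      rwa [div_lt_iff₀ hδ] at h2
    have hbeta : ∀ k, ‖1 - (a : ℂ) * ((a : ℂ) - w k)⁻¹‖ = ‖w k‖ * ‖((a : ℂ) - w k)⁻¹‖ := by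
      intro k
      have h1 : (a : ℂ) - w k ≠ 0 := sub_ne_zero.2 fun h => hne k h.symm
      have h2 : 1 - (a : ℂ) * ((a : ℂ) - w k)⁻¹ = -(w k * ((a : ℂ) - w k)⁻¹) := by
        field_simp; ring
      rw [h2, norm_neg, norm_mul]
    have hdb := hDB m hm3 (fun k => ((a : ℂ) - w k)⁻¹) a δ ha0 (by
      rw [Finset.sum_congr rfl fun k _ => hbeta k]
      exact hth) hmδ
    rw [← hJ] at hdb
    rcases le_total a 4 with h4 | h4
    · exact hC1 m hmM1 a ha0 h4 w hne hinv hsw2 hth J hJexp hdb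
    · refine hC2 m hmM2 a h4 ?_ w hne hinv.le hth J hJ1 hdb
      have h5 : ‖z 0‖ ^ p ≤ ∑ j, ‖z j‖ ^ p :=
        Finset.single_le_sum (f := fun j => ‖z j‖ ^ p) (fun k _ => by positivity)
          (Finset.mem_univ 0)
      rw [hsum, hz0, Complex.norm_real, Real.norm_of_nonneg ha] at h5
      exact h5

end Pool.Agent.H798.BV
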