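import Pool.Agent.H798.BV.Stm3
import Pool.Agent.H798.BV.Core2

set_option autoImplicit false

open Polynomial

namespace Pool.Agent.H798.BV

theorem t_B2Q : S_B2Q := t_B2P

lemma sum_pow_sub_two_le {p : ℝ} (hp2 : 2 ≤ p) {n : ℕ} (z : Fin n → ℂ)
    (hsum : ∑ j, ‖z j‖ ^ p = n) : ∑ j, ‖z j‖ ^ (p - 2) ≤ n := by
  calc ∑ j, ‖z j‖ ^ (p - 2) ≤ ∑ j, (2 / p + (p - 2) / p * ‖z j‖ ^ p) :=
        Finset.sum_le_sum fun j _ => rpow_sub_two_le hp2 (norm_nonneg _)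
    _ = n := by
        rw [Finset.sum_add_distrib, ← Finset.mul_sum, hsum, Finset.sum_const, Finset.card_univ,
          Fintype.card_fin, nsmul_eq_mul]
        have hp0 : p ≠ 0 := by linarith
        field_simp; ring

theorem t_MOM (hB1 : S_B1Q) : S_MOM := by
  intro p hp1
  rcases le_total p 2 with hp2 | hp2
  · refine ⟨6, by norm_num, fun n z hsum hchi c hc => ?_⟩
    rw [min_eq_left hp2]
    calc ∑ j, ‖z j - c‖ ^ p ≤
        ∑ j, (‖z j‖ ^ p - p * ((starRingEnd ℂ) (chi p (z j)) * c).re + 6 * ‖c‖ ^ p) :=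
          Finset.sum_le_sum fun j _ => t_B1 p hp1 hp2 _ _
      _ = n * (1 + 6 * ‖c‖ ^ p) := by
          rw [Finset.sum_add_distrib, Finset.sum_sub_distrib, ← Finset.mul_sum, ← Complex.re_sum,
            ← Finset.sum_mul, ← map_sum, hchi, hsum, Finset.sum_const, Finset.card_univ,
            Fintype.card_fin, nsmul_eq_mul]
          simp
          ring
  · obtain ⟨K, hK, hB1⟩ := hB1 p hp2
    refine ⟨2 * K, by positivity, fun n z hsum hchi c hc => ?_⟩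
    rw [min_eq_right hp2]
    have e2 : ‖c‖ ^ (2:ℝ) = ‖c‖ ^ 2 := by rw [← Real.rpow_natCast]; norm_num
    rw [e2]
    have hcp : ‖c‖ ^ p ≤ ‖c‖ ^ 2 := by
      rcases (norm_nonneg c).eq_or_lt with h | h
      · rw [← h, Real.zero_rpow (by linarith)]; norm_num
      · rw [← e2]
        exact Real.rpow_le_rpow_of_exponent_ge h hc hp2
    have h0 := sum_pow_sub_two_le hp2 z hsum
    calc ∑ j, ‖z j - c‖ ^ p ≤
        ∑ j, (‖z j‖ ^ p - p * ((starRingEnd ℂ) (chi p (z j)) * c).re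
          + K * (‖z j‖ ^ (p - 2) * ‖c‖ ^ 2 + ‖c‖ ^ p)) :=
          Finset.sum_le_sum fun j _ => hB1 _ _
      _ = n + K * ((∑ j, ‖z j‖ ^ (p - 2)) * ‖c‖ ^ 2 + n * ‖c‖ ^ p) := by
          rw [Finset.sum_add_distrib, Finset.sum_sub_distrib, ← Finset.mul_sum, ← Complex.re_sum,
            ← Finset.sum_mul, ← map_sum, hchi, hsum, ← Finset.mul_sum, Finset.sum_add_distrib,
            Finset.sum_const, Finset.card_univ, Fintype.card_fin, nsmul_eq_mul, ← Finset.sum_mul]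
          simp
      _ ≤ n + K * (n * ‖c‖ ^ 2 + n * ‖c‖ ^ 2) := by gcongr
      _ = _ := by ring

/-- the centre of the `p`-variance, `2 ≤ p` -/
theorem exists_centreQ (hB1 : S_B1Q) {p : ℝ} (hp2 : 2 ≤ p) {n : ℕ} (z : Fin n → ℂ)
    (hmin : ∀ c : ℂ, ∑ j, ‖z j‖ ^ p ≤ ∑ j, ‖z j - c‖ ^ p) : ∑ j, chi p (z j) = 0 := by
  set X := ∑ j, chi p (z j) with hX
  by_contra hne
  have hX0 : 0 < ‖X‖ := norm_pos_iff.2 hne
  set A : ℝ := ∑ j, ‖z j‖ ^ (p - 2) with hA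
  have hA0 : 0 ≤ A := Finset.sum_nonneg fun j _ => by positivity
  obtain ⟨κ, hκ0, hB1⟩ := hB1 p hp2
  set C0 : ℝ := κ * (A * ‖X‖ ^ 2 + n * ‖X‖ ^ p) + 1 with hC0
  have hC0' : 0 < C0 := by
    have : 0 ≤ κ * (A * ‖X‖ ^ 2 + n * ‖X‖ ^ p) := by positivity
    linarith
  have key : ∀ t : ℝ, 0 < t → t ≤ 1 → p * ‖X‖ ^ 2 ≤ t * C0 := by
    intro t ht ht1
    have h1 := hmin (t * X)
    have h2 : ∑ j, ‖z j - t * X‖ ^ p ≤
        ∑ j, (‖z j‖ ^ p - p * ((starRingEnd ℂ) (chi p (z j)) * (t * X)).re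
          + κ * (‖z j‖ ^ (p - 2) * ‖(t:ℂ) * X‖ ^ 2 + ‖(t:ℂ) * X‖ ^ p)) :=
      Finset.sum_le_sum fun j _ => hB1 (z j) (t * X)
    have h3 : ∑ j, ((starRingEnd ℂ) (chi p (z j)) * (t * X)).re = t * ‖X‖ ^ 2 := by
      rw [← Complex.re_sum, ← Finset.sum_mul, ← map_sum, ← hX]
      have : (starRingEnd ℂ) X * (t * X) = (t : ℂ) * ((starRingEnd ℂ) X * X) := by ring
      rw [this, Complex.re_ofReal_mul, Complex.conj_mul', ← Complex.ofReal_pow, Complex.ofReal_re]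
    rw [Finset.sum_add_distrib, Finset.sum_sub_distrib, ← Finset.mul_sum, h3, ← Finset.mul_sum,
      Finset.sum_add_distrib, ← Finset.sum_mul, Finset.sum_const,
      Finset.card_univ, Fintype.card_fin, nsmul_eq_mul, ← hA] at h2
    have h4 : ‖(t:ℂ) * X‖ ^ p ≤ t ^ 2 * ‖X‖ ^ p := by
      rw [norm_mul, Complex.norm_real, Real.norm_of_nonneg ht.le, Real.mul_rpow ht.le hX0.le]
      refine mul_le_mul_of_nonneg_right ?_ (by positivity)
      rw [← Real.rpow_natCast]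
      exact Real.rpow_le_rpow_of_exponent_ge ht ht1 (by push_cast; linarith)
    have h5 : ‖(t:ℂ) * X‖ ^ 2 = t ^ 2 * ‖X‖ ^ 2 := by
      rw [norm_mul, Complex.norm_real, Real.norm_of_nonneg ht.le]; ring
    have h6 : κ * (A * ‖(t:ℂ) * X‖ ^ 2 + n * ‖(t:ℂ) * X‖ ^ p) ≤
        κ * (A * (t ^ 2 * ‖X‖ ^ 2) + n * (t ^ 2 * ‖X‖ ^ p)) := by
      rw [h5]; gcongr
    have h7 : t * (p * ‖X‖ ^ 2) ≤ t * (t * C0) := by
      have e : κ * (A * (t ^ 2 * ‖X‖ ^ 2) + n * (t ^ 2 * ‖X‖ ^ p)) = t ^ 2 * (C0 - 1) := by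
        rw [hC0]; ring
      nlinarith [sq_nonneg t]
    exact le_of_mul_le_mul_left h7 ht
  have hpX : 0 < p * ‖X‖ ^ 2 := by positivity
  have h8 := key (min 1 (p * ‖X‖ ^ 2 / (2 * C0))) (by positivity) (min_le_left _ _)
  have h9 : min 1 (p * ‖X‖ ^ 2 / (2 * C0)) * C0 ≤ p * ‖X‖ ^ 2 / (2 * C0) * C0 :=
    mul_le_mul_of_nonneg_right (min_le_right _ _) hC0'.le
  have h10 : p * ‖X‖ ^ 2 / (2 * C0) * C0 = p * ‖X‖ ^ 2 / 2 := by field_simp
  linarith

theorem exists_centreA (hB1 : S_B1Q) {p : ℝ} (hp1 : 1 < p) {n : ℕ} (z : Fin n → ℂ)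
    (hmin : ∀ c : ℂ, ∑ j, ‖z j‖ ^ p ≤ ∑ j, ‖z j - c‖ ^ p) : ∑ j, chi p (z j) = 0 := by
  rcases le_total p 2 with hp2 | hp2
  · exact exists_centre hp1 hp2 z hmin
  · exact exists_centreQ hB1 hp2 z hmin

/-- (LOGT) for all `p > 1` -/
def S_LOGA : Prop :=
  ∀ p : ℝ, 1 < p → ∃ K : ℝ, 0 < K ∧ ∀ (m : ℕ), 2 ≤ m → ∀ (z : Fin (m + 1) → ℂ) (a : ℝ),
    z 0 = a → 0 ≤ a → a ≤ 1 / 4 → ∑ j, ‖z j‖ ^ p = m + 1 → ∑ j, chi p (z j) = 0 →
    (m : ℝ) + 1 ≤ ‖∏ j : Fin m, ((a : ℂ) - z j.succ)‖ →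
    Real.log (m + 1) ≤ K * (1 + m * a ^ 2)

theorem t_LOGA (h1 : S_LOGT) (h2 : S_LOGTQ) : S_LOGA := by
  intro p hp1
  rcases le_total p 2 with hp2 | hp2
  · exact h1 p hp1 hp2
  · obtain ⟨K, hK, h⟩ := h2 p hp2
    exact ⟨K, hK, fun m hm z a hz0 ha ha1 => h m (by omega) z a hz0 ha (by linarith)⟩

lemma rpow_le_mean {s t : ℝ} (ht0 : 0 < t) (hts : t ≤ s) {r : ℝ} (hr : 0 ≤ r) :
    r ^ t ≤ 1 + t / s * (r ^ s - 1) := by
  have hs0 : 0 < s := ht0.trans_le hts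
  have h := Real.geom_mean_le_arith_mean2_weighted (w₁ := 1 - t / s) (w₂ := t / s) (p₁ := 1)
    (p₂ := r ^ s) (by rw [sub_nonneg, div_le_one hs0]; exact hts) (by positivity) zero_le_one
    (by positivity) (by ring)
  rw [Real.one_rpow, one_mul, ← Real.rpow_mul hr] at h
  have e : s * (t / s) = t := by field_simp
  rw [e] at h
  linarith

lemma sum_rpow_le_mean {s t : ℝ} (ht0 : 0 < t) (hts : t ≤ s) {m : ℕ} (r : Fin m → ℝ)
    (hr : ∀ k, 0 ≤ r k) : ∑ k, r k ^ t ≤ m + t / s * (∑ k, r k ^ s - m) := by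
  calc ∑ k, r k ^ t ≤ ∑ k, (1 + t / s * (r k ^ s - 1)) :=
        Finset.sum_le_sum fun k _ => rpow_le_mean ht0 hts (hr k)
    _ = m + t / s * (∑ k, r k ^ s - m) := by
        rw [Finset.sum_add_distrib, ← Finset.mul_sum, Finset.sum_sub_distrib, Finset.sum_const,
          Finset.card_univ, Fintype.card_fin, nsmul_eq_mul, mul_one]

theorem core3 (hPM : S_PM) (hDB : S_DB) (hF0 : S_F0) (hFP : S_FP) (hMOM : S_MOM) (hG0 : S_G0Q)
    (hLT : S_LOGA) (hTH : S_THQ) (hC1 : S_C1Q) (hC2 : S_C2Q) (hAVQ : S_AVQ) (hKW : S_KW)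
    (hREAL : S_REALQ) (hINT : S_INTQ) (p s : ℝ) (hp1 : 1 < p) (hs1 : 1 < s)
    (hps : 1 / p + 1 / s < 1) :
    ∃ N : ℕ, ∀ m : ℕ, N ≤ m → ∀ (z : Fin (m + 1) → ℂ) (w : Fin m → ℂ) (a : ℝ), Crit m z w →
      z 0 = a → 0 ≤ a → ∑ j, ‖z j‖ ^ p = m + 1 → ∑ j, chi p (z j) = 0 →
      (∀ k, w k ≠ a) → ∑ k, ‖((a : ℂ) - w k)⁻¹‖ ^ s < m → False := by
  have hp0 : 0 < p := by linarith
  have hs0 : 0 < s := by linarith
  have hβ : 1 < min p 2 := lt_min hp1 (by norm_num)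
  have hβ0 : min p 2 ≠ 0 := by linarith
  have ht1 : 1 < min s 2 := lt_min hs1 (by norm_num)
  obtain ⟨K₀, hK₀, hAVQ⟩ := hAVQ p s hp1 hs1
  obtain ⟨K₁, hK₁, hMOM⟩ := hMOM p hp1
  obtain ⟨ε, a₀, μ, K, hε, ha₀, hμ, hK, hREAL⟩ := hREAL p s hp1 hs1 hps K₀ hK₀
  obtain ⟨a₀', T₀, ha₀', hT₀, hKW⟩ := hKW p s hp1 hs1 ε hε
  obtain ⟨a₁, T₁, ha₁, hINT⟩ := hINT (min s 2) ht1 (min_le_right _ _) μ K hμ hK
  obtain ⟨K2, hK2, hLT⟩ := hLT p hp1
  obtain ⟨δ, hδ, hTH⟩ := hTH p s hp1 hs1 hps (min p 2) K₁ hβ hK₁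
    (min (min a₀ (min a₀' a₁)) (1 / 4)) (by positivity)
  obtain ⟨M1, hC1⟩ := hC1 (min s 2) ht1 (min_le_right _ _) 4 (by norm_num) δ hδ (1 / (4 * p))
    (by positivity)
  obtain ⟨M2, hC2⟩ := hC2 p s hp1 hs1 hps δ hδ
  obtain ⟨M3, hM3⟩ := exists_nat_gt (2 / δ)
  obtain ⟨M4, hM4⟩ := exists_nat_gt (Real.exp (K2 * (1 + max (max T₀ T₁) 1)))
  refine ⟨max 3 (max M1 (max M2 (max M3 M4))), fun m hm z w a hcr hz0 ha hsum hchi hne hinv => ?_⟩
  simp only [max_le_iff] at hm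
  obtain ⟨hm3, hmM1, hmM2, hmM3, hmM4⟩ := hm
  have hm0 : (0:ℝ) < m := by exact_mod_cast (by omega : 0 < m)
  have hm1 : (0:ℝ) < (m:ℝ) + 1 := by positivity
  have hm1' : (1:ℝ) ≤ m := by exact_mod_cast (by omega : 1 ≤ m)
  set J : ℂ := ((m : ℂ) + 1) * ∫ u in (0:ℝ)..a, ∏ k, (1 - (u : ℂ) * ((a : ℂ) - w k)⁻¹) with hJ
  have hf0 := hF0 m z w a hcr hz0 hne
  rw [← hJ] at hf0
  have hprodl : ∏ k, ‖((a : ℂ) - w k)⁻¹‖ ^ s ≤ 1 := by
    calc ∏ k, ‖((a : ℂ) - w k)⁻¹‖ ^ s ≤ ∏ k, Real.exp (‖((a : ℂ) - w k)⁻¹‖ ^ s - 1) :=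
          Finset.prod_le_prod (fun _ _ => by positivity) fun k _ => by
            have := Real.add_one_le_exp (‖((a : ℂ) - w k)⁻¹‖ ^ s - 1)
            linarith
      _ = Real.exp (∑ k, (‖((a : ℂ) - w k)⁻¹‖ ^ s - 1)) := (Real.exp_sum _ _).symm
      _ ≤ 1 := by
          rw [Real.exp_le_one_iff, Finset.sum_sub_distrib, Finset.sum_const, Finset.card_univ,
            Fintype.card_fin, nsmul_eq_mul, mul_one]
          linarith
  have hprod : 1 ≤ ∏ k, ‖(a : ℂ) - w k‖ := by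
    have h3 : 0 ≤ ∏ k, ‖((a : ℂ) - w k)⁻¹‖ := Finset.prod_nonneg fun _ _ => norm_nonneg _
    have h1 : (∏ k, ‖((a : ℂ) - w k)⁻¹‖) ≤ 1 := by
      have h2 : (∏ k, ‖((a : ℂ) - w k)⁻¹‖) ^ s ≤ 1 := by
        rw [← Real.finsetProd_rpow _ _ (fun _ _ => norm_nonneg _)]; exact hprodl
      by_contra hcon
      push Not at hcon
      have := Real.one_lt_rpow hcon hs0
      linarith
    have h4 : (∏ k, ‖((a : ℂ) - w k)⁻¹‖) * ∏ k, ‖(a : ℂ) - w k‖ = 1 := by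
      rw [← Finset.prod_mul_distrib]
      refine Finset.prod_eq_one fun k _ => ?_
      rw [norm_inv]
      exact inv_mul_cancel₀ (norm_ne_zero_iff.2 (sub_ne_zero.2 fun h => hne k h.symm))
    have h5 : 0 ≤ ∏ k, ‖(a : ℂ) - w k‖ := Finset.prod_nonneg fun _ _ => norm_nonneg _
    nlinarith
  have hJle : ‖J‖ ≤ ‖∏ j, z j‖ := by
    rw [hf0]
    exact le_mul_of_one_le_left (norm_nonneg _) hprod
  have hcen : (∑ j, z j) / ((m + 1 : ℕ) : ℂ) = (∑ k, w k) / m := by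
    rw [sum_w hPM hcr]
    have h1 : (m : ℂ) ≠ 0 := by exact_mod_cast hm0.ne'
    have h2 : (m : ℂ) + 1 ≠ 0 := by exact_mod_cast hm1.ne'
    push_cast
    field_simp
  have hg0 := hG0 p hp1 (m + 1) (by omega) z (by rw [hsum]; push_cast; ring) hchi
  rw [hcen] at hg0
  have hJexp : ‖J‖ ≤ Real.exp (-(1 / (4 * p) * ((m + 1) * ‖(∑ k, w k) / m‖ ^ 2))) := by
    refine hJle.trans (hg0.trans (le_of_eq ?_))
    congr 1
    push_cast
    field_simp
  have hJ1 : ‖J‖ ≤ 1 := by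
    refine hJexp.trans (Real.exp_le_one_iff.2 ?_)
    have : 0 ≤ 1 / (4 * p) * ((m + 1 : ℝ) * ‖(∑ k, w k) / m‖ ^ 2) := by positivity
    linarith
  -- moments
  have hmom : ∀ c : ℂ, ‖c‖ ≤ 1 → ∑ k, ‖w k - c‖ ^ p ≤ m * (1 + K₁ * ‖c‖ ^ (min p 2)) := by
    intro c hc
    refine (dbsP hPM hp1 hcr c).trans ?_
    have h1 := hMOM (m + 1) z (by rw [hsum]; push_cast; ring) hchi c hc
    push_cast at h1
    calc (m : ℝ) / (m + 1) * ∑ j, ‖z j - c‖ ^ p ≤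
        (m : ℝ) / (m + 1) * ((m + 1) * (1 + K₁ * ‖c‖ ^ (min p 2))) :=
          mul_le_mul_of_nonneg_left h1 (by positivity)
      _ = _ := by field_simp
  have hsw : ∑ k, ‖w k‖ ^ p ≤ m := by
    have := hmom 0 (by simp)
    simpa [Real.zero_rpow hβ0] using this
  have hw_p : ∀ k, ‖w k‖ ^ p ≤ m := fun k =>
    (Finset.single_le_sum (f := fun k => ‖w k‖ ^ p) (fun k _ => by positivity)
      (Finset.mem_univ k)).trans hsw
  have hsw2 : ∑ k, ‖w k‖ ^ 2 ≤ (m : ℝ) ^ 2 := by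
    rcases le_total p 2 with hp2 | hp2
    · have h5 : ∀ k, ‖w k‖ ^ 2 ≤ m * ‖w k‖ ^ p := by
        intro k
        rcases (norm_nonneg (w k)).eq_or_lt with h0 | h0
        · rw [← h0, Real.zero_rpow (by linarith)]; norm_num
        · have h6 : ‖w k‖ ^ 2 = ‖w k‖ ^ (2 - p) * ‖w k‖ ^ p := by
            rw [← Real.rpow_add h0]
            norm_num
          rw [h6]
          refine mul_le_mul_of_nonneg_right ?_ (by positivity)
          rcases le_total ‖w k‖ 1 with h7 | h7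
          · exact (Real.rpow_le_one h0.le h7 (by linarith)).trans hm1'
          · exact (Real.rpow_le_rpow_of_exponent_le h7 (by linarith)).trans (hw_p k)
      calc ∑ k, ‖w k‖ ^ 2 ≤ ∑ k, m * ‖w k‖ ^ p := Finset.sum_le_sum fun k _ => h5 k
        _ = m * ∑ k, ‖w k‖ ^ p := by rw [Finset.mul_sum]
        _ ≤ m * m := mul_le_mul_of_nonneg_left hsw hm0.le
        _ = (m : ℝ) ^ 2 := by ring
    · calc ∑ k, ‖w k‖ ^ 2 ≤ ∑ k, ((p - 2) / p + 2 / p * ‖w k‖ ^ p) :=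
            Finset.sum_le_sum fun k _ => sq_le_rpow hp2 (norm_nonneg _)
        _ = m * ((p - 2) / p) + 2 / p * ∑ k, ‖w k‖ ^ p := by
            rw [Finset.sum_add_distrib, ← Finset.mul_sum, Finset.sum_const, Finset.card_univ,
              Fintype.card_fin, nsmul_eq_mul]
        _ ≤ m * ((p - 2) / p) + 2 / p * m := by gcongr
        _ = m := by field_simp; ring
        _ ≤ (m : ℝ) ^ 2 := by nlinarith
  have hsumw : ‖∑ k, w k‖ ≤ m := by
    have h5 : ∀ k, ‖w k‖ ≤ (1 - 1 / p) + ‖w k‖ ^ p / p := by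
      intro k
      have h6 : 1 + p * (‖w k‖ - 1) ≤ (1 + (‖w k‖ - 1)) ^ p :=
        one_add_mul_self_le_rpow_one_add (by linarith [norm_nonneg (w k)]) hp1.le
      have h7 : (1 + (‖w k‖ - 1)) = ‖w k‖ := by ring
      rw [h7] at h6
      have h8 : ‖w k‖ = (1 - 1 / p) + (1 + p * (‖w k‖ - 1)) / p := by field_simp; ring
      calc ‖w k‖ = (1 - 1 / p) + (1 + p * (‖w k‖ - 1)) / p := h8
        _ ≤ _ := by gcongr
    calc ‖∑ k, w k‖ ≤ ∑ k, ‖w k‖ := norm_sum_le _ _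
      _ ≤ ∑ k, ((1 - 1 / p) + ‖w k‖ ^ p / p) := Finset.sum_le_sum fun k _ => h5 k
      _ = m * (1 - 1 / p) + (∑ k, ‖w k‖ ^ p) / p := by
          rw [Finset.sum_add_distrib, Finset.sum_const, Finset.card_univ, Fintype.card_fin,
            nsmul_eq_mul, Finset.sum_div]
      _ ≤ m * (1 - 1 / p) + m / p := by gcongr
      _ = m := by ring
  rcases le_total a (min (min a₀ (min a₀' a₁)) (1 / 4)) with hsmall | hbig
  · -- small `a`
    have ha4 : a ≤ 1 / 4 := hsmall.trans (min_le_right _ _)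
    have haa : a ≤ a₀ := hsmall.trans ((min_le_left _ _).trans (min_le_left _ _))
    have haa' : a ≤ a₀' :=
      hsmall.trans ((min_le_left _ _).trans ((min_le_right _ _).trans (min_le_left _ _)))
    have haa1 : a ≤ a₁ :=
      hsmall.trans ((min_le_left _ _).trans ((min_le_right _ _).trans (min_le_right _ _)))
    have h1 : (m : ℝ) + 1 ≤ ‖∏ j : Fin m, ((a : ℂ) - z j.succ)‖ := by
      have h2 := hFP m z w hcr
      rw [hz0] at h2
      rw [h2, norm_mul, norm_prod]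
      have h3 : ‖(m : ℂ) + 1‖ = (m : ℝ) + 1 := by
        have : ((m : ℂ) + 1) = ((m + 1 : ℕ) : ℂ) := by push_cast; ring
        rw [this, Complex.norm_natCast]; push_cast; ring
      rw [h3]
      exact le_mul_of_one_le_right hm1.le hprod
    have h2 := hLT m (by omega) z a hz0 ha ha4 hsum hchi h1
    have h3 : max (max T₀ T₁) 1 ≤ m * a ^ 2 := by
      by_contra hcon
      push Not at hcon
      have h4 : Real.log (m + 1) < K2 * (1 + max (max T₀ T₁) 1) :=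
        h2.trans_lt (mul_lt_mul_of_pos_left (by linarith) hK2)
      have h5 : (m : ℝ) + 1 < Real.exp (K2 * (1 + max (max T₀ T₁) 1)) := by
        rw [← Real.exp_log hm1]
        exact Real.exp_lt_exp.2 h4
      have h6 : (M4 : ℝ) ≤ m := by exact_mod_cast hmM4
      linarith
    have hT0' : T₀ ≤ m * a ^ 2 := (le_max_left _ _).trans ((le_max_left _ _).trans h3)
    have hT1' : T₁ ≤ m * a ^ 2 := (le_max_right _ _).trans ((le_max_left _ _).trans h3)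
    have ha0 : 0 < a := by
      rcases ha.eq_or_lt with h | h
      · rw [← h] at h3
        have := (le_max_right (max T₀ T₁) 1).trans h3
        norm_num at this
      · exact h
    have hxne : ∀ k, (a : ℂ) - w k ≠ 0 := fun k => sub_ne_zero.2 fun h => hne k h.symm
    have havq := hAVQ m (by omega) z w a hcr ha ha4 hsum hchi hne hinv.le
    have hkw := hKW m (by omega) z w a hcr hz0 ha haa' hT0' hsum hchi h1 hne hinv.le
    obtain ⟨hr1, hr2, hr3⟩ := hREAL m (by omega) a (fun k => (a : ℂ) - w k) ha haa hxne hkw hinv.le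
      (by
        refine (le_of_eq ?_).trans havq
        congr 1
        exact Finset.sum_congr rfl fun k _ => by rw [sub_sub_cancel])
    have hr3' : ∑ k, (if 2 < ‖((a : ℂ) - w k)⁻¹‖ then ‖((a : ℂ) - w k)⁻¹‖ ^ (min s 2) else 0) ≤
        K * (a ^ 2 * m) := by
      refine le_trans (Finset.sum_le_sum fun k _ => ?_) hr3
      split_ifs with h
      · exact Real.rpow_le_rpow_of_exponent_le (by linarith) (min_le_left _ _)
      · exact le_rfl
    have h4 := hINT m a ha0 haa1 hT1' (fun k => ((a : ℂ) - w k)⁻¹) hr1 hr2 hr3'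
    rw [← hJ] at h4
    linarith
  · -- `a` bounded below
    have ha0 : 0 < a := lt_of_lt_of_le (by positivity) hbig
    have hth := hTH a hbig m w hne hinv.le hsw (by
      intro t ht0 ht1'
      have h5 := hmom (-(t : ℂ)) (by
        rw [norm_neg, Complex.norm_real, Real.norm_of_nonneg ht0]; exact ht1')
      simp only [sub_neg_eq_add, norm_neg, Complex.norm_real, Real.norm_of_nonneg ht0] at h5
      exact h5)
    have hmδ : 2 < m * δ := by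
      have h1 : (M3 : ℝ) ≤ m := by exact_mod_cast hmM3
      have h2 : 2 / δ < m := hM3.trans_le h1
      rwa [div_lt_iff₀ hδ] at h2
    have hbeta : ∀ k, ‖1 - (a : ℂ) * ((a : ℂ) - w k)⁻¹‖ = ‖w k‖ * ‖((a : ℂ) - w k)⁻¹‖ := by
      intro k
      have h1 : (a : ℂ) - w k ≠ 0 := sub_ne_zero.2 fun h => hne k h.symm
      have h2 : 1 - (a : ℂ) * ((a : ℂ) - w k)⁻¹ = -(w k * ((a : ℂ) - w k)⁻¹) := by
        field_simp; ring
      rw [h2, norm_neg, norm_mul]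
    have hdb := hDB m hm3 (fun k => ((a : ℂ) - w k)⁻¹) a δ ha0 (by
      rw [Finset.sum_congr rfl fun k _ => hbeta k]
      exact hth) hmδ
    rw [← hJ] at hdb
    rcases le_total a 4 with h4 | h4
    · refine hC1 m hmM1 a ha0 h4 w hne ?_ hsw2 hsumw hth J hJexp hdb
      have h5 := sum_rpow_le_mean (s := s) (t := min s 2) (by linarith) (min_le_left _ _)
        (fun k => ‖((a : ℂ) - w k)⁻¹‖) fun k => norm_nonneg _
      refine h5.trans_lt ?_
      have h6 : 0 < min s 2 / s := by positivity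
      nlinarith
    · exact hC2 m hmM2 a h4 w hne hinv.le hsw hth J hJ1 hdb

end Pool.Agent.H798.BV
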