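import Pool.Agent.H798.BV.Red2
import Pool.Agent.H798.BV.Final

set_option autoImplicit false

open Polynomial

namespace Pool.Agent.H798.BV

open Pool.Agent.V1148.Bor

/-- what the board pieces give -/
def CoreAll : Prop := ∀ p : ℝ, 2 < p → p ≤ 3 → ∃ N : ℕ, ∀ m : ℕ, N ≤ m → CoreD p m

theorem bound2 (h : CoreAll) (p₀ : ℝ) (hp₀ : 2 < p₀) : ∃ N : ℕ, 2 ≤ N ∧ ∀ F : ℂ[X],
    N ≤ F.natDegree → ∀ ζ ∈ F.roots, ζ ∉ (derivative F).roots → ∀ p : ℝ, p₀ ≤ p →
      0 < sigma p F ∧ ((F.natDegree - 1 : ℕ) : ℝ) ≤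
        sigma p F ^ 2 * ((derivative F).roots.map (fun w : ℂ => (‖w - ζ‖ ^ 2)⁻¹)).sum := by
  obtain ⟨N, hN⟩ := h (min p₀ 3) (lt_min hp₀ (by norm_num)) (min_le_right _ _)
  refine ⟨max N 1 + 1, by omega, fun F hF ζ hζ hd p hp => ?_⟩
  obtain ⟨m, hm⟩ : ∃ m, F.natDegree = m + 1 := ⟨F.natDegree - 1, by omega⟩
  have hq0 : 0 < min p₀ 3 := lt_min (by linarith) (by norm_num)
  have h1 := redD hq0 (m := m) (by omega) (hN m (by omega)) F hm hζ hd
  have h2 : sigma (min p₀ 3) F ≤ sigma p F :=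
    sigma_mono (by omega) hq0 ((min_le_left _ _).trans hp)
  refine ⟨h1.1.trans_le h2, ?_⟩
  have h3 : F.natDegree - 1 = m := by omega
  rw [h3]
  have h4 : 0 ≤ ((derivative F).roots.map (fun w : ℂ => (‖w - ζ‖ ^ 2)⁻¹)).sum := by
    apply Multiset.sum_nonneg
    intro x hx
    rw [Multiset.mem_map] at hx
    obtain ⟨w, -, rfl⟩ := hx
    positivity
  refine h1.2.trans (mul_le_mul_of_nonneg_right ?_ h4)
  exact pow_le_pow_left₀ h1.1.le h2 2

/-- zeros and critical points of a pure polynomial -/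
lemma pure_facts {F : ℂ[X]} (hn : 2 ≤ F.natDegree) (hF : IsPure F) {ζ : ℂ} (hζ : ζ ∈ F.roots) :
    ∃ c : ℂ, (∀ z ∈ F.roots, ‖z - c‖ = ‖ζ - c‖) ∧ ∀ w ∈ (derivative F).roots, w = c := by
  obtain ⟨a, b, c, ha, hFe⟩ := hF
  have h0 : F ≠ 0 := by rintro rfl; simp at hn
  have hroot : ∀ z ∈ F.roots, a * (z - c) ^ F.natDegree = b := by
    intro z hz
    have h1 := (mem_roots h0).1 hz
    rw [IsRoot.def] at h1
    rw [hFe] at h1
    simp only [eval_sub, eval_mul, eval_C, eval_pow, eval_X] at h1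
    exact sub_eq_zero.1 h1
  refine ⟨c, fun z hz => ?_, fun w hw => ?_⟩
  · have h1 := (hroot z hz).trans (hroot ζ hζ).symm
    have h2 := mul_left_cancel₀ ha h1
    have h3 := congrArg norm h2
    rw [norm_pow, norm_pow] at h3
    exact (pow_left_inj₀ (norm_nonneg _) (norm_nonneg _) (by omega)).1 h3
  · have h1 := (mem_roots (der_ne hn)).1 hw
    rw [IsRoot.def] at h1
    rw [hFe] at h1
    simp only [derivative_sub, derivative_C, sub_zero, derivative_mul, zero_mul, zero_add,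
      derivative_pow, derivative_X, eval_mul, eval_pow, eval_sub, eval_X, eval_C,
      mul_one] at h1
    rcases mul_eq_zero.1 h1 with h2 | h2
    · exact absurd h2 ha
    · rcases mul_eq_zero.1 h2 with h3 | h3
      · exfalso
        have : (F.natDegree : ℂ) ≠ 0 := by exact_mod_cast (by omega : F.natDegree ≠ 0)
        apply this
        simpa using h3
      · exact sub_eq_zero.1 ((pow_eq_zero_iff (by omega)).1 h3)

lemma card_der' {F : ℂ[X]} : Multiset.card (derivative F).roots = F.natDegree - 1 := by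
  rw [← (IsAlgClosed.splits (derivative F)).natDegree_eq_card_roots]
  exact natDegree_derivative F

lemma sigma_le_circle {F : ℂ[X]} (hn : 2 ≤ F.natDegree) {p : ℝ} (hp0 : 0 < p) {c : ℂ} {R : ℝ}
    (hR : 0 ≤ R) (h : ∀ z ∈ F.roots, ‖z - c‖ = R) : sigma p F ≤ R := by
  refine (sigma_le p F c).trans ?_
  obtain ⟨z, hr, hz⟩ := pmean_eq (F := F)
  have hzc : ∀ i, ‖z i - c‖ = R := fun i => h _ (by
    rw [hr]
    exact Multiset.mem_map_of_mem _ (Finset.mem_univ i))
  rw [hz]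
  simp only [hzc]
  have hn0 : (0:ℝ) < (F.natDegree : ℝ) := by exact_mod_cast (by omega : 0 < F.natDegree)
  rw [Finset.sum_const, Finset.card_univ, Fintype.card_fin, nsmul_eq_mul, ← mul_assoc,
    one_div_mul_cancel hn0.ne', one_mul, ← Real.rpow_mul hR,
    mul_one_div_cancel hp0.ne', Real.rpow_one]

/-- all exponents `p ≥ p₀`, `s ≥ 2`, with the equality cases -/
theorem full2 (h : CoreAll) (p₀ : ℝ) (hp₀ : 2 < p₀) : ∃ N : ℕ, 2 ≤ N ∧ ∀ F : ℂ[X],
    N ≤ F.natDegree → ∀ ζ ∈ F.roots, ζ ∉ (derivative F).roots → ∀ p s : ℝ, p₀ ≤ p → 2 ≤ s →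
      0 < sigma p F ∧
      ((F.natDegree - 1 : ℕ) : ℝ) / sigma p F ^ s ≤
        ((derivative F).roots.map (fun w : ℂ => ‖w - ζ‖ ^ (-s))).sum ∧
      (((derivative F).roots.map (fun w : ℂ => ‖w - ζ‖ ^ (-s))).sum =
        ((F.natDegree - 1 : ℕ) : ℝ) / sigma p F ^ s ↔ IsPure F) := by
  obtain ⟨N, hN2, hN⟩ := bound2 h ((2 + p₀) / 2) (by linarith)
  refine ⟨N, hN2, fun F hF ζ hζ hd p s hp hs => ?_⟩
  have hn2 : 2 ≤ F.natDegree := by omega
  have hroot := exists_root hn2
  obtain ⟨hσ, hb⟩ := hN F hF ζ hζ hd p (by linarith)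
  have hσs : 0 < sigma p F ^ s := Real.rpow_pos_of_pos hσ s
  have hne : ∀ w ∈ (derivative F).roots, 0 < ‖w - ζ‖ := by
    intro w hw
    rw [norm_pos_iff, sub_ne_zero]
    rintro rfl
    exact hd hw
  -- Bernoulli
  have hber : ((F.natDegree - 1 : ℕ) : ℝ) + s / 2 * (sigma p F ^ 2 *
      ((derivative F).roots.map (fun w : ℂ => (‖w - ζ‖ ^ 2)⁻¹)).sum -
        ((F.natDegree - 1 : ℕ) : ℝ)) ≤
      sigma p F ^ s * ((derivative F).roots.map (fun w : ℂ => ‖w - ζ‖ ^ (-s))).sum := by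
    rw [← card_der']
    have h4 : ∀ t : Multiset ℂ, (∀ w ∈ t, 0 < ‖w - ζ‖) →
        (Multiset.card t : ℝ) + s / 2 * (sigma p F ^ 2 *
        (t.map (fun w : ℂ => (‖w - ζ‖ ^ 2)⁻¹)).sum - (Multiset.card t : ℝ)) ≤
        sigma p F ^ s * (t.map (fun w : ℂ => ‖w - ζ‖ ^ (-s))).sum := by
      intro t
      induction t using Multiset.induction with
      | empty => intro _; simp
      | cons x t ih =>
        intro ht
        have h5 := ih (fun w hw => ht w (Multiset.mem_cons_of_mem hw))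
        have hx := ht x (Multiset.mem_cons_self x t)
        have h6 := Pool.Agent.Results.MP_f0bc87_an.AllNegativeExponents.bern
          (y := sigma p F * ‖x - ζ‖⁻¹) (by positivity) hs
        rw [mul_pow, inv_pow, Real.mul_rpow hσ.le (by positivity), Real.inv_rpow hx.le,
          ← Real.rpow_neg hx.le] at h6
        rw [Multiset.map_cons, Multiset.sum_cons, Multiset.map_cons, Multiset.sum_cons,
          Multiset.card_cons]
        push_cast
        nlinarith
    exact h4 _ hne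
  refine ⟨hσ, ?_, fun heq => ?_, fun hpure => ?_⟩
  · rw [div_le_iff₀ hσs]
    have : 0 ≤ s / 2 * (sigma p F ^ 2 *
      ((derivative F).roots.map (fun w : ℂ => (‖w - ζ‖ ^ 2)⁻¹)).sum -
        ((F.natDegree - 1 : ℕ) : ℝ)) := mul_nonneg (by linarith) (by linarith)
    linarith
  · -- equality
    have h1 : sigma p F ^ s * ((derivative F).roots.map (fun w : ℂ => ‖w - ζ‖ ^ (-s))).sum =
        ((F.natDegree - 1 : ℕ) : ℝ) := by
      rw [heq]; field_simp
    rw [h1] at hber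
    have h2 : sigma p F ^ 2 * ((derivative F).roots.map (fun w : ℂ => (‖w - ζ‖ ^ 2)⁻¹)).sum ≤
        ((F.natDegree - 1 : ℕ) : ℝ) := by
      by_contra hcon
      push Not at hcon
      have : 0 < s / 2 * (sigma p F ^ 2 *
        ((derivative F).roots.map (fun w : ℂ => (‖w - ζ‖ ^ 2)⁻¹)).sum -
        ((F.natDegree - 1 : ℕ) : ℝ)) := mul_pos (by linarith) (by linarith)
      linarith
    have hp2 : (2 + p₀) / 2 < p := by linarith
    obtain ⟨hσ', hb'⟩ := hN F hF ζ hζ hd ((2 + p₀) / 2) le_rfl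
    have hS : 0 < ((derivative F).roots.map (fun w : ℂ => (‖w - ζ‖ ^ 2)⁻¹)).sum := by
      by_contra hcon
      push Not at hcon
      have h3 : sigma p F ^ 2 * ((derivative F).roots.map (fun w : ℂ => (‖w - ζ‖ ^ 2)⁻¹)).sum ≤ 0 :=
        mul_nonpos_of_nonneg_of_nonpos (by positivity) hcon
      have h4 : (1:ℝ) ≤ ((F.natDegree - 1 : ℕ) : ℝ) := by
        exact_mod_cast (by omega : 1 ≤ F.natDegree - 1)
      linarith
    have h3 : sigma p F ≤ sigma ((2 + p₀) / 2) F := by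
      have h4 : sigma p F ^ 2 ≤ sigma ((2 + p₀) / 2) F ^ 2 :=
        le_of_mul_le_mul_right (h2.trans hb') hS
      exact le_of_sq_le_sq h4 hσ'.le
    obtain ⟨c, hc⟩ := exists_min (by linarith : 0 < p) hroot
    have h5 : pmean p F c ≤ pmean ((2 + p₀) / 2) F c := by
      rw [← hc]
      exact h3.trans (sigma_le _ F c)
    have hcirc := on_circle (by omega) (by linarith : 0 < (2 + p₀) / 2) hp2 c h5
    exact extremal_disc hn2 hσ (c := c) (fun z hz => by rw [hcirc z hz, hc]) hζ hd h2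
  · -- pure
    obtain ⟨c, hc1, hc2⟩ := pure_facts hn2 hpure hζ
    have hR : 0 < ‖ζ - c‖ := by
      obtain ⟨w, hw⟩ : ∃ w, w ∈ (derivative F).roots := by
        apply Multiset.exists_mem_of_ne_zero
        intro h0
        have := card_der' (F := F)
        rw [h0, Multiset.card_zero] at this
        omega
      have h1 := hne w hw
      rwa [hc2 w hw, norm_sub_rev] at h1
    have hle : sigma p F ≤ ‖ζ - c‖ := sigma_le_circle hn2 (by linarith) hR.le hc1
    have hsum : ((derivative F).roots.map (fun w : ℂ => ‖w - ζ‖ ^ (-s))).sum =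
        ((F.natDegree - 1 : ℕ) : ℝ) * ‖ζ - c‖ ^ (-s) := by
      rw [Multiset.map_congr rfl (g := fun _ => ‖ζ - c‖ ^ (-s)) fun w hw => by
        rw [hc2 w hw, norm_sub_rev], Multiset.map_const', Multiset.sum_replicate, card_der',
        nsmul_eq_mul]
    refine le_antisymm ?_ ?_
    · rw [hsum, div_eq_mul_inv, Real.rpow_neg hR.le]
      refine mul_le_mul_of_nonneg_left ?_ (by positivity)
      exact inv_anti₀ hσs (Real.rpow_le_rpow hσ.le hle (by linarith))
    · rw [div_le_iff₀ hσs]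
      have : 0 ≤ s / 2 * (sigma p F ^ 2 *
        ((derivative F).roots.map (fun w : ℂ => (‖w - ζ‖ ^ 2)⁻¹)).sum -
          ((F.natDegree - 1 : ℕ) : ℝ)) := mul_nonneg (by linarith) (by linarith)
      linarith

end Pool.Agent.H798.BV
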