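import Pool.Agent.H798.BV.Core3
import Pool.Agent.H798.BV.Pre2

set_option autoImplicit false

open Polynomial

namespace Pool.Agent.H798.BV

/-- the normalised statement in degree `m + 1` -/
def CoreE (p s : ℝ) (m : ℕ) : Prop :=
  ∀ (z : Fin (m + 1) → ℂ) (w : Fin m → ℂ) (a : ℝ), Crit m z w →
      z 0 = a → 0 ≤ a → ∑ j, ‖z j‖ ^ p = m + 1 → (∀ c : ℂ, ∑ j, ‖z j‖ ^ p ≤ ∑ j, ‖z j - c‖ ^ p) →
      (∀ k, w k ≠ a) → ∑ k, ‖((a : ℂ) - w k)⁻¹‖ ^ s < m → False

open Pool.Agent.V1148.Bor Pool.Agent.N795.BV.H916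

theorem redE {p s : ℝ} (hp0 : 0 < p) {m : ℕ} (hm : 1 ≤ m) (hcore : CoreE p s m)
    (F : ℂ[X]) (hF : F.natDegree = m + 1) {ζ : ℂ} (hζ : ζ ∈ F.roots)
    (hd : ζ ∉ (derivative F).roots) :
    0 < sigma p F ∧
      (m : ℝ) ≤ sigma p F ^ s * ((derivative F).roots.map (fun w : ℂ => ‖w - ζ‖⁻¹ ^ s)).sum := by
  have hn0 : 0 < F.natDegree := by omega
  have hn2 : 2 ≤ F.natDegree := by omega
  obtain ⟨Z, hZ, hmean⟩ := fin_of hF
  obtain ⟨W, hR', hW⟩ := critM hF hZ
  obtain ⟨c0, hc0⟩ := exists_min hp0 (exists_root hn2)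
  have hz0' := hζ
  rw [hZ, Multiset.mem_map] at hz0'
  obtain ⟨k0, -, rfl⟩ := hz0'
  have hne : ∀ i, W i ≠ Z k0 := by
    intro i h
    apply hd
    rw [hW, ← h]
    exact Multiset.mem_map_of_mem _ (Finset.mem_univ_val i)
  have hN : (0 : ℝ) < (m : ℝ) + 1 := by positivity
  -- positivity of sigma
  set σ : ℝ := sigma p F with hσ
  have hσ0 : 0 ≤ σ := by rw [hc0]; exact pmean_nonneg _ _ _
  have hσp : σ ^ p = (1 / ((m + 1 : ℕ) : ℝ)) * ∑ i, ‖Z i - c0‖ ^ p := by
    rw [hc0, hmean, ← Real.rpow_mul (by positivity), one_div_mul_cancel hp0.ne', Real.rpow_one]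
  have hσpos : 0 < σ := by
    rcases hσ0.eq_or_lt with h | h
    · exfalso
      rw [← h, Real.zero_rpow hp0.ne'] at hσp
      have h1 : ∑ i, ‖Z i - c0‖ ^ p = 0 := by
        have : (1 / ((m + 1 : ℕ) : ℝ)) ≠ 0 := by positivity
        rcases mul_eq_zero.1 hσp.symm with h2 | h2
        · exact absurd h2 this
        · exact h2
      have h2 : ∀ i, Z i = c0 := by
        intro i
        have h3 := (Finset.sum_eq_zero_iff_of_nonneg (fun i _ => by positivity)).1 h1 i
          (Finset.mem_univ i)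
        rw [Real.rpow_eq_zero (norm_nonneg _) hp0.ne', norm_eq_zero, sub_eq_zero] at h3
        exact h3
      -- then c0 is a critical point
      have hR := hR'
      unfold Crit at hR
      have h4 := congrArg (fun P : ℂ[X] => P.eval c0) hR
      simp only [h2] at h4
      rw [Finset.prod_const, Finset.card_univ, Fintype.card_fin, derivative_pow] at h4
      have hm0 : m ≠ 0 := by omega
      simp only [Nat.add_sub_cancel, derivative_sub, derivative_X, derivative_C, sub_zero, mul_one,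
        eval_mul, eval_pow, eval_sub, eval_X, eval_C, sub_self, zero_pow hm0, mul_zero,
        eval_prod] at h4
      rcases mul_eq_zero.1 h4.symm with h5 | h5
      · exact absurd h5 (by exact_mod_cast Nat.succ_ne_zero m)
      · rw [Finset.prod_eq_zero_iff] at h5
        obtain ⟨i, -, hi⟩ := h5
        apply hne i
        rw [h2 k0]
        exact (sub_eq_zero.1 hi).symm
    · exact h
  refine ⟨hσpos, ?_⟩
  by_contra hlt
  push Not at hlt
  -- the rotation
  obtain ⟨u, hu, hu2⟩ : ∃ u : ℂ, ‖u‖ = 1 ∧ Z k0 - c0 = ‖Z k0 - c0‖ * u := by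
    rcases eq_or_ne (Z k0 - c0) 0 with h | h
    · exact ⟨1, norm_one, by rw [h]; simp⟩
    · have h1 : (‖Z k0 - c0‖ : ℂ) ≠ 0 := by exact_mod_cast (norm_pos_iff.2 h).ne'
      refine ⟨(Z k0 - c0) / ‖Z k0 - c0‖, ?_, ?_⟩
      · rw [norm_div, Complex.norm_real, norm_norm, div_self (norm_pos_iff.2 h).ne']
      · field_simp
  have hu0 : u ≠ 0 := by
    rintro rfl
    simp at hu
  set t : ℂ := σ * u with ht
  have ht0 : t ≠ 0 := mul_ne_zero (by exact_mod_cast hσpos.ne') hu0
  have htn : ‖t‖ = σ := by rw [ht, norm_mul, hu, mul_one, Complex.norm_real, Real.norm_of_nonneg hσ0]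
  set e : Equiv.Perm (Fin (m + 1)) := Equiv.swap 0 k0 with he
  have h1 : Crit m (fun j => (Z (e j) - c0) / t) (fun k => (W k - c0) / t) :=
    rel_aff (crit_perm hR' e) c0 t ht0
  have hsum : ∀ c : ℂ, ∑ j, ‖(Z (e j) - c0) / t - c‖ ^ p = (∑ j, ‖Z j - (c0 + t * c)‖ ^ p) / σ ^ p := by
    intro c
    rw [Equiv.sum_comp e fun j => ‖(Z j - c0) / t - c‖ ^ p, Finset.sum_div]
    refine Finset.sum_congr rfl fun j _ => ?_
    have e1 : (Z j - c0) / t - c = (Z j - (c0 + t * c)) / t := by field_simp; ring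
    rw [e1, norm_div, htn, Real.div_rpow (norm_nonneg _) hσ0]
  have hs0 : ∑ j, ‖(Z (e j) - c0) / t‖ ^ p = (m : ℝ) + 1 := by
    have h2 := hsum 0
    simp only [sub_zero, mul_zero, add_zero] at h2
    rw [h2, hσp]
    have h3 : ∑ i, ‖Z i - c0‖ ^ p ≠ 0 := by
      intro h
      rw [h, mul_zero] at hσp
      have := Real.rpow_pos_of_pos hσpos p
      linarith
    push_cast
    field_simp
  have hmin : ∀ c : ℂ, ∑ j, ‖(Z (e j) - c0) / t‖ ^ p ≤ ∑ j, ‖(Z (e j) - c0) / t - c‖ ^ p := by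
    intro c
    have h2 := hsum 0
    simp only [sub_zero, mul_zero, add_zero] at h2
    rw [h2, hsum c]
    refine div_le_div_of_nonneg_right ?_ (by positivity)
    have h3 : pmean p F c0 ≤ pmean p F (c0 + t * c) := by rw [← hc0]; exact sigma_le _ _ _
    rw [hmean, hmean] at h3
    have h4 := (Real.rpow_le_rpow_iff (by positivity) (by positivity)
      (by positivity : 0 < 1 / p)).1 h3
    exact le_of_mul_le_mul_left h4 (by positivity)
  have e3 : ∀ k, (((‖Z k0 - c0‖ / σ : ℝ) : ℂ)) - (W k - c0) / t = (Z k0 - W k) / t := by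
    intro k
    have e2 : (((‖Z k0 - c0‖ / σ : ℝ) : ℂ)) = (Z k0 - c0) / t := by
      nth_rewrite 2 [hu2]
      rw [ht]
      push_cast
      have : (σ : ℂ) ≠ 0 := by exact_mod_cast hσpos.ne'
      field_simp
    rw [e2]
    ring
  refine hcore (fun j => (Z (e j) - c0) / t) (fun k => (W k - c0) / t) (‖Z k0 - c0‖ / σ) h1 ?_
    (by positivity) hs0 hmin ?_ ?_
  · have e1 : e 0 = k0 := by rw [he]; exact Equiv.swap_apply_left 0 k0
    simp only [e1]
    rw [hu2, ht]
    rw [norm_mul, hu, mul_one, Complex.norm_real, norm_norm]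
    push_cast
    have : (σ : ℂ) ≠ 0 := by exact_mod_cast hσpos.ne'
    field_simp
  · intro k h
    have h5 := e3 k
    rw [← h, sub_self] at h5
    rcases div_eq_zero_iff.1 h5.symm with h6 | h6
    · exact hne k (sub_eq_zero.1 h6).symm
    · exact ht0 h6
  · refine lt_of_eq_of_lt ?_ hlt
    rw [hW, Multiset.map_map]
    change _ = σ ^ s * ∑ k, ‖W k - Z k0‖⁻¹ ^ s
    rw [Finset.mul_sum]
    refine Finset.sum_congr rfl fun k _ => ?_
    simp only [e3]
    rw [inv_div, norm_div, htn, norm_sub_rev, Real.div_rpow hσ0 (norm_nonneg _),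
      Real.inv_rpow (norm_nonneg _), div_eq_mul_inv]

/-- strict Bernoulli, real exponent `s > 1` -/
lemma bern_strict {s y : ℝ} (hs : 1 < s) (hy : 0 ≤ y) (hy1 : y ≠ 1) : 1 + s * (y - 1) < y ^ s := by
  have h := one_add_mul_self_lt_rpow_one_add (s := y - 1) (by linarith) (sub_ne_zero.2 hy1) hs
  have e : 1 + (y - 1) = y := by ring
  rwa [e] at h

lemma bern_weak {s y : ℝ} (hs : 1 ≤ s) (hy : 0 ≤ y) : 1 + s * (y - 1) ≤ y ^ s := by
  have h := one_add_mul_self_le_rpow_one_add (s := y - 1) (by linarith) hs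
  have e : 1 + (y - 1) = y := by ring
  rwa [e] at h

/-- on a multiset: `Re ∑ u ≥ card`, `∑ |u|^s ≤ card` force `u = 1` -/
lemma all_one_s {s : ℝ} (hs : 1 < s) (t : Multiset ℂ) (u : ℂ → ℂ)
    (h1 : (Multiset.card t : ℝ) ≤ ((t.map u).sum).re)
    (h2 : (t.map (fun w => ‖u w‖ ^ s)).sum ≤ Multiset.card t) : ∀ w ∈ t, u w = 1 := by
  have hpt : ∀ w : ℂ, 0 ≤ ‖u w‖ ^ s - (1 + s * ((u w).re - 1)) := by
    intro w
    have h3 := bern_weak hs.le (norm_nonneg (u w))
    have h4 := Complex.re_le_norm (u w)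
    nlinarith
  have hsum : (t.map (fun w => ‖u w‖ ^ s - (1 + s * ((u w).re - 1)))).sum =
      (t.map (fun w => ‖u w‖ ^ s)).sum - ((Multiset.card t : ℝ) + s * (((t.map u).sum).re
        - Multiset.card t)) := by
    clear h1 h2
    induction t using Multiset.induction with
    | empty => simp
    | cons z t ih =>
      rw [Multiset.map_cons, Multiset.sum_cons, ih, Multiset.map_cons, Multiset.sum_cons,
        Multiset.map_cons, Multiset.sum_cons, Complex.add_re, Multiset.card_cons]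
      push_cast
      ring
  intro w hw
  have h5 : ‖u w‖ ^ s - (1 + s * ((u w).re - 1)) ≤
      (t.map (fun w => ‖u w‖ ^ s - (1 + s * ((u w).re - 1)))).sum := by
    apply Multiset.single_le_sum
    · intro x hx
      rw [Multiset.mem_map] at hx
      obtain ⟨w, -, rfl⟩ := hx
      exact hpt w
    · exact Multiset.mem_map_of_mem _ hw
  have h6 : ‖u w‖ ^ s ≤ 1 + s * ((u w).re - 1) := by
    rw [hsum] at h5
    nlinarith
  have h7 : ‖u w‖ = 1 := by
    by_contra hcon
    have h8 := bern_strict hs (norm_nonneg (u w)) hcon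
    have h4 := Complex.re_le_norm (u w)
    nlinarith
  rw [h7, Real.one_rpow] at h6
  have h9 : (u w).re = 1 := by
    have h4 := Complex.re_le_norm (u w)
    rw [h7] at h4
    nlinarith
  have h10 : (u w).im = 0 := by
    have h11 : ‖u w‖ ^ 2 = (u w).re ^ 2 + (u w).im ^ 2 := by
      rw [← Complex.normSq_eq_norm_sq, Complex.normSq_apply]; ring
    rw [h7, h9] at h11
    nlinarith
  exact Complex.ext (by rw [h9]; simp) (by rw [h10]; simp)

open Pool.Agent.Results.MP_f0bc87_an.AllNegativeExponents in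
/-- the equality case on the unit circle for an exponent `s > 1` -/
theorem extremalS {s : ℝ} (hs : 1 < s) {p : ℂ[X]} (hn : 2 ≤ p.natDegree)
    (hp : ∀ z ∈ p.roots, ‖z‖ ≤ 1) {a : ℂ} (ha1 : ‖a‖ = 1)
    (ha : a ∈ p.roots) (hd : a ∉ (derivative p).roots)
    (heq : ((derivative p).roots.map (fun w : ℂ => ‖w - a‖⁻¹ ^ s)).sum ≤
      ((p.natDegree - 1 : ℕ) : ℝ)) :
    ‖a‖ = 1 ∧ p = C p.leadingCoeff * (X ^ p.natDegree - C (a ^ p.natDegree)) := by
  have hcard := card_der hn
  have hall := all_one_s hs (derivative p).roots (fun w => a * (1 / (a - w)))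
    (by rw [hcard]; exact re_sum hn hp ha hd ha1)
    (by
      rw [hcard]
      refine le_trans (le_of_eq ?_) heq
      congr 1
      apply Multiset.map_congr rfl
      intro w _
      rw [norm_mul, ha1, one_mul, norm_div, norm_one, one_div, norm_sub_rev])
  apply extremal hn hp ha hd
  have h1 : ∀ w ∈ (derivative p).roots, (‖w - a‖ ^ 2)⁻¹ = 1 := by
    intro w hw
    have h2 := congrArg norm (hall w hw)
    rw [norm_mul, ha1, one_mul, norm_div, norm_one, one_div] at h2
    rw [norm_sub_rev, ← inv_pow, h2, one_pow]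
  rw [Multiset.map_congr rfl h1, Multiset.map_const', Multiset.sum_replicate, hcard]
  simp

/-- the equality case on a circle, exponent `s > 1` -/
lemma extremal_circle {s : ℝ} (hs : 1 < s) {F : ℂ[X]} (hn : 2 ≤ F.natDegree) {c : ℂ} {R : ℝ}
    (hR : 0 < R) (hc : ∀ z ∈ F.roots, ‖z - c‖ = R) {z : ℂ} (hz : z ∈ F.roots)
    (hcrit : z ∉ (derivative F).roots)
    (heq : R ^ s * ((derivative F).roots.map (fun w : ℂ => ‖w - z‖⁻¹ ^ s)).sum ≤
      ((F.natDegree - 1 : ℕ) : ℝ)) : IsPure F := by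
  have h0 : F ≠ 0 := by rintro rfl; simp at hn
  have hd0 := der_ne hn
  have hRc : (R : ℂ) ≠ 0 := by exact_mod_cast hR.ne'
  set L : ℂ[X] := C (R : ℂ) * X + C c with hL
  have hL1 : L.natDegree = 1 := natDegree_linear hRc
  set G : ℂ[X] := F.comp L with hG
  have hGn : G.natDegree = F.natDegree := by rw [hG, natDegree_comp, hL1, mul_one]
  have hG0 : G ≠ 0 := by
    intro h
    rw [h, natDegree_zero] at hGn
    omega
  have hev : ∀ w : ℂ, G.eval w = F.eval (R * w + c) := fun w => by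
    rw [hG, eval_comp, hL]; simp
  have hdG : derivative G = C (R : ℂ) * (derivative F).comp L := by
    rw [hG, derivative_comp, hL]; simp
  have hdG0 : derivative G ≠ 0 := der_ne (by rw [hGn]; exact hn)
  have hdev : ∀ w : ℂ, (derivative G).eval w = R * (derivative F).eval (R * w + c) := fun w => by
    rw [hdG, eval_mul, eval_C, eval_comp, hL]; simp
  have hroots : ∀ w ∈ G.roots, ‖w‖ ≤ 1 := by
    intro w hw
    rw [mem_roots hG0, IsRoot.def, hev] at hw
    have h1 := (hc _ ((mem_roots h0).2 hw)).le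
    rw [add_sub_cancel_right, norm_mul, Complex.norm_real, Real.norm_of_nonneg hR.le] at h1
    by_contra h2
    push Not at h2
    nlinarith
  set a : ℂ := (z - c) / R with ha
  have hRa : (R : ℂ) * a + c = z := by rw [ha]; field_simp; ring
  have ha1 : ‖a‖ = 1 := by
    rw [ha, norm_div, Complex.norm_real, Real.norm_of_nonneg hR.le, hc z hz, div_self hR.ne']
  have haG : a ∈ G.roots := by
    rw [mem_roots hG0, IsRoot.def, hev, hRa]
    exact (mem_roots h0).1 hz
  have hda : a ∉ (derivative G).roots := by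
    intro h
    rw [mem_roots hdG0, IsRoot.def, hdev, hRa] at h
    rcases mul_eq_zero.1 h with h | h
    · exact hRc h
    · exact hcrit ((mem_roots hd0).2 h)
  -- the roots of the derivative
  have hrd : (derivative G).roots = (derivative F).roots.map (fun w => (w - c) / R) := by
    have h1 := (IsAlgClosed.splits (derivative F)).eq_prod_roots
    have h2 : derivative G = C (R * (derivative F).leadingCoeff *
        (R : ℂ) ^ (Multiset.card (derivative F).roots)) *
        (((derivative F).roots.map (fun w => (w - c) / R)).map (fun w => X - C w)).prod := by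
      rw [hdG]
      conv_lhs => rw [h1]
      rw [mul_comp, C_comp]
      have h3 : ∀ s : Multiset ℂ, ((s.map fun w => X - C w).prod).comp L =
          C ((R : ℂ) ^ (Multiset.card s)) * ((s.map (fun w => (w - c) / R)).map (fun w => X - C w)).prod := by
        intro s
        induction s using Multiset.induction with
        | empty => simp
        | cons x s ih =>
          rw [Multiset.map_cons, Multiset.prod_cons, mul_comp, ih, Multiset.map_cons,
            Multiset.map_cons, Multiset.prod_cons, Multiset.card_cons, pow_succ, C_mul]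
          have h4 : (X - C x : ℂ[X]).comp L = C (R : ℂ) * (X - C ((x - c) / R)) := by
            rw [hL, sub_comp, X_comp, C_comp, mul_sub, ← C_mul, mul_div_cancel₀ _ hRc, C_sub]
            ring
          rw [h4]
          ring
      rw [h3, C_mul, C_mul]
      ring
    have hne : (R * (derivative F).leadingCoeff *
        (R : ℂ) ^ (Multiset.card (derivative F).roots)) ≠ 0 :=
      mul_ne_zero (mul_ne_zero hRc (leadingCoeff_ne_zero.2 hd0)) (pow_ne_zero _ hRc)
    rw [h2, roots_C_mul _ hne, roots_multiset_prod_X_sub_C]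
  have key := extremalS hs
    (by rw [hGn]; exact hn) hroots ha1 haG hda (by
      rw [hGn, hrd, Multiset.map_map]
      refine le_trans (le_of_eq ?_) heq
      rw [← Multiset.sum_map_mul_left]
      refine congrArg Multiset.sum (Multiset.map_congr rfl fun w _ => ?_)
      have h1 : (w - c) / R - a = (w - z) / R := by rw [ha]; ring
      simp only [Function.comp]
      rw [h1, norm_div, Complex.norm_real, Real.norm_of_nonneg hR.le, inv_div,
        Real.div_rpow hR.le (norm_nonneg _), Real.inv_rpow (norm_nonneg _), div_eq_mul_inv])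
  obtain ⟨ha1, hGe⟩ := key
  have hcomp : F = G.comp (C (R : ℂ)⁻¹ * (X - C c)) := by
    rw [hG, comp_assoc]
    have : L.comp (C (R : ℂ)⁻¹ * (X - C c)) = X := by
      rw [hL]
      simp only [add_comp, mul_comp, C_comp, X_comp]
      rw [← mul_assoc, ← C_mul, mul_inv_cancel₀ hRc, C_1, one_mul, sub_add_cancel]
    rw [this, comp_X]
  have hF : F = C (G.leadingCoeff * (R : ℂ)⁻¹ ^ F.natDegree) * (X - C c) ^ F.natDegree -
      C (G.leadingCoeff * a ^ F.natDegree) := by
    have h1 : F = (C G.leadingCoeff * (X ^ G.natDegree - C (a ^ G.natDegree))).comp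
        (C (R : ℂ)⁻¹ * (X - C c)) := by
      rw [← hGe]
      exact hcomp
    rw [hGn] at h1
    have h2 : (C G.leadingCoeff * (X ^ F.natDegree - C (a ^ F.natDegree))).comp
        (C (R : ℂ)⁻¹ * (X - C c)) =
        C (G.leadingCoeff * (R : ℂ)⁻¹ ^ F.natDegree) * (X - C c) ^ F.natDegree -
          C (G.leadingCoeff * a ^ F.natDegree) := by
      simp only [mul_comp, sub_comp, C_comp, X_comp, pow_comp, mul_pow, C_mul, C_pow]
      ring
    exact h1.trans h2
  refine ⟨_, _, c, ?_, hF⟩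
  have := leadingCoeff_ne_zero.2 hG0
  positivity

/-- what the board pieces give -/
def CoreAllE : Prop := ∀ p s : ℝ, 1 < p → 1 < s → 1 / p + 1 / s < 1 →
  ∃ N : ℕ, ∀ m : ℕ, N ≤ m → CoreE p s m

/-- sum of `s`-th powers from the sum of `s₀`-th powers, `s ≥ s₀` -/
lemma sum_bernS {s₀ s : ℝ} (hs₀ : 0 < s₀) (hs : s₀ ≤ s) {σ : ℝ} (hσ : 0 < σ) (ζ : ℂ)
    (t : Multiset ℂ) :
    (Multiset.card t : ℝ) + s / s₀ * (σ ^ s₀ * (t.map (fun w : ℂ => ‖w - ζ‖⁻¹ ^ s₀)).sum
      - (Multiset.card t : ℝ)) ≤ σ ^ s * (t.map (fun w : ℂ => ‖w - ζ‖⁻¹ ^ s)).sum := by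
  induction t using Multiset.induction with
  | empty => simp
  | cons x t ih =>
    have h6 := bern_weak (s := s / s₀) (y := (σ * ‖x - ζ‖⁻¹) ^ s₀)
      (by rwa [one_le_div hs₀]) (by positivity)
    have e1 : ((σ * ‖x - ζ‖⁻¹) ^ s₀) ^ (s / s₀) = σ ^ s * ‖x - ζ‖⁻¹ ^ s := by
      rw [← Real.rpow_mul (by positivity), mul_div_cancel₀ _ hs₀.ne',
        Real.mul_rpow hσ.le (by positivity)]
    have e2 : (σ * ‖x - ζ‖⁻¹) ^ s₀ = σ ^ s₀ * ‖x - ζ‖⁻¹ ^ s₀ :=
      Real.mul_rpow hσ.le (by positivity)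
    rw [e1, e2] at h6
    rw [Multiset.map_cons, Multiset.sum_cons, Multiset.map_cons, Multiset.sum_cons,
      Multiset.card_cons]
    push_cast
    linarith

/-- all dual exponents, with the equality cases -/
theorem full3 (h : CoreAllE) (p₀ s₀ : ℝ) (hp₀ : 1 < p₀) (hs₀ : 1 < s₀) (hps : 1 / p₀ + 1 / s₀ < 1) :
    ∃ N : ℕ, 2 ≤ N ∧ ∀ F : ℂ[X],
    N ≤ F.natDegree → ∀ ζ ∈ F.roots, ζ ∉ (derivative F).roots → ∀ p s : ℝ, p₀ ≤ p → s₀ ≤ s →
      0 < sigma p F ∧
      ((F.natDegree - 1 : ℕ) : ℝ) / sigma p F ^ s ≤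
        ((derivative F).roots.map (fun w : ℂ => ‖w - ζ‖⁻¹ ^ s)).sum ∧
      (((derivative F).roots.map (fun w : ℂ => ‖w - ζ‖⁻¹ ^ s)).sum =
        ((F.natDegree - 1 : ℕ) : ℝ) / sigma p F ^ s ↔ IsPure F) := by
  -- a smaller exponent `p₁ < p₀`
  obtain ⟨p₁, hp₁, hp₁0, hps₁⟩ : ∃ p₁ : ℝ, 1 < p₁ ∧ p₁ < p₀ ∧ 1 / p₁ + 1 / s₀ < 1 := by
    have hs1 : 0 < 1 - 1 / s₀ := by
      have : 1 / s₀ < 1 := by rw [div_lt_one (by linarith)]; exact hs₀
      linarith
    have hs1' : 1 - 1 / s₀ < 1 := by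
      have : 0 < 1 / s₀ := by positivity
      linarith
    set q : ℝ := 1 / (1 - 1 / s₀) with hq
    have hq1 : 1 < q := by rw [hq, lt_div_iff₀ hs1]; linarith
    have hqp : q < p₀ := by
      rw [hq, div_lt_iff₀ hs1]
      have h2 : 1 / p₀ < 1 - 1 / s₀ := by linarith
      rw [div_lt_iff₀ (by linarith)] at h2
      linarith
    refine ⟨(q + p₀) / 2, by linarith, by linarith, ?_⟩
    have h3 : 1 / ((q + p₀) / 2) < 1 / q := one_div_lt_one_div_of_lt (by linarith) (by linarith)
    have h4 : 1 / q = 1 - 1 / s₀ := by rw [hq]; field_simp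
    linarith
  have hs0 : 0 < s₀ := by linarith
  have hp10 : 0 < p₁ := by linarith
  obtain ⟨N, hN⟩ := h p₁ s₀ hp₁ hs₀ hps₁
  -- the bound at `p₁ ≤ p`, exponent `s₀`
  have hb : ∀ F : ℂ[X], max N 1 + 1 ≤ F.natDegree → ∀ ζ ∈ F.roots, ζ ∉ (derivative F).roots →
      ∀ p : ℝ, p₁ ≤ p → 0 < sigma p F ∧ ((F.natDegree - 1 : ℕ) : ℝ) ≤
        sigma p F ^ s₀ * ((derivative F).roots.map (fun w : ℂ => ‖w - ζ‖⁻¹ ^ s₀)).sum := by
    intro F hF ζ hζ hd p hp
    obtain ⟨m, hm⟩ : ∃ m, F.natDegree = m + 1 := ⟨F.natDegree - 1, by omega⟩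
    have h1 := redE (s := s₀) hp10 (m := m) (by omega) (hN m (by omega)) F hm hζ hd
    have h2 : sigma p₁ F ≤ sigma p F := sigma_mono (by omega) hp10 hp
    refine ⟨h1.1.trans_le h2, ?_⟩
    have h3 : F.natDegree - 1 = m := by omega
    rw [h3]
    have h4 : 0 ≤ ((derivative F).roots.map (fun w : ℂ => ‖w - ζ‖⁻¹ ^ s₀)).sum := by
      apply Multiset.sum_nonneg
      intro x hx
      rw [Multiset.mem_map] at hx
      obtain ⟨w, -, rfl⟩ := hx
      positivity
    refine h1.2.trans (mul_le_mul_of_nonneg_right ?_ h4)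
    exact Real.rpow_le_rpow h1.1.le h2 hs0.le
  refine ⟨max N 1 + 1, by omega, fun F hF ζ hζ hd p s hp hs => ?_⟩
  have hn2 : 2 ≤ F.natDegree := by omega
  have hroot := exists_root hn2
  obtain ⟨hσ, hbd⟩ := hb F hF ζ hζ hd p (by linarith)
  have hp0 : 0 < p := by linarith
  have hs1 : 0 < s := by linarith
  have hσs : 0 < sigma p F ^ s := Real.rpow_pos_of_pos hσ s
  have hne : ∀ w ∈ (derivative F).roots, 0 < ‖w - ζ‖ := by
    intro w hw
    rw [norm_pos_iff, sub_ne_zero]
    rintro rfl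
    exact hd hw
  have hber := sum_bernS hs0 hs hσ ζ (derivative F).roots
  rw [card_der'] at hber
  have hq : 0 < s / s₀ := div_pos hs1 hs0
  refine ⟨hσ, ?_, fun heq => ?_, fun hpure => ?_⟩
  · rw [div_le_iff₀ hσs]
    have := mul_nonneg hq.le (sub_nonneg.2 hbd)
    linarith
  · -- equality
    have h1 : sigma p F ^ s * ((derivative F).roots.map (fun w : ℂ => ‖w - ζ‖⁻¹ ^ s)).sum =
        ((F.natDegree - 1 : ℕ) : ℝ) := by
      rw [heq]; field_simp
    rw [h1] at hber
    have h2 : sigma p F ^ s₀ * ((derivative F).roots.map (fun w : ℂ => ‖w - ζ‖⁻¹ ^ s₀)).sum ≤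
        ((F.natDegree - 1 : ℕ) : ℝ) := by
      by_contra hcon
      push Not at hcon
      have := mul_pos hq (sub_pos.2 hcon)
      linarith
    obtain ⟨hσ', hb'⟩ := hb F hF ζ hζ hd p₁ le_rfl
    have hS : 0 < ((derivative F).roots.map (fun w : ℂ => ‖w - ζ‖⁻¹ ^ s₀)).sum := by
      by_contra hcon
      push Not at hcon
      have h3 : sigma p F ^ s₀ * ((derivative F).roots.map (fun w : ℂ => ‖w - ζ‖⁻¹ ^ s₀)).sum ≤ 0 :=
        mul_nonpos_of_nonneg_of_nonpos (by positivity) hcon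
      have h4 : (1:ℝ) ≤ ((F.natDegree - 1 : ℕ) : ℝ) := by
        exact_mod_cast (by omega : 1 ≤ F.natDegree - 1)
      linarith
    have h3 : sigma p F ≤ sigma p₁ F := by
      have h4 : sigma p F ^ s₀ ≤ sigma p₁ F ^ s₀ :=
        le_of_mul_le_mul_right (h2.trans hb') hS
      exact (Real.rpow_le_rpow_iff hσ.le hσ'.le hs0).1 h4
    obtain ⟨c, hc⟩ := exists_min hp0 hroot
    have h5 : pmean p F c ≤ pmean p₁ F c := by
      rw [← hc]
      exact h3.trans (sigma_le _ F c)
    have hcirc := on_circle (by omega) hp10 (by linarith : p₁ < p) c h5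
    exact extremal_circle hs₀ hn2 hσ (c := c) (fun z hz => by rw [hcirc z hz, hc]) hζ hd h2
  · -- pure
    obtain ⟨c, hc1, hc2⟩ := pure_facts hn2 hpure hζ
    have hR : 0 < ‖ζ - c‖ := by
      obtain ⟨w, hw⟩ : ∃ w, w ∈ (derivative F).roots := by
        apply Multiset.exists_mem_of_ne_zero
        intro h0
        have := card_der' (F := F)
        rw [h0, Multiset.card_zero] at this
        omega
      have h1 := hne w hw
      rwa [hc2 w hw, norm_sub_rev] at h1
    have hle : sigma p F ≤ ‖ζ - c‖ := sigma_le_circle hn2 (by linarith) hR.le hc1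
    have hsum : ((derivative F).roots.map (fun w : ℂ => ‖w - ζ‖⁻¹ ^ s)).sum =
        ((F.natDegree - 1 : ℕ) : ℝ) * ‖ζ - c‖⁻¹ ^ s := by
      rw [Multiset.map_congr rfl (g := fun _ => ‖ζ - c‖⁻¹ ^ s) fun w hw => by
        rw [hc2 w hw, norm_sub_rev], Multiset.map_const', Multiset.sum_replicate, card_der',
        nsmul_eq_mul]
    refine le_antisymm ?_ ?_
    · rw [hsum, div_eq_mul_inv, Real.inv_rpow hR.le]
      refine mul_le_mul_of_nonneg_left ?_ (by positivity)
      exact inv_anti₀ hσs (Real.rpow_le_rpow hσ.le hle (by linarith))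
    · rw [div_le_iff₀ hσs]
      have := mul_nonneg hq.le (sub_nonneg.2 hbd)
      linarith

end Pool.Agent.H798.BV
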