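import Pool.Agent.H798.BV.Core3
import Pool.Agent.H798.BV.Red3
import Pool.Agent.H798.BV.Stm7

set_option autoImplicit false

/-!
# The critical pair `p = s = 2`: assembly of the normalised statement
-/

namespace Pool.Agent.H798.BV

/-- the normalised statement in degree `m + 1`, for zeros at distance `≤ A` from the centroid -/
def Core22 (A : ℝ) (m : ℕ) : Prop :=
  ∀ (z : Fin (m + 1) → ℂ) (w : Fin m → ℂ) (a : ℝ), Crit m z w →
      z 0 = a → 0 ≤ a → a ≤ A → ∑ j, ‖z j‖ ^ (2:ℝ) = m + 1 → ∑ j, chi 2 (z j) = 0 →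
      (∀ k, w k ≠ a) → ∑ k, ‖((a : ℂ) - w k)⁻¹‖ ^ (2:ℝ) ≤ m → (∃ k, ‖((a : ℂ) - w k)⁻¹‖ ≠ 1) → False

lemma chi2 (z : ℂ) : chi 2 z = z := by
  unfold chi
  simp

/-- strict power mean inequality -/
lemma strict32 {m : ℕ} (r : Fin m → ℝ) (hr : ∀ k, 0 ≤ r k) (h : ∑ k, r k ^ (2:ℝ) ≤ m)
    (hne : ∃ k, r k ≠ 1) : ∑ k, r k ^ (3 / 2 : ℝ) < m := by
  have hpt : ∀ k, 0 ≤ r k ^ (2:ℝ) - (1 + 4 / 3 * (r k ^ (3 / 2 : ℝ) - 1)) ∧
      (r k ≠ 1 → 0 < r k ^ (2:ℝ) - (1 + 4 / 3 * (r k ^ (3 / 2 : ℝ) - 1))) := by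
    intro k
    have e : r k ^ (2:ℝ) = (r k ^ (3 / 2 : ℝ)) ^ (4 / 3 : ℝ) := by
      rw [← Real.rpow_mul (hr k)]; norm_num
    have h0 : 0 ≤ r k ^ (3 / 2 : ℝ) := Real.rpow_nonneg (hr k) _
    refine ⟨?_, fun hk => ?_⟩
    · rw [e]
      have := bern_weak (s := 4 / 3) (by norm_num) h0
      linarith
    · rw [e]
      have h1 : r k ^ (3 / 2 : ℝ) ≠ 1 := by
        intro h2
        apply hk
        have h3 : (r k ^ (3 / 2 : ℝ)) ^ (2 / 3 : ℝ) = 1 := by rw [h2, Real.one_rpow]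
        rw [← Real.rpow_mul (hr k)] at h3
        norm_num at h3
        exact h3
      have := bern_strict (s := 4 / 3) (by norm_num) h0 h1
      linarith
  obtain ⟨k, hk⟩ := hne
  have h1 : 0 < ∑ k, (r k ^ (2:ℝ) - (1 + 4 / 3 * (r k ^ (3 / 2 : ℝ) - 1))) :=
    Finset.sum_pos' (fun i _ => (hpt i).1) ⟨k, Finset.mem_univ k, (hpt k).2 hk⟩
  rw [Finset.sum_sub_distrib, Finset.sum_add_distrib, ← Finset.mul_sum, Finset.sum_sub_distrib,
    Finset.sum_const, Finset.card_univ, Fintype.card_fin, nsmul_eq_mul, mul_one] at h1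
  linarith

/-- the combination of (L1) and (L2) -/
lemma comb7 (h1 : S_L1) (h2 : S_L2) (C₀ c₀ L : ℝ) (hC : 0 < C₀) (hc : 0 < c₀) (hL : 1 ≤ L) :
    ∃ K ε M : ℝ, 1 ≤ K ∧ 0 < ε ∧ 1 ≤ M ∧ ∀ (m : ℕ) (l : Fin m → ℂ) (a : ℝ), M ≤ m → 0 < a →
      M ≤ m * a ^ 2 → ∑ k, ‖l k‖ ^ 2 ≤ m →
      (∀ S : Finset (Fin m), S.card ≤ 2 → ∀ u : ℝ, 0 ≤ u → u ≤ a →
        ‖fS l S u‖ ≤ C₀ * Real.exp (-(c₀ * (m * u ^ 2)))) →
      0 ≤ ((∑ k, l k) / m).re → ‖(∑ k, l k) / m‖ ≤ 1 / 4 →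
      ∑ k ∈ Finset.univ.filter (fun k => L < ‖l k‖), ‖l k‖ ^ 2 ≤ ε * m →
      (Real.sqrt m * ‖(∑ k, l k) / m‖ ≤ K → ‖yR L l - 1‖ ≤ ε) →
      1 < ‖((m : ℂ) + 1) * ∫ u in (0:ℝ)..a, ∏ k, (1 - (u : ℂ) * l k)‖ := by
  obtain ⟨K, hK1, hK⟩ := h1 C₀ c₀ hC hc
  obtain ⟨ε, c, M, hε, hcc, hM1, hM⟩ := h2 C₀ c₀ L K hC hc hL (by linarith)
  refine ⟨K, ε, max (max M K) ((2 / c) ^ 2), hK1, hε, by
    exact hM1.trans ((le_max_left _ _).trans (le_max_left _ _)), ?_⟩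
  intro m l a hm ha hma hsum hdec hre hs hbig hy
  simp only [max_le_iff] at hm hma
  obtain ⟨⟨hmM, hmK⟩, hmc⟩ := hm
  have hm1' : (1:ℝ) ≤ m := hK1.trans hmK
  have hm1 : 1 ≤ m := by exact_mod_cast hm1'
  have hm0 : (0:ℝ) < m := by linarith
  set I : ℂ := ∫ u in (0:ℝ)..a, ∏ k, (1 - (u : ℂ) * l k) with hI
  have hn : ‖((m : ℂ) + 1) * I‖ = ((m : ℝ) + 1) * ‖I‖ := by
    rw [norm_mul]
    congr 1
    have : ((m : ℂ) + 1) = ((m + 1 : ℕ) : ℂ) := by push_cast; ring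
    rw [this, Complex.norm_natCast]; push_cast; ring
  rw [hn]
  have hI0 : 0 ≤ ‖I‖ := norm_nonneg _
  rcases le_total K (Real.sqrt m * ‖(∑ k, l k) / m‖) with hc1 | hc1
  · have h3 := hK m l a hm1 ha hma.1.2 hsum hdec hc1
    rw [← hI] at h3
    have h4 : (m : ℝ) * ‖(∑ k, l k) / m‖ * ‖I‖ ≤ m * (1 / 4) * ‖I‖ := by gcongr
    nlinarith
  · have h3 := hM m l a hmM ha hma.1.1 hsum (fun u hu0 hu1 => by
      have h5 := hdec ∅ (by simp) u hu0 hu1
      unfold fS at h5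
      rwa [Finset.compl_empty] at h5) hre hc1 hbig (hy hc1)
    rw [← hI] at h3
    have hsq : 2 / c ≤ Real.sqrt m := by
      rw [← Real.sqrt_sq (by positivity : 0 ≤ 2 / c)]
      exact Real.sqrt_le_sqrt hmc
    have hs2 : Real.sqrt m * Real.sqrt m = m := Real.mul_self_sqrt hm0.le
    have h5 : 2 ≤ Real.sqrt m * c := by
      rw [div_le_iff₀ hcc] at hsq
      exact hsq
    have h6 : Real.sqrt m * c ≤ Real.sqrt m * (Real.sqrt m * ‖I‖) :=
      mul_le_mul_of_nonneg_left h3 (Real.sqrt_nonneg _)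
    nlinarith

theorem core7 (hPM : S_PM) (hDB : S_DB) (hF0 : S_F0) (hFP : S_FP) (hLT : S_LOGA) (hC1 : S_C1Q)
    (hG0 : S_G0Q) (h1 : S_L1) (h2 : S_L2) (h3a : S_L3a) (h3b : S_L3b) (h4 : S_L4) (h5 : S_L5)
    (A : ℝ) (hA : 1 ≤ A) : ∃ N : ℕ, ∀ m : ℕ, N ≤ m → Core22 A m := by
  -- small `a`
  obtain ⟨C, hC1', h3b⟩ := h3b
  obtain ⟨K, ε, M, hK, hε, hM, hsm⟩ := comb7 h1 h2 C (1 / 16) 2 (by linarith) (by norm_num) (by norm_num)
  -- the threshold
  set a₁ : ℝ := min (1 / 32) (min (ε / 12) (Real.sqrt (ε / 2))) with ha₁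
  have ha₁0 : 0 < a₁ := by rw [ha₁]; positivity
  have ha₁1 : a₁ ≤ 1 / 32 := min_le_left _ _
  have ha₁2 : a₁ ≤ ε / 12 := (min_le_right _ _).trans (min_le_left _ _)
  have ha₁3 : 2 * a₁ ^ 2 ≤ ε := by
    have h6 : a₁ ≤ Real.sqrt (ε / 2) := (min_le_right _ _).trans (min_le_right _ _)
    have h7 : a₁ ^ 2 ≤ (Real.sqrt (ε / 2)) ^ 2 := pow_le_pow_left₀ ha₁0.le h6 2
    rw [Real.sq_sqrt (by positivity)] at h7
    linarith
  -- middle `a`
  obtain ⟨C4, hC4, h4⟩ := h4 A a₁ ha₁0 (by linarith) hA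
  obtain ⟨δ5, hδ5, N5, h5⟩ := h5 A a₁ C4 ha₁0 (by linarith) hA hC4
  obtain ⟨K', ε', M', hK', hε', hM', hmid⟩ := comb7 h1 h2 8 (1 / (16 * (A + 1) ^ 2)) (2 * (A + 1))
    (by norm_num) (by positivity) (by linarith)
  set η : ℝ := min (1 / 4) ε' / C4 with hη
  have hη0 : 0 < η := by rw [hη]; positivity
  set δ : ℝ := min (min 1 δ5) (min (η ^ 4) (ε' / 8)) with hδ
  have hδ0 : 0 < δ := by rw [hδ]; positivity
  have hδ1 : δ ≤ 1 := (min_le_left _ _).trans (min_le_left _ _)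
  have hδ5' : δ ≤ δ5 := (min_le_left _ _).trans (min_le_right _ _)
  have hδη : δ ≤ η ^ 4 := (min_le_right _ _).trans (min_le_left _ _)
  have hδε : 8 * δ ≤ ε' := by
    have : δ ≤ ε' / 8 := (min_le_right _ _).trans (min_le_right _ _)
    linarith
  have hroot : C4 * Real.sqrt (Real.sqrt δ) ≤ min (1 / 4) ε' := by
    have h6 : Real.sqrt (Real.sqrt δ) ≤ η := by
      rw [Real.sqrt_le_left hη0.le, Real.sqrt_le_left (by positivity)]
      calc δ ≤ η ^ 4 := hδη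
        _ = (η ^ 2) ^ 2 := by ring
    calc C4 * Real.sqrt (Real.sqrt δ) ≤ C4 * η := by gcongr
      _ = min (1 / 4) ε' := by rw [hη]; field_simp
  obtain ⟨M1, hC1⟩ := hC1 (3 / 2) (by norm_num) (by norm_num) A (by linarith) δ hδ0 (1 / (4 * 2)) (by norm_num)
  obtain ⟨M3, hM3⟩ := exists_nat_gt (2 / δ)
  obtain ⟨K2, hK2, hLT⟩ := hLT 2 (by norm_num)
  -- the threshold for `m a²`
  set T : ℝ := max M (max 1 ((K * (8 / ε ) ^ 2) ^ 2)) with hT
  obtain ⟨M4, hM4⟩ := exists_nat_gt (Real.exp (K2 * (1 + T)))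
  obtain ⟨M5, hM5⟩ := exists_nat_gt M
  obtain ⟨M6, hM6⟩ := exists_nat_gt M'
  obtain ⟨M7, hM7⟩ := exists_nat_gt (M' / a₁ ^ 2)
  refine ⟨max 3 (max M1 (max M3 (max M4 (max M5 (max M6 (max M7 N5)))))),
    fun m hm z w a hcr hz0 ha haA hsum hchi hne hinv hneq => ?_⟩
  simp only [max_le_iff] at hm
  obtain ⟨hm3, hmM1, hmM3, hmM4, hmM5, hmM6, hmM7, hmN5⟩ := hm
  have hm0 : (0:ℝ) < m := by exact_mod_cast (by omega : 0 < m)
  have hm1 : (0:ℝ) < (m:ℝ) + 1 := by positivity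
  have hm1' : (1:ℝ) ≤ m := by exact_mod_cast (by omega : 1 ≤ m)
  set l : Fin m → ℂ := fun k => ((a : ℂ) - w k)⁻¹ with hl
  set J : ℂ := ((m : ℂ) + 1) * ∫ u in (0:ℝ)..a, ∏ k, (1 - (u : ℂ) * ((a : ℂ) - w k)⁻¹) with hJ
  have hf0 := hF0 m z w a hcr hz0 hne
  rw [← hJ] at hf0
  have hinv2 : ∑ k, ‖((a : ℂ) - w k)⁻¹‖ ^ 2 ≤ m := by
    simpa only [Real.rpow_two] using hinv
  have hprod : 1 ≤ ∏ k, ‖(a : ℂ) - w k‖ := by
    have h3 : 0 ≤ ∏ k, ‖((a : ℂ) - w k)⁻¹‖ := Finset.prod_nonneg fun _ _ => norm_nonneg _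
    have h1 : (∏ k, ‖((a : ℂ) - w k)⁻¹‖) ≤ 1 := by
      have h2 : (∏ k, ‖((a : ℂ) - w k)⁻¹‖) ^ 2 ≤ 1 := by
        rw [← Finset.prod_pow]
        calc ∏ k, ‖((a : ℂ) - w k)⁻¹‖ ^ 2 ≤ ∏ k, Real.exp (‖((a : ℂ) - w k)⁻¹‖ ^ 2 - 1) :=
              Finset.prod_le_prod (fun _ _ => by positivity) fun k _ => by
                have := Real.add_one_le_exp (‖((a : ℂ) - w k)⁻¹‖ ^ 2 - 1)
                linarith
          _ = Real.exp (∑ k, (‖((a : ℂ) - w k)⁻¹‖ ^ 2 - 1)) := (Real.exp_sum _ _).symm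
          _ ≤ 1 := by
              rw [Real.exp_le_one_iff, Finset.sum_sub_distrib, Finset.sum_const, Finset.card_univ,
                Fintype.card_fin, nsmul_eq_mul, mul_one]
              linarith
      nlinarith
    have h4 : (∏ k, ‖((a : ℂ) - w k)⁻¹‖) * ∏ k, ‖(a : ℂ) - w k‖ = 1 := by
      rw [← Finset.prod_mul_distrib]
      refine Finset.prod_eq_one fun k _ => ?_
      rw [norm_inv]
      exact inv_mul_cancel₀ (norm_ne_zero_iff.2 (sub_ne_zero.2 fun h => hne k h.symm))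
    have h5 : 0 ≤ ∏ k, ‖(a : ℂ) - w k‖ := Finset.prod_nonneg fun _ _ => norm_nonneg _
    nlinarith
  have hzsum : ∑ j, z j = 0 := by
    simpa only [chi2] using hchi
  have hwsum : ∑ k, w k = 0 := by rw [sum_w hPM hcr, hzsum, mul_zero]
  have hJle : ‖J‖ ≤ ‖∏ j, z j‖ := by
    rw [hf0]
    exact le_mul_of_one_le_left (norm_nonneg _) hprod
  have hg0 := hG0 2 (by norm_num) (m + 1) (by omega) z (by rw [hsum]; push_cast; ring) hchi
  have hJ1 : ‖J‖ ≤ 1 := by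
    refine hJle.trans (hg0.trans ?_)
    rw [hzsum]
    simp
  have hsw : ∑ k, ‖w k‖ ^ 2 ≤ m := by
    have h6 := dbsP hPM (p := 2) (by norm_num) hcr 0
    simp only [sub_zero] at h6
    rw [hsum] at h6
    have e : (m : ℝ) / (m + 1) * (m + 1) = m := by field_simp
    rw [e] at h6
    simpa only [Real.rpow_two] using h6
  rcases le_total a a₁ with hsmall | hbig
  · -- small `a`
    have ha4 : a ≤ 1 / 4 := by linarith
    have h1 : (m : ℝ) + 1 ≤ ‖∏ j : Fin m, ((a : ℂ) - z j.succ)‖ := by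
      have h2 := hFP m z w hcr
      rw [hz0] at h2
      rw [h2, norm_mul, norm_prod]
      have h3 : ‖(m : ℂ) + 1‖ = (m : ℝ) + 1 := by
        have : ((m : ℂ) + 1) = ((m + 1 : ℕ) : ℂ) := by push_cast; ring
        rw [this, Complex.norm_natCast]; push_cast; ring
      rw [h3]
      exact le_mul_of_one_le_right hm1.le hprod
    have h2 := hLT m (by omega) z a hz0 ha ha4 hsum hchi h1
    have h3 : T ≤ m * a ^ 2 := by
      by_contra hcon
      push Not at hcon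
      have h4 : Real.log (m + 1) < K2 * (1 + T) :=
        h2.trans_lt (mul_lt_mul_of_pos_left (by linarith) hK2)
      have h5 : (m : ℝ) + 1 < Real.exp (K2 * (1 + T)) := by
        rw [← Real.exp_log hm1]
        exact Real.exp_lt_exp.2 h4
      have h6 : (M4 : ℝ) ≤ m := by exact_mod_cast hmM4
      linarith
    have hTM : M ≤ m * a ^ 2 := (le_max_left _ _).trans h3
    have hT1 : 1 ≤ m * a ^ 2 := (le_max_left _ _).trans ((le_max_right _ _).trans h3)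
    have hTK : (K * (8 / ε) ^ 2) ^ 2 ≤ m * a ^ 2 :=
      (le_max_right _ _).trans ((le_max_right _ _).trans h3)
    have ha0 : 0 < a := by
      rcases ha.eq_or_lt with h | h
      · rw [← h] at hT1
        norm_num at hT1
      · exact h
    obtain ⟨U, hU0, hU1, hs1, hs2, hs3, hs4, hs5⟩ := h3a m w a (by omega) ha0 (by linarith) hne hwsum
      hsw hinv2
    have hdec := h3b m l a U (by omega) ha0 (by linarith) hU0 hU1 hinv2 hs2 hs3 hs5
    have hsqU : Real.sqrt U ≤ 1 := Real.sqrt_le_one.2 hU1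
    have hM5' : M ≤ m := hM5.le.trans (by exact_mod_cast hmM5)
    have key := hsm m l a hM5' ha0 hTM hinv2 hdec ?_ (by
      refine hs1.trans ?_
      linarith) ?_ ?_
    · exact absurd (key.trans_le hJ1) (lt_irrefl _)
    · refine le_trans (mul_nonneg ha0.le ?_) hs2
      linarith
    · refine hs3.trans (mul_le_mul_of_nonneg_right ?_ hm0.le)
      have : a ^ 2 ≤ a₁ ^ 2 := pow_le_pow_left₀ ha0.le hsmall 2
      linarith
    · intro hKs
      refine hs4.trans ?_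
      -- `1 - √U` is small
      have h7 : Real.sqrt m * (a * (1 - Real.sqrt U)) ≤ K := by
        refine le_trans (mul_le_mul_of_nonneg_left (hs2.trans (Complex.re_le_norm _))
          (Real.sqrt_nonneg _)) hKs
      have h8 : K * (8 / ε) ^ 2 ≤ Real.sqrt m * a := by
        have h9 : 0 ≤ K * (8 / ε) ^ 2 := by positivity
        refine le_of_sq_le_sq ?_ (by positivity)
        calc (K * (8 / ε) ^ 2) ^ 2 ≤ m * a ^ 2 := hTK
          _ = (Real.sqrt m * a) ^ 2 := by rw [mul_pow (Real.sqrt m) a, Real.sq_sqrt hm0.le]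
      have h9 : 1 - Real.sqrt U ≤ (ε / 8) ^ 2 := by
        by_contra hcon
        push Not at hcon
        have h10 : K * (8 / ε) ^ 2 * (ε / 8) ^ 2 < Real.sqrt m * a * (1 - Real.sqrt U) := by
          have h11 : 0 < K * (8 / ε) ^ 2 := by positivity
          calc K * (8 / ε) ^ 2 * (ε / 8) ^ 2 < K * (8 / ε) ^ 2 * (1 - Real.sqrt U) :=
                mul_lt_mul_of_pos_left hcon h11
            _ ≤ Real.sqrt m * a * (1 - Real.sqrt U) :=
                mul_le_mul_of_nonneg_right h8 (by linarith)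
        have h12 : K * (8 / ε) ^ 2 * (ε / 8) ^ 2 = K := by field_simp
        rw [h12] at h10
        nlinarith
      have h10 : 1 - U ≤ 2 * (ε / 8) ^ 2 := by
        have h11 : Real.sqrt U * Real.sqrt U = U := Real.mul_self_sqrt hU0
        have h12 := Real.sqrt_nonneg U
        nlinarith
      have h11 : Real.sqrt (1 - U) ≤ 2 * (ε / 8) := by
        rw [Real.sqrt_le_left (by positivity)]
        nlinarith [sq_nonneg (ε / 8)]
      linarith
  · -- middle `a`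
    have ha0 : 0 < a := ha₁0.trans_le hbig
    have hbeta : ∀ k, ‖1 - (a : ℂ) * ((a : ℂ) - w k)⁻¹‖ = ‖w k‖ * ‖((a : ℂ) - w k)⁻¹‖ := by
      intro k
      have h1 : (a : ℂ) - w k ≠ 0 := sub_ne_zero.2 fun h => hne k h.symm
      have h2 : 1 - (a : ℂ) * ((a : ℂ) - w k)⁻¹ = -(w k * ((a : ℂ) - w k)⁻¹) := by
        field_simp; ring
      rw [h2, norm_neg, norm_mul]
    rcases le_total ((1 - δ) * m) (∑ k, ‖w k‖ * ‖((a : ℂ) - w k)⁻¹‖) with hθ | hθ
    · -- `θ` near `1`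
      obtain ⟨g1, g2, g3, g4, g5, g6⟩ := h4 m w a δ (by omega) hbig haA hδ0 hδ1 hne hwsum hsw
        hinv2 hθ
      have hle : ∑ k, ‖1 - (a : ℂ) * l k‖ ≤ m := by
        calc ∑ k, ‖1 - (a : ℂ) * l k‖ = ∑ k, ‖w k‖ * ‖((a : ℂ) - w k)⁻¹‖ :=
              Finset.sum_congr rfl fun k _ => hbeta k
          _ ≤ ∑ k, (‖w k‖ ^ 2 + ‖((a : ℂ) - w k)⁻¹‖ ^ 2) / 2 := Finset.sum_le_sum fun k _ => by
              nlinarith [sq_nonneg (‖w k‖ - ‖((a : ℂ) - w k)⁻¹‖)]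
          _ = (∑ k, ‖w k‖ ^ 2 + ∑ k, ‖((a : ℂ) - w k)⁻¹‖ ^ 2) / 2 := by
              rw [← Finset.sum_div, Finset.sum_add_distrib]
          _ ≤ m := by linarith
      have hdec := h5 m l a δ hmN5 hbig haA hδ0 hδ5' hle g5 g6
      have hM6' : M' ≤ m := hM6.le.trans (by exact_mod_cast hmM6)
      have hM7' : M' ≤ m * a ^ 2 := by
        have h6 : M' / a₁ ^ 2 ≤ m := hM7.le.trans (by exact_mod_cast hmM7)
        rw [div_le_iff₀ (by positivity)] at h6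
        refine h6.trans (mul_le_mul_of_nonneg_left (pow_le_pow_left₀ ha₁0.le hbig 2) hm0.le)
      have key := hmid m l a hM6' ha0 hM7' hinv2 hdec g1
        (g2.trans (hroot.trans (min_le_left _ _)))
        (g4.trans (mul_le_mul_of_nonneg_right hδε hm0.le))
        (fun _ => g3.trans (hroot.trans (min_le_right _ _)))
      exact absurd (key.trans_le hJ1) (lt_irrefl _)
    · have hmδ : 2 < m * δ := by
        have h1 : (M3 : ℝ) ≤ m := by exact_mod_cast hmM3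
        have h2 : 2 / δ < m := hM3.trans_le h1
        rwa [div_lt_iff₀ hδ0] at h2
      have hdb := hDB m hm3 (fun k => ((a : ℂ) - w k)⁻¹) a δ ha0 (by
        rw [Finset.sum_congr rfl fun k _ => hbeta k]
        exact hθ) hmδ
      rw [← hJ] at hdb
      refine hC1 m hmM1 a ha0 haA w hne (strict32 (fun k => ‖((a : ℂ) - w k)⁻¹‖)
        (fun k => norm_nonneg _) hinv hneq) (hsw.trans ?_) ?_ hθ J ?_ hdb
      · nlinarith
      · rw [hwsum]; simp
      · refine hJ1.trans (le_of_eq ?_)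
        rw [hwsum]
        simp

end Pool.Agent.H798.BV
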