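import Pool.Agent.H798.BV.Sharp2

set_option autoImplicit false

open Polynomial

namespace Pool.Agent.H798.BV

open Pool.Agent.V1148.Bor

lemma Fs_sumS (m : ℕ) (s : ℝ) :
    ((derivative (Fs m)).roots.map (fun w : ℂ => ‖w - 0‖⁻¹ ^ s)).sum = (m : ℝ) + ((m : ℝ) + 2) ^ s := by
  rw [Fs_der_roots, Multiset.map_add, Multiset.sum_add, Multiset.map_replicate,
    Multiset.sum_replicate, Multiset.map_singleton, Multiset.sum_singleton]
  have h : ‖((m : ℂ) + 2)‖ = (m : ℝ) + 2 := by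
    have : ((m : ℂ) + 2) = ((m + 2 : ℕ) : ℂ) := by push_cast; ring
    rw [this, Complex.norm_natCast]; push_cast; ring
  rw [sub_zero, sub_zero, norm_one, inv_one, Real.one_rpow, nsmul_eq_mul, mul_one, norm_inv, h,
    inv_inv]

theorem sharp3 (p s : ℝ) (hp : 0 < p) (hs : 0 < s) (hps : 1 < 1 / p + 1 / s) : ∃ N : ℕ, ∀ n : ℕ,
    N ≤ n → ∃ (F : ℂ[X]) (ζ : ℂ), F.natDegree = n ∧ ζ ∈ F.roots ∧ ζ ∉ (derivative F).roots ∧
      sigma p F ^ s * ((derivative F).roots.map (fun w : ℂ => ‖w - ζ‖⁻¹ ^ s)).sum <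
        ((n - 1 : ℕ) : ℝ) := by
  have hexp : 0 < 1 - (max s 1 - s / p) := by
    rcases le_total s 1 with h | h
    · rw [max_eq_right h]
      have : 0 < s / p := div_pos hs hp
      linarith
    · rw [max_eq_left h]
      have h2 : s * 1 < s * (1 / p + 1 / s) := mul_lt_mul_of_pos_left hps hs
      have h3 : s * (1 / p + 1 / s) = s / p + 1 := by field_simp
      linarith
  have hlim := (tendsto_rpow_atTop hexp).comp (tendsto_natCast_atTop_atTop (R := ℝ))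
  obtain ⟨N, hN⟩ := Filter.eventually_atTop.1 (hlim.eventually_gt_atTop 4)
  refine ⟨max N 2, fun n hn => ?_⟩
  obtain ⟨m, rfl⟩ : ∃ m, n = m + 2 := ⟨n - 2, by omega⟩
  have h1 := hN (m + 2) (by omega)
  simp only [Function.comp] at h1
  push_cast at h1
  have hm0 : (0:ℝ) ≤ m := Nat.cast_nonneg m
  have hm2 : (0:ℝ) < (m:ℝ) + 2 := by positivity
  refine ⟨Fs m, 0, Fs_deg m, ?_, ?_, ?_⟩
  · rw [Fs_roots]; simp
  · rw [Fs_der_roots, Multiset.mem_add, Multiset.mem_singleton]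
    have h : ((m : ℂ) + 2) ≠ 0 := by
      have : ((m : ℂ) + 2) = ((m + 2 : ℕ) : ℂ) := by push_cast; ring
      rw [this]
      exact_mod_cast (by omega : m + 2 ≠ 0)
    rintro (h2 | h2)
    · exact zero_ne_one (Multiset.eq_of_mem_replicate h2)
    · exact inv_ne_zero h h2.symm
  · rw [Fs_sumS]
    have hs0 : 0 ≤ sigma p (Fs m) := by
      unfold sigma
      exact Real.iInf_nonneg fun c => pmean_nonneg _ _ _
    have h2 : sigma p (Fs m) ^ s ≤ ((m:ℝ) + 2) ^ (-(s / p)) := by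
      calc sigma p (Fs m) ^ s ≤ (((m : ℝ) + 2) ^ (-(1 / p))) ^ s :=
            Real.rpow_le_rpow hs0 (Fs_sigma m hp) hs.le
        _ = ((m:ℝ) + 2) ^ (-(s / p)) := by
            rw [← Real.rpow_mul hm2.le]; congr 1; ring
    have h3 : (m : ℝ) + ((m : ℝ) + 2) ^ s ≤ 2 * ((m:ℝ) + 2) ^ (max s 1) := by
      have e1 : ((m : ℝ) + 2) ^ s ≤ ((m:ℝ) + 2) ^ (max s 1) :=
        Real.rpow_le_rpow_of_exponent_le (by linarith) (le_max_left _ _)
      have e2 : ((m : ℝ) + 2) ^ (1:ℝ) ≤ ((m:ℝ) + 2) ^ (max s 1) :=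
        Real.rpow_le_rpow_of_exponent_le (by linarith) (le_max_right _ _)
      rw [Real.rpow_one] at e2
      linarith
    have h6 : ((m + 2 - 1 : ℕ) : ℝ) = (m:ℝ) + 1 := by
      have : m + 2 - 1 = m + 1 := by omega
      rw [this]; push_cast; ring
    rw [h6]
    have h7 : ((m:ℝ) + 2) ^ (-(s / p)) * (2 * ((m:ℝ) + 2) ^ (max s 1)) =
        2 * (((m:ℝ) + 2) / ((m:ℝ) + 2) ^ (1 - (max s 1 - s / p))) := by
      have e3 : ((m:ℝ) + 2) ^ (-(s / p)) * ((m:ℝ) + 2) ^ (max s 1) *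
          ((m:ℝ) + 2) ^ (1 - (max s 1 - s / p)) = (m:ℝ) + 2 := by
        rw [← Real.rpow_add hm2, ← Real.rpow_add hm2]
        have : -(s / p) + max s 1 + (1 - (max s 1 - s / p)) = 1 := by ring
        rw [this, Real.rpow_one]
      have e4 : 0 < ((m:ℝ) + 2) ^ (1 - (max s 1 - s / p)) := by positivity
      have e5 : ((m:ℝ) + 2) ^ (-(s / p)) * ((m:ℝ) + 2) ^ (max s 1) =
          ((m:ℝ) + 2) / ((m:ℝ) + 2) ^ (1 - (max s 1 - s / p)) := by
        rw [eq_div_iff e4.ne']; exact e3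
      rw [← e5]; ring
    calc sigma p (Fs m) ^ s * ((m : ℝ) + ((m : ℝ) + 2) ^ s) ≤
        ((m:ℝ) + 2) ^ (-(s / p)) * (2 * ((m:ℝ) + 2) ^ (max s 1)) :=
          mul_le_mul h2 h3 (by positivity) (by positivity)
      _ = 2 * (((m:ℝ) + 2) / ((m:ℝ) + 2) ^ (1 - (max s 1 - s / p))) := h7
      _ < 2 * (((m:ℝ) + 2) / 4) := by
          apply mul_lt_mul_of_pos_left _ (by norm_num)
          exact div_lt_div_of_pos_left hm2 (by norm_num) h1
      _ ≤ (m:ℝ) + 1 := by linarith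

end Pool.Agent.H798.BV
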