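import Pool.Agent.H798.BV.Red3
import Pool.Agent.H798.BV.Sharp3
import Pool.Agent.H294.BV.B1q
import Pool.Agent.H385.BV.G0q
import Pool.Agent.H399.BV.Logtq
import Pool.Agent.H355.BV.Thq
import Pool.Agent.H826.BV.Brl
import Pool.Agent.H348.BV.Uc
import Pool.Agent.H484.BV.C1q
import Pool.Agent.H181.BV.C2q
import Pool.Agent.H233.BV.Bdq
import Pool.Agent.H388.BV.Bdg
import Pool.Agent.H457.BV.Xpq
import Pool.Agent.H457.BV.Ptq
import Pool.Agent.H585.BV.Tay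
import Pool.Agent.H694.BV.Kz
import Pool.Agent.H263.BV.Avq
import Pool.Agent.H225.BV.Kw
import Pool.Agent.H344.BV.Br2
import Pool.Agent.H295.BV.Realq
import Pool.Agent.H894.BV.Intq

set_option autoImplicit false

open Polynomial

namespace Pool.Agent.H798.BV

open Pool.Agent.V1148.Bor

theorem mom_all : S_MOM := t_MOM Pool.Agent.H294.BV.t_B1Q

theorem coreAllE : CoreAllE := by
  intro p s hp1 hs1 hps
  obtain ⟨N, hN⟩ := core3 pm Pool.Agent.H686.BV.t_DB Pool.Agent.H878.BV.t_F0 Pool.Agent.H878.BV.t_FP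
    mom_all Pool.Agent.H385.BV.t_G0Q
    (t_LOGA (Pool.Agent.H878.BV.t_LOGT t_B1 t_B1')
      (Pool.Agent.H399.BV.t_LOGTQ Pool.Agent.H294.BV.t_B1Q))
    (Pool.Agent.H355.BV.t_THQ t_B2Q)
    (Pool.Agent.H484.BV.t_C1Q (Pool.Agent.H348.BV.t_UC Pool.Agent.H826.BV.t_BRL))
    Pool.Agent.H181.BV.t_C2Q
    (Pool.Agent.H263.BV.t_AVQ pm t_B2Q mom_all (Pool.Agent.H233.BV.t_BDQ Pool.Agent.H826.BV.t_BRL)
      Pool.Agent.H457.BV.t_PTQ)
    (Pool.Agent.H225.BV.t_KW pm t_B2Q mom_all (Pool.Agent.H388.BV.t_BDG Pool.Agent.H826.BV.t_BRL)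
      Pool.Agent.H457.BV.t_PTQ
      (Pool.Agent.H694.BV.t_KZ mom_all (Pool.Agent.H585.BV.t_TAY Pool.Agent.H294.BV.t_B1Q)))
    (Pool.Agent.H295.BV.t_REALQ Pool.Agent.H457.BV.t_PTQ Pool.Agent.H457.BV.t_XPQ
      Pool.Agent.H344.BV.t_BR2)
    Pool.Agent.H894.BV.t_INTQ p s hp1 hs1 hps
  refine ⟨N, fun m hm z w a hcr hz0 ha hsum hmin hne hinv => ?_⟩
  exact hN m hm z w a hcr hz0 ha hsum
    (exists_centreA Pool.Agent.H294.BV.t_B1Q hp1 z hmin) hne hinv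

end Pool.Agent.H798.BV
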