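import Pool.Agent.H798.BV.Core7
import Pool.Agent.H798.BV.Pre2
import Pool.Agent.H798.BV.Red3

set_option autoImplicit false

open Polynomial

namespace Pool.Agent.H798.BV

/-- the normalised statement in degree `m + 1`, for zeros at distance `≤ A` from the centre -/
def CoreEA (p s A : ℝ) (m : ℕ) : Prop :=
  ∀ (z : Fin (m + 1) → ℂ) (w : Fin m → ℂ) (a : ℝ), Crit m z w →
      z 0 = a → 0 ≤ a → a ≤ A → ∑ j, ‖z j‖ ^ p = m + 1 →
      (∀ c : ℂ, ∑ j, ‖z j‖ ^ p ≤ ∑ j, ‖z j - c‖ ^ p) →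
      (∀ k, w k ≠ a) → ∑ k, ‖((a : ℂ) - w k)⁻¹‖ ^ s ≤ m → (∃ k, ‖((a : ℂ) - w k)⁻¹‖ ≠ 1) → False

open Pool.Agent.V1148.Bor Pool.Agent.N795.BV.H916

theorem redEA {p s A : ℝ} (hp0 : 0 < p) {m : ℕ} (hm : 1 ≤ m) (hcore : CoreEA p s A m)
    (F : ℂ[X]) (hF : F.natDegree = m + 1) {ζ : ℂ} (hζ : ζ ∈ F.roots)
    (hd : ζ ∉ (derivative F).roots)
    (hA : ∀ c : ℂ, sigma p F = pmean p F c → ‖ζ - c‖ ≤ A * sigma p F) :
    0 < sigma p F ∧
      (m : ℝ) ≤ sigma p F ^ s * ((derivative F).roots.map (fun w : ℂ => ‖w - ζ‖⁻¹ ^ s)).sum ∧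
      (sigma p F ^ s * ((derivative F).roots.map (fun w : ℂ => ‖w - ζ‖⁻¹ ^ s)).sum ≤ m →
        ∀ w ∈ (derivative F).roots, ‖w - ζ‖ = sigma p F) := by
  have hn0 : 0 < F.natDegree := by omega
  have hn2 : 2 ≤ F.natDegree := by omega
  obtain ⟨Z, hZ, hmean⟩ := fin_of hF
  obtain ⟨W, hR', hW⟩ := critM hF hZ
  obtain ⟨c0, hc0⟩ := exists_min hp0 (exists_root hn2)
  have hz0' := hζ
  rw [hZ, Multiset.mem_map] at hz0'
  obtain ⟨k0, -, rfl⟩ := hz0'
  have hne : ∀ i, W i ≠ Z k0 := by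
    intro i h
    apply hd
    rw [hW, ← h]
    exact Multiset.mem_map_of_mem _ (Finset.mem_univ_val i)
  have hN : (0 : ℝ) < (m : ℝ) + 1 := by positivity
  -- positivity of sigma
  set σ : ℝ := sigma p F with hσ
  have hσ0 : 0 ≤ σ := by rw [hc0]; exact pmean_nonneg _ _ _
  have hσp : σ ^ p = (1 / ((m + 1 : ℕ) : ℝ)) * ∑ i, ‖Z i - c0‖ ^ p := by
    rw [hc0, hmean, ← Real.rpow_mul (by positivity), one_div_mul_cancel hp0.ne', Real.rpow_one]
  have hσpos : 0 < σ := by
    rcases hσ0.eq_or_lt with h | h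
    · exfalso
      rw [← h, Real.zero_rpow hp0.ne'] at hσp
      have h1 : ∑ i, ‖Z i - c0‖ ^ p = 0 := by
        have : (1 / ((m + 1 : ℕ) : ℝ)) ≠ 0 := by positivity
        rcases mul_eq_zero.1 hσp.symm with h2 | h2
        · exact absurd h2 this
        · exact h2
      have h2 : ∀ i, Z i = c0 := by
        intro i
        have h3 := (Finset.sum_eq_zero_iff_of_nonneg (fun i _ => by positivity)).1 h1 i
          (Finset.mem_univ i)
        rw [Real.rpow_eq_zero (norm_nonneg _) hp0.ne', norm_eq_zero, sub_eq_zero] at h3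
        exact h3
      -- then c0 is a critical point
      have hR := hR'
      unfold Crit at hR
      have h4 := congrArg (fun P : ℂ[X] => P.eval c0) hR
      simp only [h2] at h4
      rw [Finset.prod_const, Finset.card_univ, Fintype.card_fin, derivative_pow] at h4
      have hm0 : m ≠ 0 := by omega
      simp only [Nat.add_sub_cancel, derivative_sub, derivative_X, derivative_C, sub_zero, mul_one,
        eval_mul, eval_pow, eval_sub, eval_X, eval_C, sub_self, zero_pow hm0, mul_zero,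
        eval_prod] at h4
      rcases mul_eq_zero.1 h4.symm with h5 | h5
      · exact absurd h5 (by exact_mod_cast Nat.succ_ne_zero m)
      · rw [Finset.prod_eq_zero_iff] at h5
        obtain ⟨i, -, hi⟩ := h5
        apply hne i
        rw [h2 k0]
        exact (sub_eq_zero.1 hi).symm
    · exact h
  have hWmem : ∀ k, W k ∈ (derivative F).roots := fun k => by
    rw [hW]
    exact Multiset.mem_map_of_mem _ (Finset.mem_univ_val k)
  have hXeq : sigma p F ^ s * ((derivative F).roots.map (fun w : ℂ => ‖w - Z k0‖⁻¹ ^ s)).sum =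
      σ ^ s * ∑ k, ‖W k - Z k0‖⁻¹ ^ s := by
    rw [hW, Multiset.map_map]
    rfl
  rw [hXeq]
  suffices hmain : σ ^ s * ∑ k, ‖W k - Z k0‖⁻¹ ^ s ≤ m → ∀ k, ‖W k - Z k0‖ = σ by
    refine ⟨hσpos, ?_, fun hle w hw => ?_⟩
    · rcases le_total (σ ^ s * ∑ k, ‖W k - Z k0‖⁻¹ ^ s) m with h | h
      · have h2 := hmain h
        refine le_of_eq ?_
        rw [Finset.sum_congr rfl fun k _ => by rw [h2 k], Finset.sum_const, Finset.card_univ,
          Fintype.card_fin, nsmul_eq_mul, Real.inv_rpow hσ0]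
        have : σ ^ s ≠ 0 := (Real.rpow_pos_of_pos hσpos s).ne'
        field_simp
      · exact h
    · rw [hW, Multiset.mem_map] at hw
      obtain ⟨k, -, rfl⟩ := hw
      exact hmain hle k
  intro hlt
  by_contra hall
  push Not at hall
  -- the rotation
  obtain ⟨u, hu, hu2⟩ : ∃ u : ℂ, ‖u‖ = 1 ∧ Z k0 - c0 = ‖Z k0 - c0‖ * u := by
    rcases eq_or_ne (Z k0 - c0) 0 with h | h
    · exact ⟨1, norm_one, by rw [h]; simp⟩
    · have h1 : (‖Z k0 - c0‖ : ℂ) ≠ 0 := by exact_mod_cast (norm_pos_iff.2 h).ne'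
      refine ⟨(Z k0 - c0) / ‖Z k0 - c0‖, ?_, ?_⟩
      · rw [norm_div, Complex.norm_real, norm_norm, div_self (norm_pos_iff.2 h).ne']
      · field_simp
  have hu0 : u ≠ 0 := by
    rintro rfl
    simp at hu
  set t : ℂ := σ * u with ht
  have ht0 : t ≠ 0 := mul_ne_zero (by exact_mod_cast hσpos.ne') hu0
  have htn : ‖t‖ = σ := by rw [ht, norm_mul, hu, mul_one, Complex.norm_real, Real.norm_of_nonneg hσ0]
  set e : Equiv.Perm (Fin (m + 1)) := Equiv.swap 0 k0 with he
  have h1 : Crit m (fun j => (Z (e j) - c0) / t) (fun k => (W k - c0) / t) :=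
    rel_aff (crit_perm hR' e) c0 t ht0
  have hsum : ∀ c : ℂ, ∑ j, ‖(Z (e j) - c0) / t - c‖ ^ p = (∑ j, ‖Z j - (c0 + t * c)‖ ^ p) / σ ^ p := by
    intro c
    rw [Equiv.sum_comp e fun j => ‖(Z j - c0) / t - c‖ ^ p, Finset.sum_div]
    refine Finset.sum_congr rfl fun j _ => ?_
    have e1 : (Z j - c0) / t - c = (Z j - (c0 + t * c)) / t := by field_simp; ring
    rw [e1, norm_div, htn, Real.div_rpow (norm_nonneg _) hσ0]
  have hs0 : ∑ j, ‖(Z (e j) - c0) / t‖ ^ p = (m : ℝ) + 1 := by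
    have h2 := hsum 0
    simp only [sub_zero, mul_zero, add_zero] at h2
    rw [h2, hσp]
    have h3 : ∑ i, ‖Z i - c0‖ ^ p ≠ 0 := by
      intro h
      rw [h, mul_zero] at hσp
      have := Real.rpow_pos_of_pos hσpos p
      linarith
    push_cast
    field_simp
  have hmin : ∀ c : ℂ, ∑ j, ‖(Z (e j) - c0) / t‖ ^ p ≤ ∑ j, ‖(Z (e j) - c0) / t - c‖ ^ p := by
    intro c
    have h2 := hsum 0
    simp only [sub_zero, mul_zero, add_zero] at h2
    rw [h2, hsum c]
    refine div_le_div_of_nonneg_right ?_ (by positivity)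
    have h3 : pmean p F c0 ≤ pmean p F (c0 + t * c) := by rw [← hc0]; exact sigma_le _ _ _
    rw [hmean, hmean] at h3
    have h4 := (Real.rpow_le_rpow_iff (by positivity) (by positivity)
      (by positivity : 0 < 1 / p)).1 h3
    exact le_of_mul_le_mul_left h4 (by positivity)
  have e3 : ∀ k, (((‖Z k0 - c0‖ / σ : ℝ) : ℂ)) - (W k - c0) / t = (Z k0 - W k) / t := by
    intro k
    have e2 : (((‖Z k0 - c0‖ / σ : ℝ) : ℂ)) = (Z k0 - c0) / t := by
      nth_rewrite 2 [hu2]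
      rw [ht]
      push_cast
      have : (σ : ℂ) ≠ 0 := by exact_mod_cast hσpos.ne'
      field_simp
    rw [e2]
    ring
  refine hcore (fun j => (Z (e j) - c0) / t) (fun k => (W k - c0) / t) (‖Z k0 - c0‖ / σ) h1 ?_
    (by positivity) (by
      rw [div_le_iff₀ hσpos]
      exact hA c0 hc0) hs0 hmin ?_ ?_ ?_
  · have e1 : e 0 = k0 := by rw [he]; exact Equiv.swap_apply_left 0 k0
    simp only [e1]
    rw [hu2, ht]
    rw [norm_mul, hu, mul_one, Complex.norm_real, norm_norm]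
    push_cast
    have : (σ : ℂ) ≠ 0 := by exact_mod_cast hσpos.ne'
    field_simp
  · intro k h
    have h5 := e3 k
    rw [← h, sub_self] at h5
    rcases div_eq_zero_iff.1 h5.symm with h6 | h6
    · exact hne k (sub_eq_zero.1 h6).symm
    · exact ht0 h6
  · refine le_trans (le_of_eq ?_) hlt
    rw [Finset.mul_sum]
    refine Finset.sum_congr rfl fun k _ => ?_
    simp only [e3]
    rw [inv_div, norm_div, htn, norm_sub_rev, Real.div_rpow hσ0 (norm_nonneg _),
      Real.inv_rpow (norm_nonneg _), div_eq_mul_inv]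
  · obtain ⟨k, hk⟩ := hall
    refine ⟨k, fun h => hk ?_⟩
    rw [e3, inv_div, norm_div, htn, norm_sub_rev] at h
    have h6 : ‖W k - Z k0‖ ≠ 0 := norm_ne_zero_iff.2 (sub_ne_zero.2 (hne k))
    rw [div_eq_one_iff_eq h6] at h
    exact h.symm


/-- the quadratic centre is the centroid -/
lemma centre_two {F : ℂ[X]} (hn : 1 ≤ F.natDegree) {c : ℂ} (hc : sigma 2 F = pmean 2 F c) :
    c = F.roots.sum / F.natDegree := by
  obtain ⟨m, hm⟩ : ∃ m, F.natDegree = m + 1 := ⟨F.natDegree - 1, by omega⟩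
  obtain ⟨Z, hZ, hmean⟩ := fin_of hm
  set g : ℂ := F.roots.sum / F.natDegree with hg
  have hN : (0 : ℝ) < (m : ℝ) + 1 := by positivity
  have hNc : ((m : ℂ) + 1) ≠ 0 := by exact_mod_cast hN.ne'
  have hgs : ∑ i, Z i = ((m : ℂ) + 1) * g := by
    have h1 : F.roots.sum = ∑ i, Z i := by rw [hZ]; rfl
    rw [hg, h1, hm]
    push_cast
    field_simp
  have h1 : pmean 2 F c ≤ pmean 2 F g := by rw [← hc]; exact sigma_le _ _ _
  rw [hmean, hmean] at h1
  have h2 := (Real.rpow_le_rpow_iff (by positivity) (by positivity)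
      (by norm_num : (0:ℝ) < 1 / 2)).1 h1
  have h3 : ∑ i, ‖Z i - c‖ ^ (2:ℝ) ≤ ∑ i, ‖Z i - g‖ ^ (2:ℝ) :=
    le_of_mul_le_mul_left h2 (by positivity)
  simp only [Real.rpow_two] at h3
  have h4 : ∀ i, ‖Z i - c‖ ^ 2 = ‖Z i - g‖ ^ 2 + ‖g - c‖ ^ 2
      + 2 * ((starRingEnd ℂ) (g - c) * (Z i - g)).re := by
    intro i
    have e : Z i - c = (Z i - g) + (g - c) := by ring
    rw [e, ← Complex.normSq_eq_norm_sq, ← Complex.normSq_eq_norm_sq, ← Complex.normSq_eq_norm_sq,
      Complex.normSq_add]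
    have e2 : (Z i - g) * (starRingEnd ℂ) (g - c) = (starRingEnd ℂ) (g - c) * (Z i - g) := by ring
    rw [e2]
  have h5 : ∑ i, ‖Z i - c‖ ^ 2 = ∑ i, ‖Z i - g‖ ^ 2 + ((m : ℝ) + 1) * ‖g - c‖ ^ 2 := by
    rw [Finset.sum_congr rfl fun i _ => h4 i, Finset.sum_add_distrib, Finset.sum_add_distrib,
      Finset.sum_const, Finset.card_univ, Fintype.card_fin, nsmul_eq_mul, ← Finset.mul_sum,
      ← Complex.re_sum, ← Finset.mul_sum, Finset.sum_sub_distrib, hgs, Finset.sum_const,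
      Finset.card_univ, Fintype.card_fin, nsmul_eq_mul]
    push_cast
    simp
  have h6 : ‖g - c‖ ^ 2 ≤ 0 := by
    rw [h5] at h3
    nlinarith
  have h7 : ‖g - c‖ = 0 := by
    have := norm_nonneg (g - c)
    nlinarith
  rw [norm_eq_zero, sub_eq_zero] at h7
  exact h7.symm

/-- the critical pair `p = s = 2`, with the equality case -/
theorem full22 (hB1 : S_B1Q) (hall : CoreAllE) (A : ℝ) (h : ∃ N : ℕ, ∀ m : ℕ, N ≤ m → Core22 A m) :
    ∃ N : ℕ, 2 ≤ N ∧ ∀ F : ℂ[X], N ≤ F.natDegree → ∀ ζ ∈ F.roots, ζ ∉ (derivative F).roots →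
      ‖ζ - F.roots.sum / F.natDegree‖ ≤ A * sigma 2 F →
      0 < sigma 2 F ∧ ((F.natDegree - 1 : ℕ) : ℝ) / sigma 2 F ^ 2 ≤
        ((derivative F).roots.map (fun w : ℂ => ‖w - ζ‖⁻¹ ^ 2)).sum ∧
      (((derivative F).roots.map (fun w : ℂ => ‖w - ζ‖⁻¹ ^ 2)).sum =
        ((F.natDegree - 1 : ℕ) : ℝ) / sigma 2 F ^ 2 ↔ IsPure F) := by
  obtain ⟨N, hN⟩ := h
  obtain ⟨N3, hN32, hN3⟩ := full3 hall 2 3 (by norm_num) (by norm_num) (by norm_num)
  refine ⟨N + N3 + 2, by omega, fun F hF ζ hζ hd hA => ?_⟩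
  obtain ⟨q1, q2, q3⟩ := hN3 F (by omega) ζ hζ hd 2 3 le_rfl le_rfl
  obtain ⟨m, hm⟩ : ∃ m, F.natDegree = m + 1 := ⟨F.natDegree - 1, by omega⟩
  have hcore : CoreEA 2 2 A m := by
    intro z w a hcr hz0 ha haA hsum hmin hne hinv hneq
    exact hN m (by omega) z w a hcr hz0 ha haA hsum (exists_centreA hB1 (by norm_num) z hmin) hne
      hinv hneq
  have h1 := redEA (p := 2) (s := 2) (A := A) (by norm_num) (m := m) (by omega) hcore F hm hζ hd
    (fun c hc => by
      rw [centre_two (by omega) hc]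
      exact hA)
  obtain ⟨hσ, h2, h2'⟩ := h1
  simp only [Real.rpow_two] at h2 h2'
  have h3 : F.natDegree - 1 = m := by omega
  refine ⟨hσ, ?_, fun heq => ?_, fun hpure => ?_⟩
  · rw [h3, div_le_iff₀ (by positivity)]
    linarith
  · -- all the distances are equal
    have h4 := h2' (by rw [heq, h3]; field_simp; exact le_rfl)
    refine q3.1 ?_
    have h5 : ((derivative F).roots.map (fun w : ℂ => ‖w - ζ‖⁻¹ ^ (3:ℝ))).sum =
        ((derivative F).roots.map (fun _ : ℂ => (sigma 2 F)⁻¹ ^ (3:ℝ))).sum := by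
      refine congrArg Multiset.sum (Multiset.map_congr rfl fun w hw => ?_)
      rw [h4 w hw]
    rw [h5, Multiset.map_const', Multiset.sum_replicate, card_der', nsmul_eq_mul, div_eq_mul_inv,
      Real.inv_rpow hσ.le]
  · -- pure
    obtain ⟨c, hc1, hc2⟩ := pure_facts (by omega) hpure hζ
    have hR : 0 < ‖ζ - c‖ := by
      obtain ⟨w, hw⟩ : ∃ w, w ∈ (derivative F).roots := by
        apply Multiset.exists_mem_of_ne_zero
        intro h0
        have := card_der' (F := F)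
        rw [h0, Multiset.card_zero] at this
        omega
      have h1 : 0 < ‖w - ζ‖ := by
        rw [norm_pos_iff, sub_ne_zero]
        rintro rfl
        exact hd hw
      rwa [hc2 w hw, norm_sub_rev] at h1
    have hle : sigma 2 F ≤ ‖ζ - c‖ := sigma_le_circle (by omega) (by norm_num) hR.le hc1
    have hsum : ((derivative F).roots.map (fun w : ℂ => ‖w - ζ‖⁻¹ ^ 2)).sum =
        ((F.natDegree - 1 : ℕ) : ℝ) * ‖ζ - c‖⁻¹ ^ 2 := by
      rw [Multiset.map_congr rfl (g := fun _ => ‖ζ - c‖⁻¹ ^ 2) fun w hw => by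
        rw [hc2 w hw, norm_sub_rev], Multiset.map_const', Multiset.sum_replicate, card_der',
        nsmul_eq_mul]
    refine le_antisymm ?_ ?_
    · rw [hsum, div_eq_mul_inv, inv_pow]
      refine mul_le_mul_of_nonneg_left ?_ (by positivity)
      exact inv_anti₀ (by positivity) (pow_le_pow_left₀ hσ.le hle 2)
    · rw [h3, div_le_iff₀ (by positivity)]
      linarith

end Pool.Agent.H798.BV
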