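import Pool.Agent.H798.BV.Final3
import Pool.Agent.H798.BV.Red7
import Pool.Agent.H48.BV.Fl
import Pool.Agent.H407.BV.G1a
import Pool.Agent.H166.BV.G1b
import Pool.Agent.H597.BV.G2
import Pool.Agent.H279.BV.G3
import Pool.Agent.H658.BV.Gai
import Pool.Agent.H628.BV.L1
import Pool.Agent.H746.BV.L2a
import Pool.Agent.H364.BV.L2
import Pool.Agent.H81.BV.L3a
import Pool.Agent.H695.BV.L3b
import Pool.Agent.H570.BV.L4
import Pool.Agent.H661.BV.L5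

set_option autoImplicit false

open Polynomial

namespace Pool.Agent.H798.BV

theorem gai7 : S_GAI := Pool.Agent.H658.BV.t_GAI Pool.Agent.H48.BV.t_FL Pool.Agent.H407.BV.t_G1A
  Pool.Agent.H166.BV.t_G1B Pool.Agent.H597.BV.t_G2 Pool.Agent.H279.BV.t_G3

theorem core22 (A : ℝ) (hA : 1 ≤ A) : ∃ N : ℕ, ∀ m : ℕ, N ≤ m → Core22 A m :=
  core7 pm Pool.Agent.H686.BV.t_DB Pool.Agent.H878.BV.t_F0 Pool.Agent.H878.BV.t_FP
    (t_LOGA (Pool.Agent.H878.BV.t_LOGT t_B1 t_B1')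
      (Pool.Agent.H399.BV.t_LOGTQ Pool.Agent.H294.BV.t_B1Q))
    (Pool.Agent.H484.BV.t_C1Q (Pool.Agent.H348.BV.t_UC Pool.Agent.H826.BV.t_BRL))
    Pool.Agent.H385.BV.t_G0Q
    Pool.Agent.H628.BV.t_L1 (Pool.Agent.H364.BV.t_L2 Pool.Agent.H746.BV.t_L2a gai7)
    Pool.Agent.H81.BV.t_L3a Pool.Agent.H695.BV.t_L3b Pool.Agent.H570.BV.t_L4
    Pool.Agent.H661.BV.t_L5 A hA

open Pool.Agent.V1148.Bor Pool.Agent.N795.BV.H916 in
theorem critical22 (A : ℝ) :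
    ∃ N : ℕ, 2 ≤ N ∧ ∀ F : ℂ[X], N ≤ F.natDegree → ∀ ζ ∈ F.roots, ζ ∉ (derivative F).roots →
      ‖ζ - F.roots.sum / F.natDegree‖ ≤ A * sigma 2 F →
      0 < sigma 2 F ∧ ((F.natDegree - 1 : ℕ) : ℝ) / sigma 2 F ^ 2 ≤
        ((derivative F).roots.map (fun w : ℂ => ‖w - ζ‖⁻¹ ^ 2)).sum ∧
      (((derivative F).roots.map (fun w : ℂ => ‖w - ζ‖⁻¹ ^ 2)).sum =
        ((F.natDegree - 1 : ℕ) : ℝ) / sigma 2 F ^ 2 ↔ IsPure F) := by
  obtain ⟨N, hN2, hN⟩ := full22 Pool.Agent.H294.BV.t_B1Q coreAllE (max A 1)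
    (core22 (max A 1) (le_max_right _ _))
  obtain ⟨N3, hN32, hN3⟩ := full3 coreAllE 2 3 (by norm_num) (by norm_num) (by norm_num)
  refine ⟨max N N3, hN2.trans (le_max_left _ _), fun F hF ζ hζ hd hA => ?_⟩
  have hσ := (hN3 F ((le_max_right _ _).trans hF) ζ hζ hd 2 3 le_rfl le_rfl).1
  exact hN F ((le_max_left _ _).trans hF) ζ hζ hd
    (hA.trans (mul_le_mul_of_nonneg_right (le_max_left _ _) hσ.le))

end Pool.Agent.H798.BV
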