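import Pool.Agent.H798.BV.Stm5

set_option autoImplicit false

namespace Pool.Agent.H798.BV

theorem t_PT (h : S_TR) : S_PT := by
  intro m l A L κ τ hm hL hκ0 hκ1 hτ hA hsum hτL hre
  have hmpos : (0 : ℝ) < m := by exact_mod_cast hm
  have hL0 : 0 < L := by linarith
  obtain ⟨E, hE, hprod⟩ := h m l A L (τ : ℂ) hL0 hA hsum (by
    rw [Complex.norm_real, Real.norm_of_nonneg hτ]; exact hτL)
  rw [Complex.norm_real, Real.norm_of_nonneg hτ] at hE
  set s : ℂ := (∑ k ∈ A, l k) / m with hs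
  set Y : ℂ := (∑ k ∈ A, l k ^ 2) / m with hY
  have hmc : (m : ℂ) ≠ 0 := by exact_mod_cast hmpos.ne'
  have hs' : ∑ k ∈ A, l k = m * s := by rw [hs]; field_simp
  have hY' : ∑ k ∈ A, l k ^ 2 = m * Y := by rw [hY]; field_simp
  -- ‖Y‖ ≤ L
  have hYn : ‖Y‖ ≤ L := by
    rw [hY, norm_div, Complex.norm_natCast, div_le_iff₀ hmpos]
    refine (norm_sum_le _ _).trans ?_
    calc ∑ k ∈ A, ‖l k ^ 2‖ ≤ ∑ k ∈ A, L * ‖l k‖ := by
          refine Finset.sum_le_sum fun k hk => ?_
          rw [norm_pow, pow_two]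
          exact mul_le_mul_of_nonneg_right (hA k hk) (norm_nonneg _)
      _ = L * ∑ k ∈ A, ‖l k‖ := by rw [Finset.mul_sum]
      _ ≤ L * m := by gcongr
  set ζ : ℂ := -((m * τ ^ 2 : ℝ) : ℂ) * Y / 2 + E with hζ
  have hfac : ∏ k ∈ A, (1 - (τ : ℂ) * l k) = Complex.exp (-((m * τ : ℝ) * s)) * Complex.exp ζ := by
    rw [hprod, hs', hY', ← Complex.exp_add]
    congr 1
    rw [hζ]
    push_cast
    ring
  have hEn : ‖E‖ ≤ m * τ ^ 2 * L * (1 / 8) := by
    refine hE.trans ?_
    have h1 : (m : ℝ) * τ ^ 3 * L ^ 2 / 2 = m * τ ^ 2 * L * (τ * L) / 2 := by ring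
    rw [h1]
    have h2 : 0 ≤ (m : ℝ) * τ ^ 2 * L := by positivity
    nlinarith
  have hζn : ‖ζ‖ ≤ m * τ ^ 2 * L := by
    rw [hζ]
    refine (norm_add_le _ _).trans ?_
    rw [norm_div, norm_mul, norm_neg, Complex.norm_real, Real.norm_of_nonneg (by positivity)]
    have h1 : ‖(2 : ℂ)‖ = 2 := by norm_num
    rw [h1]
    have h2 : (m : ℝ) * τ ^ 2 * ‖Y‖ ≤ m * τ ^ 2 * L := by gcongr
    have h3 : 0 ≤ (m : ℝ) * τ ^ 2 * L := by positivity
    linarith
  have hn1 : ‖Complex.exp (-((m * τ : ℝ) * s))‖ = Real.exp (-(m * τ * s.re)) := by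
    rw [Complex.norm_exp]
    congr 1
    simp only [Complex.neg_re, Complex.mul_re, Complex.ofReal_re, Complex.ofReal_im, zero_mul,
      sub_zero]
  have hdiff : ‖∏ k ∈ A, (1 - (τ : ℂ) * l k) - Complex.exp (-((m * τ : ℝ) * s))‖ =
      Real.exp (-(m * τ * s.re)) * ‖Complex.exp ζ - 1‖ := by
    rw [hfac, ← mul_sub_one, norm_mul, hn1]
  have hnorm : ‖∏ k ∈ A, (1 - (τ : ℂ) * l k)‖ = Real.exp (-(m * τ * s.re) + ζ.re) := by
    rw [hfac, norm_mul, hn1, Complex.norm_exp, Real.exp_add]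
  have hmτ : 0 ≤ (m : ℝ) * τ := by positivity
  refine ⟨fun h1 => ?_, fun h1 h2 => ?_⟩
  · -- first case
    have hq : (m : ℝ) * τ ^ 2 * L ≤ m * τ * ((1 - κ) / 2 * s.re) := by
      calc (m : ℝ) * τ ^ 2 * L = m * τ * (τ * L) := by ring
        _ ≤ _ := mul_le_mul_of_nonneg_left h1 hmτ
    constructor
    · rw [hdiff]
      have h3 : ‖Complex.exp ζ - 1‖ ≤ ‖ζ‖ * Real.exp ‖ζ‖ := by
        have := Complex.norm_exp_sub_sum_le_norm_mul_exp ζ 1
        simpa using this
      calc Real.exp (-(m * τ * s.re)) * ‖Complex.exp ζ - 1‖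
          ≤ Real.exp (-(m * τ * s.re)) * (m * τ ^ 2 * L * Real.exp (m * τ * ((1 - κ) / 2 * s.re))) := by
            gcongr
            refine h3.trans ?_
            gcongr
            exact hζn.trans hq
        _ = m * τ ^ 2 * L * (Real.exp (-(m * τ * s.re)) * Real.exp (m * τ * ((1 - κ) / 2 * s.re))) := by
            ring
        _ = _ := by
            rw [← Real.exp_add]
            congr 2
            ring
    · rw [hnorm]
      refine Real.exp_le_exp.2 ?_
      have h3 : ζ.re ≤ m * τ * ((1 - κ) / 2 * s.re) := (Complex.re_le_norm ζ).trans (hζn.trans hq)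
      have h4 : 0 ≤ m * τ * (κ / 2 * s.re) := by positivity
      nlinarith
  · -- second case
    have hre1 : ζ.re ≤ -(m * τ ^ 2 / 48) := by
      have h3 : ζ.re = -(m * τ ^ 2) * Y.re / 2 + E.re := by
        rw [hζ]
        rw [neg_mul, Complex.add_re, Complex.div_ofNat_re, Complex.neg_re, Complex.re_ofReal_mul]
        ring
      have h4 : E.re ≤ m * τ ^ 2 / 48 := by
        refine (Complex.re_le_norm E).trans (hE.trans ?_)
        have h5 : (m : ℝ) * τ ^ 3 * L ^ 2 / 2 = m * τ ^ 2 * (τ * L ^ 2) / 2 := by ring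
        have h6 : τ * L ^ 2 ≤ 1 / 24 := by
          calc τ * L ^ 2 ≤ 1 / (24 * L ^ 2) * L ^ 2 := by gcongr
            _ = 1 / 24 := by field_simp
        rw [h5]
        have h7 : 0 ≤ (m : ℝ) * τ ^ 2 := by positivity
        nlinarith
      have h5 : (m : ℝ) * τ ^ 2 * (1 / 12) ≤ m * τ ^ 2 * Y.re := by
        have h7 : 0 ≤ (m : ℝ) * τ ^ 2 := by positivity
        exact mul_le_mul_of_nonneg_left h1 h7
      rw [h3]
      linarith
    have hmt2 : 0 ≤ (m : ℝ) * τ ^ 2 := by positivity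
    have hre0 : ζ.re ≤ 0 := by linarith
    constructor
    · rw [hdiff]
      have h3 : ‖Complex.exp ζ - 1‖ ≤ ‖ζ‖ := by
        have key := Convex.norm_image_sub_le_of_norm_hasDerivWithin_le
          (f := Complex.exp) (f' := Complex.exp) (s := {z : ℂ | z.re ≤ 0}) (C := 1) (x := 0) (y := ζ)
          (fun z _ => (Complex.hasDerivAt_exp z).hasDerivWithinAt)
          (fun z hz => by
            rw [Complex.norm_exp]
            exact Real.exp_le_one_iff.2 hz)
          (convex_halfSpace_re_le 0) (by simp) hre0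
        simpa using key
      calc Real.exp (-(m * τ * s.re)) * ‖Complex.exp ζ - 1‖
          ≤ Real.exp (-(m * τ * ((1 + κ) / 2 * s.re))) * (m * τ ^ 2 * L) := by
            have h4 : Real.exp (-(m * τ * s.re)) ≤ Real.exp (-(m * τ * ((1 + κ) / 2 * s.re))) := by
              refine Real.exp_le_exp.2 (neg_le_neg (mul_le_mul_of_nonneg_left ?_ hmτ))
              nlinarith
            exact mul_le_mul h4 (h3.trans hζn) (norm_nonneg _) (Real.exp_pos _).le
        _ = _ := by ring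
    · rw [hnorm]
      refine Real.exp_le_exp.2 ?_
      have h3 : 0 ≤ m * τ * s.re := mul_nonneg hmτ hre
      linarith

end Pool.Agent.H798.BV
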