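import Pool.Agent.H798.BV.Core2
import Pool.Agent.H798.BV.Red
import Pool.Graph.R_pool_sql_team_seeded_63374d34.N916.BVNRM
import Pool.Graph.R_seed8.V1148.Bor.K

set_option autoImplicit false

open Polynomial

namespace Pool.Agent.H798.BV

/-- the normalised statement in degree `m + 1` -/
def CoreD (p : ℝ) (m : ℕ) : Prop :=
  ∀ (z : Fin (m + 1) → ℂ) (w : Fin m → ℂ) (a : ℝ), Crit m z w →
      z 0 = a → 0 ≤ a → ∑ j, ‖z j‖ ^ p = m + 1 → (∀ c : ℂ, ∑ j, ‖z j‖ ^ p ≤ ∑ j, ‖z j - c‖ ^ p) →
      (∀ k, w k ≠ a) → ∑ k, ‖((a : ℂ) - w k)⁻¹‖ ^ 2 < m → False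

open Pool.Agent.V1148.Bor Pool.Agent.N795.BV.H916

/-- the critical points, with the multiset identity -/
theorem critM {m : ℕ} {F : ℂ[X]} (hF : F.natDegree = m + 1) {Z : Fin (m + 1) → ℂ}
    (hZ : F.roots = Finset.univ.val.map Z) :
    ∃ W : Fin m → ℂ, Crit m Z W ∧ (derivative F).roots = Finset.univ.val.map W := by
  have hF0 : F ≠ 0 := by
    rintro rfl
    simp at hF
  have hl : F.leadingCoeff ≠ 0 := leadingCoeff_ne_zero.2 hF0
  have e1 := prod_roots hZ
  set G : ℂ[X] := ∏ k, (X - C (Z k)) with hG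
  have e2 : derivative F = C F.leadingCoeff * derivative G := by
    conv_lhs => rw [e1]
    rw [derivative_C_mul]
  have hd : (derivative F).natDegree = m := by
    rw [natDegree_derivative, hF]
    rfl
  obtain ⟨W, hW, -⟩ := fin_of hd
  refine ⟨W, ?_, hW⟩
  have e4 := prod_roots hW
  have e5 : (derivative F).leadingCoeff = F.leadingCoeff * ((m : ℂ) + 1) := by
    rw [leadingCoeff_derivative, hF]
    push_cast
    ring
  unfold Crit
  rw [← hG]
  have h4 : (C F.leadingCoeff : ℂ[X]) ≠ 0 := C_ne_zero.2 hl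
  refine mul_left_cancel₀ h4 ?_
  rw [← e2, e4, e5, C_mul]
  ring

theorem redD {p : ℝ} (hp0 : 0 < p) {m : ℕ} (hm : 1 ≤ m) (hcore : CoreD p m)
    (F : ℂ[X]) (hF : F.natDegree = m + 1) {ζ : ℂ} (hζ : ζ ∈ F.roots)
    (hd : ζ ∉ (derivative F).roots) :
    0 < sigma p F ∧
      (m : ℝ) ≤ sigma p F ^ 2 * ((derivative F).roots.map (fun w : ℂ => (‖w - ζ‖ ^ 2)⁻¹)).sum := by
  have hn0 : 0 < F.natDegree := by omega
  have hn2 : 2 ≤ F.natDegree := by omega
  obtain ⟨Z, hZ, hmean⟩ := fin_of hF
  obtain ⟨W, hR', hW⟩ := critM hF hZ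
  obtain ⟨c0, hc0⟩ := exists_min hp0 (exists_root hn2)
  have hz0' := hζ
  rw [hZ, Multiset.mem_map] at hz0'
  obtain ⟨k0, -, rfl⟩ := hz0'
  have hne : ∀ i, W i ≠ Z k0 := by
    intro i h
    apply hd
    rw [hW, ← h]
    exact Multiset.mem_map_of_mem _ (Finset.mem_univ_val i)
  have hN : (0 : ℝ) < (m : ℝ) + 1 := by positivity
  -- positivity of sigma
  set σ : ℝ := sigma p F with hσ
  have hσ0 : 0 ≤ σ := by rw [hc0]; exact pmean_nonneg _ _ _
  have hσp : σ ^ p = (1 / ((m + 1 : ℕ) : ℝ)) * ∑ i, ‖Z i - c0‖ ^ p := by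
    rw [hc0, hmean, ← Real.rpow_mul (by positivity), one_div_mul_cancel hp0.ne', Real.rpow_one]
  have hσpos : 0 < σ := by
    rcases hσ0.eq_or_lt with h | h
    · exfalso
      rw [← h, Real.zero_rpow hp0.ne'] at hσp
      have h1 : ∑ i, ‖Z i - c0‖ ^ p = 0 := by
        have : (1 / ((m + 1 : ℕ) : ℝ)) ≠ 0 := by positivity
        rcases mul_eq_zero.1 hσp.symm with h2 | h2
        · exact absurd h2 this
        · exact h2
      have h2 : ∀ i, Z i = c0 := by
        intro i
        have h3 := (Finset.sum_eq_zero_iff_of_nonneg (fun i _ => by positivity)).1 h1 i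
          (Finset.mem_univ i)
        rw [Real.rpow_eq_zero (norm_nonneg _) hp0.ne', norm_eq_zero, sub_eq_zero] at h3
        exact h3
      -- then c0 is a critical point
      have hR := hR'
      unfold Crit at hR
      have h4 := congrArg (fun P : ℂ[X] => P.eval c0) hR
      simp only [h2] at h4
      rw [Finset.prod_const, Finset.card_univ, Fintype.card_fin, derivative_pow] at h4
      have hm0 : m ≠ 0 := by omega
      simp only [Nat.add_sub_cancel, derivative_sub, derivative_X, derivative_C, sub_zero, mul_one,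
        eval_mul, eval_pow, eval_sub, eval_X, eval_C, sub_self, zero_pow hm0, mul_zero,
        eval_prod] at h4
      rcases mul_eq_zero.1 h4.symm with h5 | h5
      · exact absurd h5 (by exact_mod_cast Nat.succ_ne_zero m)
      · rw [Finset.prod_eq_zero_iff] at h5
        obtain ⟨i, -, hi⟩ := h5
        apply hne i
        rw [h2 k0]
        exact (sub_eq_zero.1 hi).symm
    · exact h
  refine ⟨hσpos, ?_⟩
  by_contra hlt
  push Not at hlt
  -- the rotation
  obtain ⟨u, hu, hu2⟩ : ∃ u : ℂ, ‖u‖ = 1 ∧ Z k0 - c0 = ‖Z k0 - c0‖ * u := by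
    rcases eq_or_ne (Z k0 - c0) 0 with h | h
    · exact ⟨1, norm_one, by rw [h]; simp⟩
    · have h1 : (‖Z k0 - c0‖ : ℂ) ≠ 0 := by exact_mod_cast (norm_pos_iff.2 h).ne'
      refine ⟨(Z k0 - c0) / ‖Z k0 - c0‖, ?_, ?_⟩
      · rw [norm_div, Complex.norm_real, norm_norm, div_self (norm_pos_iff.2 h).ne']
      · field_simp
  have hu0 : u ≠ 0 := by
    rintro rfl
    simp at hu
  set t : ℂ := σ * u with ht
  have ht0 : t ≠ 0 := mul_ne_zero (by exact_mod_cast hσpos.ne') hu0
  have htn : ‖t‖ = σ := by rw [ht, norm_mul, hu, mul_one, Complex.norm_real, Real.norm_of_nonneg hσ0]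
  set e : Equiv.Perm (Fin (m + 1)) := Equiv.swap 0 k0 with he
  have h1 : Crit m (fun j => (Z (e j) - c0) / t) (fun k => (W k - c0) / t) :=
    rel_aff (crit_perm hR' e) c0 t ht0
  have hsum : ∀ c : ℂ, ∑ j, ‖(Z (e j) - c0) / t - c‖ ^ p = (∑ j, ‖Z j - (c0 + t * c)‖ ^ p) / σ ^ p := by
    intro c
    rw [Equiv.sum_comp e fun j => ‖(Z j - c0) / t - c‖ ^ p, Finset.sum_div]
    refine Finset.sum_congr rfl fun j _ => ?_
    have e1 : (Z j - c0) / t - c = (Z j - (c0 + t * c)) / t := by field_simp; ring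
    rw [e1, norm_div, htn, Real.div_rpow (norm_nonneg _) hσ0]
  have hs0 : ∑ j, ‖(Z (e j) - c0) / t‖ ^ p = (m : ℝ) + 1 := by
    have h2 := hsum 0
    simp only [sub_zero, mul_zero, add_zero] at h2
    rw [h2, hσp]
    have h3 : ∑ i, ‖Z i - c0‖ ^ p ≠ 0 := by
      intro h
      rw [h, mul_zero] at hσp
      have := Real.rpow_pos_of_pos hσpos p
      linarith
    push_cast
    field_simp
  have hmin : ∀ c : ℂ, ∑ j, ‖(Z (e j) - c0) / t‖ ^ p ≤ ∑ j, ‖(Z (e j) - c0) / t - c‖ ^ p := by
    intro c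
    have h2 := hsum 0
    simp only [sub_zero, mul_zero, add_zero] at h2
    rw [h2, hsum c]
    refine div_le_div_of_nonneg_right ?_ (by positivity)
    have h3 : pmean p F c0 ≤ pmean p F (c0 + t * c) := by rw [← hc0]; exact sigma_le _ _ _
    rw [hmean, hmean] at h3
    have h4 := (Real.rpow_le_rpow_iff (by positivity) (by positivity)
      (by positivity : 0 < 1 / p)).1 h3
    exact le_of_mul_le_mul_left h4 (by positivity)
  have e3 : ∀ k, (((‖Z k0 - c0‖ / σ : ℝ) : ℂ)) - (W k - c0) / t = (Z k0 - W k) / t := by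
    intro k
    have e2 : (((‖Z k0 - c0‖ / σ : ℝ) : ℂ)) = (Z k0 - c0) / t := by
      nth_rewrite 2 [hu2]
      rw [ht]
      push_cast
      have : (σ : ℂ) ≠ 0 := by exact_mod_cast hσpos.ne'
      field_simp
    rw [e2]
    ring
  refine hcore (fun j => (Z (e j) - c0) / t) (fun k => (W k - c0) / t) (‖Z k0 - c0‖ / σ) h1 ?_
    (by positivity) hs0 hmin ?_ ?_
  · have e1 : e 0 = k0 := by rw [he]; exact Equiv.swap_apply_left 0 k0
    simp only [e1]
    rw [hu2, ht]
    rw [norm_mul, hu, mul_one, Complex.norm_real, norm_norm]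
    push_cast
    have : (σ : ℂ) ≠ 0 := by exact_mod_cast hσpos.ne'
    field_simp
  · intro k h
    have h5 := e3 k
    rw [← h, sub_self] at h5
    rcases div_eq_zero_iff.1 h5.symm with h6 | h6
    · exact hne k (sub_eq_zero.1 h6).symm
    · exact ht0 h6
  · refine lt_of_eq_of_lt ?_ hlt
    rw [hW, Multiset.map_map]
    change _ = σ ^ 2 * ∑ k, (‖W k - Z k0‖ ^ 2)⁻¹
    rw [Finset.mul_sum]
    refine Finset.sum_congr rfl fun k _ => ?_
    simp only [e3]
    rw [inv_div, norm_div, htn, norm_sub_rev, div_pow, div_eq_mul_inv]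

/-- the equality case on a disc -/
lemma extremal_disc {F : ℂ[X]} (hn : 2 ≤ F.natDegree) {c : ℂ} {R : ℝ} (hR : 0 < R)
    (hc : ∀ z ∈ F.roots, ‖z - c‖ ≤ R) {z : ℂ} (hz : z ∈ F.roots) (hcrit : z ∉ (derivative F).roots)
    (heq : R ^ 2 * ((derivative F).roots.map (fun w : ℂ => (‖w - z‖ ^ 2)⁻¹)).sum ≤
      ((F.natDegree - 1 : ℕ) : ℝ)) : IsPure F := by
  have h0 : F ≠ 0 := by rintro rfl; simp at hn
  have hd0 := der_ne hn
  have hRc : (R : ℂ) ≠ 0 := by exact_mod_cast hR.ne'
  set L : ℂ[X] := C (R : ℂ) * X + C c with hL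
  have hL1 : L.natDegree = 1 := natDegree_linear hRc
  set G : ℂ[X] := F.comp L with hG
  have hGn : G.natDegree = F.natDegree := by rw [hG, natDegree_comp, hL1, mul_one]
  have hG0 : G ≠ 0 := by
    intro h
    rw [h, natDegree_zero] at hGn
    omega
  have hev : ∀ w : ℂ, G.eval w = F.eval (R * w + c) := fun w => by
    rw [hG, eval_comp, hL]; simp
  have hdG : derivative G = C (R : ℂ) * (derivative F).comp L := by
    rw [hG, derivative_comp, hL]; simp
  have hdG0 : derivative G ≠ 0 := der_ne (by rw [hGn]; exact hn)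
  have hdev : ∀ w : ℂ, (derivative G).eval w = R * (derivative F).eval (R * w + c) := fun w => by
    rw [hdG, eval_mul, eval_C, eval_comp, hL]; simp
  have hroots : ∀ w ∈ G.roots, ‖w‖ ≤ 1 := by
    intro w hw
    rw [mem_roots hG0, IsRoot.def, hev] at hw
    have h1 := hc _ ((mem_roots h0).2 hw)
    rw [add_sub_cancel_right, norm_mul, Complex.norm_real, Real.norm_of_nonneg hR.le] at h1
    by_contra h2
    push Not at h2
    nlinarith
  set a : ℂ := (z - c) / R with ha
  have hRa : (R : ℂ) * a + c = z := by rw [ha]; field_simp; ring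
  have haG : a ∈ G.roots := by
    rw [mem_roots hG0, IsRoot.def, hev, hRa]
    exact (mem_roots h0).1 hz
  have hda : a ∉ (derivative G).roots := by
    intro h
    rw [mem_roots hdG0, IsRoot.def, hdev, hRa] at h
    rcases mul_eq_zero.1 h with h | h
    · exact hRc h
    · exact hcrit ((mem_roots hd0).2 h)
  -- the roots of the derivative
  have hrd : (derivative G).roots = (derivative F).roots.map (fun w => (w - c) / R) := by
    have h1 := (IsAlgClosed.splits (derivative F)).eq_prod_roots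
    have h2 : derivative G = C (R * (derivative F).leadingCoeff *
        (R : ℂ) ^ (Multiset.card (derivative F).roots)) *
        (((derivative F).roots.map (fun w => (w - c) / R)).map (fun w => X - C w)).prod := by
      rw [hdG]
      conv_lhs => rw [h1]
      rw [mul_comp, C_comp]
      have h3 : ∀ s : Multiset ℂ, ((s.map fun w => X - C w).prod).comp L =
          C ((R : ℂ) ^ (Multiset.card s)) * ((s.map (fun w => (w - c) / R)).map (fun w => X - C w)).prod := by
        intro s
        induction s using Multiset.induction with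
        | empty => simp
        | cons x s ih =>
          rw [Multiset.map_cons, Multiset.prod_cons, mul_comp, ih, Multiset.map_cons,
            Multiset.map_cons, Multiset.prod_cons, Multiset.card_cons, pow_succ, C_mul]
          have h4 : (X - C x : ℂ[X]).comp L = C (R : ℂ) * (X - C ((x - c) / R)) := by
            rw [hL, sub_comp, X_comp, C_comp, mul_sub, ← C_mul, mul_div_cancel₀ _ hRc, C_sub]
            ring
          rw [h4]
          ring
      rw [h3, C_mul, C_mul]
      ring
    have hne : (R * (derivative F).leadingCoeff *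
        (R : ℂ) ^ (Multiset.card (derivative F).roots)) ≠ 0 :=
      mul_ne_zero (mul_ne_zero hRc (leadingCoeff_ne_zero.2 hd0)) (pow_ne_zero _ hRc)
    rw [h2, roots_C_mul _ hne, roots_multiset_prod_X_sub_C]
  have key := Pool.Agent.Results.MP_f0bc87_an.AllNegativeExponents.extremal
    (by rw [hGn]; exact hn) hroots haG hda (by
      rw [hGn, hrd, Multiset.map_map]
      refine le_trans (le_of_eq ?_) heq
      rw [← Multiset.sum_map_mul_left]
      refine congrArg Multiset.sum (Multiset.map_congr rfl fun w _ => ?_)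
      have h1 : (w - c) / R - a = (w - z) / R := by rw [ha]; ring
      simp only [Function.comp]
      rw [h1, norm_div, Complex.norm_real, Real.norm_of_nonneg hR.le, div_pow, inv_div,
        div_eq_mul_inv])
  obtain ⟨ha1, hGe⟩ := key
  have hcomp : F = G.comp (C (R : ℂ)⁻¹ * (X - C c)) := by
    rw [hG, comp_assoc]
    have : L.comp (C (R : ℂ)⁻¹ * (X - C c)) = X := by
      rw [hL]
      simp only [add_comp, mul_comp, C_comp, X_comp]
      rw [← mul_assoc, ← C_mul, mul_inv_cancel₀ hRc, C_1, one_mul, sub_add_cancel]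
    rw [this, comp_X]
  have hF : F = C (G.leadingCoeff * (R : ℂ)⁻¹ ^ F.natDegree) * (X - C c) ^ F.natDegree -
      C (G.leadingCoeff * a ^ F.natDegree) := by
    have h1 : F = (C G.leadingCoeff * (X ^ G.natDegree - C (a ^ G.natDegree))).comp
        (C (R : ℂ)⁻¹ * (X - C c)) := by
      rw [← hGe]
      exact hcomp
    rw [hGn] at h1
    have h2 : (C G.leadingCoeff * (X ^ F.natDegree - C (a ^ F.natDegree))).comp
        (C (R : ℂ)⁻¹ * (X - C c)) =
        C (G.leadingCoeff * (R : ℂ)⁻¹ ^ F.natDegree) * (X - C c) ^ F.natDegree -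
          C (G.leadingCoeff * a ^ F.natDegree) := by
      simp only [mul_comp, sub_comp, C_comp, X_comp, pow_comp, mul_pow, C_mul, C_pow]
      ring
    exact h1.trans h2
  refine ⟨_, _, c, ?_, hF⟩
  have := leadingCoeff_ne_zero.2 hG0
  positivity

end Pool.Agent.H798.BV
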