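import Pool.Graph.R_seed8.V1148.Bor.K

set_option autoImplicit false

open Polynomial

namespace Pool.Agent.H798.BV

open Pool.Agent.V1148.Bor

/-- the polynomial `z (z - 1)^(m+1)` of degree `m + 2` -/
noncomputable def Fs (m : ℕ) : ℂ[X] := X * (X - C 1) ^ (m + 1)

lemma Fs_ne (m : ℕ) : Fs m ≠ 0 := mul_ne_zero X_ne_zero (pow_ne_zero _ (X_sub_C_ne_zero 1))

lemma Fs_deg (m : ℕ) : (Fs m).natDegree = m + 2 := by
  unfold Fs
  rw [natDegree_mul X_ne_zero (pow_ne_zero _ (X_sub_C_ne_zero 1)), natDegree_X, natDegree_pow,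
    natDegree_X_sub_C]
  ring

lemma Fs_roots (m : ℕ) : (Fs m).roots = 0 ::ₘ Multiset.replicate (m + 1) 1 := by
  unfold Fs
  rw [roots_mul (mul_ne_zero X_ne_zero (pow_ne_zero _ (X_sub_C_ne_zero 1))), roots_X, roots_pow,
    roots_X_sub_C, Multiset.nsmul_singleton]
  rfl

lemma Fs_der (m : ℕ) : derivative (Fs m) =
    C ((m : ℂ) + 2) * ((X - C 1) ^ m * (X - C (((m : ℂ) + 2)⁻¹))) := by
  have h : ((m : ℂ) + 2) ≠ 0 := by
    have : ((m : ℂ) + 2) = ((m + 2 : ℕ) : ℂ) := by push_cast; ring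
    rw [this]
    exact_mod_cast (by omega : m + 2 ≠ 0)
  have h2 : C ((m : ℂ) + 2) * C (((m : ℂ) + 2)⁻¹) = 1 := by
    rw [← C_mul, mul_inv_cancel₀ h, C_1]
  unfold Fs
  rw [derivative_mul, derivative_X, derivative_pow, derivative_sub, derivative_X, derivative_C]
  simp only [Nat.add_sub_cancel]
  have h3 : C ((m : ℂ) + 2) * ((X - C 1) ^ m * (X - C (((m : ℂ) + 2)⁻¹))) =
      (X - C 1) ^ m * (C ((m : ℂ) + 2) * X - C ((m : ℂ) + 2) * C (((m : ℂ) + 2)⁻¹)) := by ring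
  rw [h3, h2]
  have h4 : (C ((m : ℂ) + 2) : ℂ[X]) = C ((m + 1 : ℕ) : ℂ) + 1 := by
    rw [← C_1, ← C_add]; congr 1; push_cast; ring
  rw [h4, pow_succ]
  simp only [C_1]
  ring

lemma Fs_der_roots (m : ℕ) : (derivative (Fs m)).roots =
    Multiset.replicate m 1 + {((m : ℂ) + 2)⁻¹} := by
  have h : ((m : ℂ) + 2) ≠ 0 := by
    have : ((m : ℂ) + 2) = ((m + 2 : ℕ) : ℂ) := by push_cast; ring
    rw [this]
    exact_mod_cast (by omega : m + 2 ≠ 0)
  rw [Fs_der, roots_C_mul _ h, roots_mul (mul_ne_zero (pow_ne_zero _ (X_sub_C_ne_zero 1))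
    (X_sub_C_ne_zero _)), roots_pow, roots_X_sub_C, roots_X_sub_C, Multiset.nsmul_singleton]

lemma Fs_sum (m : ℕ) : ((derivative (Fs m)).roots.map (fun w : ℂ => ‖w - 0‖ ^ (-2 : ℝ))).sum =
    ((m : ℝ) + 1) * (m + 4) := by
  rw [Fs_der_roots, Multiset.map_add, Multiset.sum_add, Multiset.map_replicate,
    Multiset.sum_replicate, Multiset.map_singleton, Multiset.sum_singleton]
  have h : ‖((m : ℂ) + 2)‖ = (m : ℝ) + 2 := by
    have : ((m : ℂ) + 2) = ((m + 2 : ℕ) : ℂ) := by push_cast; ring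
    rw [this, Complex.norm_natCast]; push_cast; ring
  rw [sub_zero, sub_zero, norm_one, Real.one_rpow, nsmul_eq_mul, mul_one, norm_inv, h,
    Real.inv_rpow (by positivity), ← Real.rpow_neg (by positivity)]
  norm_num
  ring

lemma Fs_sigma (m : ℕ) {p : ℝ} (hp : 0 < p) : sigma p (Fs m) ≤ ((m : ℝ) + 2) ^ (-(1 / p)) := by
  refine (sigma_le p (Fs m) 1).trans ?_
  unfold pmean
  rw [Fs_roots, Fs_deg, Multiset.map_cons, Multiset.sum_cons, Multiset.map_replicate,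
    Multiset.sum_replicate, sub_self, norm_zero, Real.zero_rpow hp.ne', smul_zero, add_zero,
    zero_sub, norm_neg, norm_one, Real.one_rpow, mul_one]
  push_cast
  rw [one_div, Real.inv_rpow (by positivity), ← Real.rpow_neg (by positivity)]

theorem sharp2 (p₁ : ℝ) (hp₁ : 0 < p₁) (hp₂ : p₁ < 2) : ∃ N : ℕ, ∀ n : ℕ, N ≤ n →
    ∃ (F : ℂ[X]) (ζ : ℂ), F.natDegree = n ∧ F.eval ζ = 0 ∧ (derivative F).eval ζ ≠ 0 ∧
      ∀ p : ℝ, 0 < p → p ≤ p₁ →
        sigma p F ^ (2 : ℝ) * ((derivative F).roots.map (fun w : ℂ => ‖w - ζ‖ ^ (-2 : ℝ))).sum <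
          ((n - 1 : ℕ) : ℝ) := by
  have hexp : 0 < 2 / p₁ - 1 := by
    have : 1 < 2 / p₁ := by rwa [one_lt_div hp₁]
    linarith
  have hlim := (tendsto_rpow_atTop hexp).comp (tendsto_natCast_atTop_atTop (R := ℝ))
  obtain ⟨N, hN⟩ := Filter.eventually_atTop.1 (hlim.eventually_gt_atTop 2)
  refine ⟨max N 2, fun n hn => ?_⟩
  obtain ⟨m, rfl⟩ : ∃ m, n = m + 2 := ⟨n - 2, by omega⟩
  have h1 := hN (m + 2) (by omega)
  simp only [Function.comp] at h1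
  push_cast at h1
  refine ⟨Fs m, 0, Fs_deg m, ?_, ?_, fun p hp hpp => ?_⟩
  · simp [Fs]
  · rw [Fs_der]
    have h : ((m : ℂ) + 2) ≠ 0 := by
      have : ((m : ℂ) + 2) = ((m + 2 : ℕ) : ℂ) := by push_cast; ring
      rw [this]
      exact_mod_cast (by omega : m + 2 ≠ 0)
    simp only [eval_mul, eval_C, eval_pow, eval_sub, eval_X, zero_sub]
    exact mul_ne_zero h (mul_ne_zero (pow_ne_zero _ (by norm_num)) (neg_ne_zero.2 (inv_ne_zero h)))
  · rw [Fs_sum]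
    have hm2 : (0:ℝ) < (m:ℝ) + 2 := by positivity
    have hs0 : 0 ≤ sigma p (Fs m) := by
      unfold sigma
      exact Real.iInf_nonneg fun c => pmean_nonneg _ _ _
    have h2 : sigma p (Fs m) ^ (2:ℝ) ≤ ((m:ℝ) + 2) ^ (-(2 / p₁)) := by
      calc sigma p (Fs m) ^ (2:ℝ) ≤ (((m : ℝ) + 2) ^ (-(1 / p))) ^ (2:ℝ) :=
            Real.rpow_le_rpow hs0 (Fs_sigma m hp) (by norm_num)
        _ = ((m:ℝ) + 2) ^ (-(2 / p)) := by
            rw [← Real.rpow_mul hm2.le]; congr 1; ring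
        _ ≤ _ := by
            apply Real.rpow_le_rpow_of_exponent_le (by linarith [(Nat.cast_nonneg m : (0:ℝ) ≤ m)])
            have : 2 / p₁ ≤ 2 / p := div_le_div_of_nonneg_left (by norm_num) hp hpp
            linarith
    have h3 : ((m:ℝ) + 2) ^ (2 / p₁) = ((m:ℝ) + 2) ^ (2 / p₁ - 1) * (m + 2) := by
      nth_rewrite 3 [← Real.rpow_one ((m:ℝ) + 2)]
      rw [← Real.rpow_add hm2]; congr 1; ring
    have h4 : (m:ℝ) + 4 < ((m:ℝ) + 2) ^ (2 / p₁) := by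
      rw [h3]
      have h5 : 2 * ((m:ℝ) + 2) < ((m:ℝ) + 2) ^ (2 / p₁ - 1) * (m + 2) :=
        mul_lt_mul_of_pos_right h1 hm2
      have : (0:ℝ) ≤ m := Nat.cast_nonneg m
      linarith
    have h6 : ((m + 2 - 1 : ℕ) : ℝ) = (m:ℝ) + 1 := by
      have : m + 2 - 1 = m + 1 := by omega
      rw [this]; push_cast; ring
    rw [h6]
    have h7 : 0 < ((m:ℝ) + 2) ^ (2 / p₁) := by positivity
    calc sigma p (Fs m) ^ (2:ℝ) * (((m:ℝ) + 1) * (m + 4)) ≤
        ((m:ℝ) + 2) ^ (-(2 / p₁)) * (((m:ℝ) + 1) * (m + 4)) :=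
          mul_le_mul_of_nonneg_right h2 (by positivity)
      _ = ((m:ℝ) + 1) * ((m + 4) / ((m:ℝ) + 2) ^ (2 / p₁)) := by
          rw [Real.rpow_neg hm2.le]; field_simp
      _ < ((m:ℝ) + 1) * 1 := by
          apply mul_lt_mul_of_pos_left _ (by positivity)
          rwa [div_lt_one h7]
      _ = _ := mul_one _

end Pool.Agent.H798.BV
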