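import Pool.Agent.H798.BV.Stm

set_option autoImplicit false

/-!
# `M_{-s} ≤ σ_p` for all dual exponents `1/p + 1/s < 1` in all large degrees: the independent pieces

`m` = number of critical points, `n = m + 1`, `z 0 = a ≥ 0`, `w k` the critical points, `l k = (a - w k)⁻¹`.
Normalisation: `∑ |z_j|^p = n`, `0` is the `p`-centre (so `∑ χ_p(z_j) = 0`), and (for a contradiction)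
`∑ |l_k|^s < m`.  Here `p, s > 1`, `1/p + 1/s < 1`; `β = min p 2 > 1`.
(The case `2 < p ≤ 3`, `s = 2` is in `Stm2.lean`, with proofs by several helpers.)
-/

open Polynomial MeasureTheory

namespace Pool.Agent.H798.BV

/-- `q(z) = 2 (Re z)² / (1 + |z|²)`: bounded, smooth, equal to `(Re z)²` on the unit circle. -/
noncomputable def q2 (z : ℂ) : ℝ := 2 * z.re ^ 2 / (1 + ‖z‖ ^ 2)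

/-- `Φ(R) = R^p - 1 - p log R ≥ 0`. -/
noncomputable def Ph (p R : ℝ) : ℝ := R ^ p - 1 - p * Real.log R

/-- `Θ(r) = (r^p - 1) + (p/s)(r^(-s) - 1) ≥ 0`. -/
noncomputable def Th (p s r : ℝ) : ℝ := (r ^ p - 1) + p / s * (r⁻¹ ^ s - 1)

/-- (B1Q) Upper bound of the Bregman distance of `|z|^p` for `p ≥ 2`.

Proof. `f(t) = |z - t c|^p`, `f'(0) = -p Re(conj χ(z) c)`, `f'' ≤ p(p-1)|z - tc|^(p-2)|c|²` and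
`|z - tc|^(p-2) ≤ 2^p (|z|^(p-2) + |c|^(p-2))`. (Any constant `K`. For `p ≤ 3`: `t_B1P` by helper122.) -/
def S_B1Q : Prop :=
  ∀ p : ℝ, 2 ≤ p → ∃ K : ℝ, 0 < K ∧ ∀ z c : ℂ,
    ‖z - c‖ ^ p ≤ ‖z‖ ^ p - p * ((starRingEnd ℂ) (chi p z) * c).re
      + K * (‖z‖ ^ (p - 2) * ‖c‖ ^ 2 + ‖c‖ ^ p)

/-- (B2) convexity of `|z|^p`, `p > 1`. Proved: `Pool.Agent.H798.BV.t_B2P` in `Core2.lean`. -/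
def S_B2Q : Prop :=
  ∀ p : ℝ, 1 < p → ∀ z w : ℂ,
    ‖w‖ ^ p + p * ((starRingEnd ℂ) (chi p w) * (z - w)).re ≤ ‖z‖ ^ p

/-- (MOM) second moment bound around the centre; helper798 proves it from (B1Q) and `t_B1`. -/
def S_MOM : Prop :=
  ∀ p : ℝ, 1 < p → ∃ K : ℝ, 0 < K ∧ ∀ (n : ℕ) (z : Fin n → ℂ), ∑ j, ‖z j‖ ^ p = n →
    ∑ j, chi p (z j) = 0 → ∀ c : ℂ, ‖c‖ ≤ 1 →
      ∑ j, ‖z j - c‖ ^ p ≤ n * (1 + K * ‖c‖ ^ (min p 2))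

/-- (G0Q) (G0) for all `p > 1`: the same proof as `Pool/Agent/H686/BV/G0.lean` and
`Pool/Agent/H725/BV/G0p.lean`: `|g| ≤ mean |r - r^(p-1)|`, `|R^α - R^β| ≤ |R - 1|` for `α, β ∈ [0,1]`
(`R = r^p`), so `|g|² ≤ 4 mean (R - 1 - log R) = -(4p/n) log ∏ |z_j|`. -/
def S_G0Q : Prop :=
  ∀ p : ℝ, 1 < p → ∀ (n : ℕ), 1 ≤ n → ∀ z : Fin n → ℂ,
    ∑ j, ‖z j‖ ^ p = n → ∑ j, chi p (z j) = 0 →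
    ‖∏ j, z j‖ ≤ Real.exp (-(n * ‖(∑ j, z j) / n‖ ^ 2 / (4 * p)))

/-- (LOGTQ) assume (B1Q); same as `Pool/Agent/H277/BV/Logtp.lean`.

Proof. Sum (B1Q) with `c = a ≤ 1`, `∑ |z_j|^(p-2) ≤ n`: `∑_j |z_j - a|^p ≤ n (1 + 2K a²)`. AM-GM:
`(m+1)^p ≤ ∏_{j≥1} |z_j - a|^p ≤ ((m+1)(1 + 2K a²)/m)^m`, so `p log(m+1) ≤ 1 + 2K m a²`. -/
def S_LOGTQ : Prop :=
  ∀ p : ℝ, 2 ≤ p → ∃ K : ℝ, 0 < K ∧ ∀ (m : ℕ), 1 ≤ m → ∀ (z : Fin (m + 1) → ℂ) (a : ℝ),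
    z 0 = a → 0 ≤ a → a ≤ 1 → ∑ j, ‖z j‖ ^ p = m + 1 → ∑ j, chi p (z j) = 0 →
    (m : ℝ) + 1 ≤ ‖∏ j : Fin m, ((a : ℂ) - z j.succ)‖ →
    Real.log (m + 1) ≤ K * (1 + m * a ^ 2)

/-- (THQ) `θ = mean |w_k| |l_k|` stays away from `1`; assume (B2Q). Compare
`Pool/Agent/H181/BV/Thp.lean` (the case `2 < p ≤ 3`, `s = 2`).

Proof. `ρ = |w|`, `ℓ = |a - w|⁻¹`, `N = (1 - 1/p - 1/s) + ρ^p/p + ℓ^s/s - ρ ℓ ≥ 0` (weighted AM-GM with the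
third term `1`), `= 0` only if `ρ = ℓ = 1`, and `N ≥ c (ρ^p + ℓ^s) - C` (`ρℓ ≤ ρ^p' + ℓ^s'` with
`p' < p`, `s' < s`, `1/p' + 1/s' = 1`). `mean ρ^p ≤ 1` and `mean ℓ^s ≤ 1` give `mean N ≤ 1 - θ` and
`mean ρ^p ≥ 1 - p(1 - θ)`. If `a ≥ 4`: `ρ ≥ 2` or `ℓ ≤ 1/2`, so `N ≥ c` pointwise and `θ ≤ 1 - c`.
If `a₀ ≤ a ≤ 4`: `Re w = (a² + ρ² - ℓ⁻²)/(2a)`; there is `K₁ = K₁(p, s, a₀)` with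
`ρ^(p-2) Re w ≥ a/4 - K₁ N` (if `N` is small then `ρ, ℓ` are near `1` and `ρ^(p-2) Re w ≥ a/4`; otherwise
`|ρ^(p-2) Re w| ≤ ρ^(p-1) ≤ 1 + ρ^p ≤ K' N`).
By (B2Q), `m(1 + K t^β) ≥ ∑ |w + t|^p ≥ ∑ (|w|^p + p t |w|^(p-2) Re w)`, so
`K t^β ≥ - p(1-θ) + p t (a/4 - K₁(1-θ))`; if `K₁(1-θ) ≤ a₀/8`, take `t ≤ 1` with `K t^(β-1) ≤ p a₀/16`:
`1 - θ ≥ t a₀/16`. -/
def S_THQ : Prop :=
  ∀ p s : ℝ, 1 < p → 1 < s → 1 / p + 1 / s < 1 → ∀ β K : ℝ, 1 < β → 0 < K → ∀ a₀ : ℝ, 0 < a₀ →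
    ∃ δ : ℝ, 0 < δ ∧ ∀ a : ℝ, a₀ ≤ a → ∀ (m : ℕ) (w : Fin m → ℂ), (∀ k, w k ≠ a) →
      ∑ k, ‖((a : ℂ) - w k)⁻¹‖ ^ s ≤ m → ∑ k, ‖w k‖ ^ p ≤ m →
      (∀ t : ℝ, 0 ≤ t → t ≤ 1 → ∑ k, ‖w k + t‖ ^ p ≤ m * (1 + K * t ^ β)) →
      ∑ k, ‖w k‖ * ‖((a : ℂ) - w k)⁻¹‖ ≤ (1 - δ) * m

/-- (BRL) Lower bound of the Bregman distance of `|z|^p`, all `p > 1`. (For `1 < p ≤ 2` see `breg` in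
`Pool/Agent/H807/BV/Bd.lean`.)

Proof. Homogeneity: let `|W| = 1` (`W = 0` is clear). `y = |W + v|`, `Re(conj W v) = (y² - 1 - |v|²)/2`, so the
right side is `(y^p - 1 - (p/2)(y² - 1)) + (p/2)|v|² = (y^p - 1 - p(y-1)) + (p/2)(|v|² - (y-1)²)`, both terms
`≥ 0`, `|y - 1| ≤ |v|`, and `y^p - 1 - p(y-1) ≥ c (y-1)² (1 + |y-1|)^(p-2)`. For `p ≤ 2` this is
`≥ c (y-1)² (1+|v|)^(p-2)` and `(1+|v|)^(p-2) ≤ 1`. For `p > 2` and `|v| ≤ 4`: both weights are bounded above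
and below; for `|v| > 4`: `y ≥ |v| - 1 ≥ 3|v|/4`, `y^p - 1 - p(y-1) ≥ c y^p ≥ c' |v|^p`. -/
def S_BRL : Prop :=
  ∀ p : ℝ, 1 < p → ∃ c : ℝ, 0 < c ∧ ∀ W v : ℂ,
    c * (‖v‖ ^ 2 * (‖W‖ + ‖v‖) ^ (p - 2)) ≤
      ‖W + v‖ ^ p - ‖W‖ ^ p - p * ((starRingEnd ℂ) (chi p W) * v).re

/-- (UC) The variance of the `l_k` when `mean |l_k|^s ≤ 1`, `1 < s ≤ 2`; assume (BRL).

Proof. `L = mean l`, `V = mean |l - L|²`. (BRL) with exponent `s`, `W = L`, `v = l_k - L`, summed over `k`: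
`1 ≥ mean |l|^s ≥ |L|^s + c mean |l-L|² (|L| + |l-L|)^(s-2)`. Each `|l_k| ≤ m^(1/s)`, `|L| ≤ 1`, so
`|L| + |l_k - L| ≤ 3 m^(1/s)` and the weight is `≥ (3 m^(1/s))^(s-2)`. Finally `1 - |L|^s ≤ s (1 - |L|)`. -/
def S_UC : Prop :=
  ∀ s : ℝ, 1 < s → s ≤ 2 → ∃ C : ℝ, 0 < C ∧ ∀ (m : ℕ), 1 ≤ m → ∀ l : Fin m → ℂ,
    ∑ k, ‖l k‖ ^ s ≤ m →
      ‖(∑ k, l k) / m‖ ≤ 1 ∧
      (∑ k, ‖l k‖ ^ 2) / m - ‖(∑ k, l k) / m‖ ^ 2 ≤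
        C * (1 - ‖(∑ k, l k) / m‖) * (m : ℝ) ^ ((2 - s) / s)

/-- (C1Q) End of the proof for `a ≤ A` bounded away from `0`; assume (UC). Compare
`Pool/Agent/H399/BV/C1.lean`, `Pool/Agent/H738/BV/C1a.lean` (and C1P by helper163).

Proof. `L = mean l`, `x = 1 - |L| > 0` (strict power mean inequality, as `mean |l|^s < 1`),
`V = mean |l|² - |L|² ≤ C x m^((2-s)/s)` by (UC), `g = mean w`, `|g| ≤ 1`. `1 - a l_k = - w_k l_k`,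
`1 - a L = - mean((w-g)(l-L)) - g L`, `mean |w-g|² ≤ mean |w|² ≤ m`, so `|1 - aL|² ≤ 2 m V + 2|g|²`;
`G = mean |1 - a l|² = |1 - aL|² + a² V ≤ (2m + A²) V + 2|g|²`; `θ = mean |w l| ≤ 1 - δ`, `|1 - aL| ≤ √G`,
`θ ≤ √G`, `|∏ (1 - a l_k)| ≤ θ^m`, so `|1 - aL| |∏| ≤ (1-δ)^(m-1) G ≤ ε (x + |g|²)`, `ε → 0`. The right side of
the last hypothesis is `≤ C A² (4/δ²) x m^((2-s)/s) / (m-1) = η x`, `η → 0` because `(2-s)/s < 1`.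
`|J| ≤ exp(-c₀(m+1)|g|²) ≤ 1 - |g|²/2` for `m` large. So `(1-x)(1-|g|²/2) ≥ |L J| ≥ 1 - ε(x + |g|²) - ηx`
while the left side is `≤ 1 - x/2 - |g|²/2`. -/
def S_C1Q : Prop :=
  ∀ s : ℝ, 1 < s → s ≤ 2 → ∀ A : ℝ, 0 < A → ∀ δ : ℝ, 0 < δ → ∀ c₀ : ℝ, 0 < c₀ →
    ∃ M : ℕ, ∀ m : ℕ, M ≤ m → ∀ (a : ℝ), 0 < a → a ≤ A → ∀ w : Fin m → ℂ, (∀ k, w k ≠ a) →
    ∑ k, ‖((a : ℂ) - w k)⁻¹‖ ^ s < m → ∑ k, ‖w k‖ ^ 2 ≤ (m : ℝ) ^ 2 → ‖∑ k, w k‖ ≤ m →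
    ∑ k, ‖w k‖ * ‖((a : ℂ) - w k)⁻¹‖ ≤ (1 - δ) * m →
    ∀ J : ℂ, ‖J‖ ≤ Real.exp (-(c₀ * ((m + 1) * ‖(∑ k, w k) / m‖ ^ 2))) →
    ‖(∑ k, ((a : ℂ) - w k)⁻¹) / m * J - 1
        + (1 - a * ((∑ k, ((a : ℂ) - w k)⁻¹) / m)) * ∏ k, (1 - (a : ℂ) * ((a : ℂ) - w k)⁻¹)‖ ≤
      ((∑ k, ‖((a : ℂ) - w k)⁻¹‖ ^ 2) / m - ‖(∑ k, ((a : ℂ) - w k)⁻¹) / m‖ ^ 2) * a ^ 2
        * (m - 2) ^ 2 / ((m * δ - 2) ^ 2 * (m - 1)) → False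

/-- (C2Q) End of the proof for `a ≥ 4`. Compare `Pool/Agent/H650/BV/C2.lean` and
`Pool/Agent/H263/BV/C2p.lean`.

Proof. `L = mean l`, `|a L| ≤ 1 + |1 - aL| ≤ 1 + θ ≤ 2`, so `|L| ≤ 1/2`. `|1 - aL||∏| ≤ θ^(m+1) ≤ (1-δ)^m`.
`a² V = mean |a l - a L|² ≤ mean |1 - a l|² = mean |w l|² ≤ max |w l| · mean |w l| ≤ m^(1/p+1/s)`
(`|w_k| ≤ m^(1/p)`, `|l_k| ≤ m^(1/s)`), so the right side of the last hypothesis is at most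
`4 m^(1/p+1/s)/(δ² (m-1)) → 0`. So `1/2 ≥ |L J| ≥ 1 - o(1)`, a contradiction. -/
def S_C2Q : Prop :=
  ∀ p s : ℝ, 1 < p → 1 < s → 1 / p + 1 / s < 1 → ∀ δ : ℝ, 0 < δ → ∃ M : ℕ, ∀ m : ℕ, M ≤ m →
    ∀ (a : ℝ), 4 ≤ a → ∀ w : Fin m → ℂ, (∀ k, w k ≠ a) →
    ∑ k, ‖((a : ℂ) - w k)⁻¹‖ ^ s ≤ m → ∑ k, ‖w k‖ ^ p ≤ m →
    ∑ k, ‖w k‖ * ‖((a : ℂ) - w k)⁻¹‖ ≤ (1 - δ) * m →
    ∀ J : ℂ, ‖J‖ ≤ 1 →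
    ‖(∑ k, ((a : ℂ) - w k)⁻¹) / m * J - 1
        + (1 - a * ((∑ k, ((a : ℂ) - w k)⁻¹) / m)) * ∏ k, (1 - (a : ℂ) * ((a : ℂ) - w k)⁻¹)‖ ≤
      ((∑ k, ‖((a : ℂ) - w k)⁻¹‖ ^ 2) / m - ‖(∑ k, ((a : ℂ) - w k)⁻¹) / m‖ ^ 2) * a ^ 2
        * (m - 2) ^ 2 / ((m * δ - 2) ^ 2 * (m - 1)) → False

/-- (BDQ) Bregman domination of the remainder of `χ_p`, all `p > 1`; assume (BRL).

Proof. `v = z - w`, `W = w - a`, `|W| ≥ 1/2`, `|w| ≥ |W|/2`, `|w| ≤ 3|W|/2`. The right side is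
`≥ c |v|² (|W| + |v|)^(p-2)`. The Taylor remainder of `χ_p` with
`L v = |w|^(p-2) v + (p-2)|w|^(p-4) Re(conj w v) w` is `≤ C |v|² |w|^(p-3)` for `|v| ≤ |w|/2` and
`≤ C |v| (|w| + |v|)^(p-2)` for `|v| > |w|/2` (there `|v| ≥ 1/8`); both are `≤ C' |v|² (|W| + |v|)^(p-2)`. -/
def S_BDQ : Prop :=
  ∀ p : ℝ, 1 < p → ∃ K : ℝ, 0 < K ∧ ∀ a : ℝ, 0 ≤ a → a ≤ 1 / 4 → ∀ w : ℂ,
    1 / 2 ≤ ‖w - a‖ → ∃ α β : ℂ, ∀ z : ℂ,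
      ‖chi p z - chi p w - (α * (z - w) + β * (starRingEnd ℂ) (z - w))‖ ≤
        K * (‖z - a‖ ^ p - ‖w - a‖ ^ p - p * ((starRingEnd ℂ) (chi p (w - a)) * (z - w)).re)

/-- (BDG) Bregman domination of the remainder of `q`; assume (BRL).

Proof. `v = z - w`. `q` is bounded by `2` with bounded first and second derivatives, so the remainder is
`≤ C min(|v|², 1 + |v|)` (`γ` = gradient). The right side is `≥ c |v|² (|W| + |v|)^(p-2)` with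
`1/2 ≤ |W| ≤ 2`: `≥ c' |v|²` if `|v| ≤ 1`, `≥ c' |v|^p ≥ c' |v|` if `|v| ≥ 1`. -/
def S_BDG : Prop :=
  ∀ p : ℝ, 1 < p → ∃ K : ℝ, 0 < K ∧ ∀ a : ℝ, 0 ≤ a → a ≤ 1 / 4 → ∀ w : ℂ,
    1 / 2 ≤ ‖w - a‖ → ‖w - a‖ ≤ 2 → ∃ γ : ℂ, ∀ z : ℂ,
      |q2 z - q2 w - (γ * (z - w)).re| ≤
        K * (‖z - a‖ ^ p - ‖w - a‖ ^ p - p * ((starRingEnd ℂ) (chi p (w - a)) * (z - w)).re)

/-- (XPQ) First order expansion of `χ_p(a - x)`, `|x| ≥ 1/2`, all `p > 1`. Compare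
`Pool/Agent/H663/BV/Xpp.lean`.

Proof. `Dχ_p(x)[a] = a |x|^(p-2) (p/2 + ((p-2)/2) x²/|x|²)`; the second derivative is `≤ C |y|^(p-3)` and
`|x|/2 ≤ |y| ≤ 2|x|` on the segment from `x` to `x - a`. -/
def S_XPQ : Prop :=
  ∀ p : ℝ, 1 < p → ∃ K : ℝ, 0 < K ∧ ∀ a : ℝ, 0 ≤ a → a ≤ 1 / 4 → ∀ x : ℂ, 1 / 2 ≤ ‖x‖ →
    ‖chi p ((a : ℂ) - x) + chi p x
        - (a : ℂ) * (‖x‖ ^ (p - 2) : ℝ) * ((p / 2 : ℝ) + ((p - 2) / 2 : ℝ) * (x / ‖x‖) ^ 2)‖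
      ≤ K * (a ^ 2 * (1 + ‖x‖ ^ p))

/-- (PTQ) Pointwise inequalities for `Θ(r) = (r^p - 1) + (p/s)(r^(-s) - 1)`. Compare
`Pool/Agent/H390/BV/Ptw.lean`.

Proof. `Θ(1) = Θ'(1) = 0`, `Θ''(1) = p(p+s)`, `Θ > 0` for `r ≠ 1` (`Θ' = p(r^(p-1) - r^(-s-1))`). Near `1` all
the functions are `O(|r-1|)`, and `r^(p-1) - r⁻¹ = p (r-1) + O((r-1)²)`, so its square is at most
`(2p/(p+s) + η) Θ` for `|r - 1| ≤ ν(η)`. For `|r - 1| ≥ ν` all of them are `≤ K_ν Θ`, because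
`Θ ≥ c_ν (1 + r^p + r^(-s))` there. -/
def S_PTQ : Prop :=
  ∀ p s : ℝ, 1 < p → 1 < s → ∀ η : ℝ, 0 < η → ∃ K : ℝ, 0 < K ∧ ∀ r : ℝ, 0 < r →
    0 ≤ Th p s r ∧
    (r < 1 / 2 ∨ 2 < r → 1 + r ^ p + r⁻¹ ^ s ≤ K * Th p s r) ∧
    (1 / 2 ≤ r → |r ^ (p - 2) - 1| ≤ K * (Th p s r + Real.sqrt (Th p s r))) ∧
    (1 / 2 ≤ r → |(r ^ 2)⁻¹ - 1| ≤ K * (Th p s r + Real.sqrt (Th p s r))) ∧
    |r - 1| ≤ K * (Th p s r + Real.sqrt (Th p s r)) ∧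
    |r ^ (p - 1) - r⁻¹| ≤ Real.sqrt ((2 * p / (p + s) + η) * Th p s r) + K * Th p s r

/-- (TAY) Second order upper bound of `|z - a|^p`, sharp near the unit circle.

Proof. `q` and `Φ` as above. Choose `ν = ν(p, η) < 1/4` small, `a₀ ≤ ν/4`. If `||z| - 1| ≤ ν`: Taylor,
`|z - a|^p = |z|^p - p a Re χ(z) + (p/2) a² |z|^(p-2) (1 + (p-2)(Re z)²/|z|²) + O(a³)` and
`|z|^(p-2)(1 + (p-2)(Re z)²/|z|²) - (1 + (p-2) q(z)) = O(ν)`; and `Φ ≥ 0`. If `||z| - 1| > ν` then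
`R = |z - a|` satisfies `|R - 1| ≥ ν/2`, so `Φ(R) ≥ c_ν (1 + R^p)`, while the upper Bregman bounds (`K a^p` for
`p ≤ 2`: `t_B1` in `Elem.lean`; `K(|z|^(p-2) a² + a^p)` for `p ≥ 2`: (B1Q), you may assume it) and
`|q| ≤ 2` show that `|z-a|^p - |z|^p + p a Re χ(z) - (p/2)a²(1+(p-2)q(z)) ≤ K' a^β (1 + |z|^p) ≤ K'' a^β Φ(R)`. -/
def S_TAY : Prop :=
  ∀ p : ℝ, 1 < p → ∀ η : ℝ, 0 < η → ∃ K a₀ : ℝ, 0 < K ∧ 0 < a₀ ∧ ∀ a : ℝ, 0 ≤ a → a ≤ a₀ →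
    ∀ z : ℂ, z ≠ a →
      ‖z - a‖ ^ p ≤ ‖z‖ ^ p - p * (a * (chi p z).re) + p / 2 * a ^ 2 * (1 + (p - 2) * q2 z)
        + η * a ^ 2 + K * (a ^ (min p 2) * Ph p ‖z - a‖)

/-- (KZ) The second moment of the zeros around `a`; assume (MOM), (TAY).

Proof. `R_j = |z_j - a| > 0` for `j ≥ 1`. (MOM) with `c = a`: `∑_{j≥1} R_j^p ≤ (m+1)(1 + K a^β)`, and
`∑_{j≥1} log R_j ≥ log(m+1)`, so (if `T₀ ≥ 1`, `a₀ ≤ 1/4`, so `m ≥ 16` and `p log(m+1) ≥ 1`)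
`∑_{j≥1} Φ(R_j) ≤ (m+1)(1 + K a^β) - m - p log(m+1) ≤ 2 K m a^β`. Sum (TAY) with `η/4` over `j ≥ 1`; the last
error is `≤ K' m a^(2β)`, `2β > 2`. For `j = 0`: `|z_0 - a|^p = 0 = |z_0|^p - p a Re χ(z_0) + (p-1) a^p`, and
`(p-1) a^p ≤ p ≤ (p/T₀) m a²`; also `|(p/2) a² (1 + (p-2) q(z_0))| ≤ K'' a² ≤ (K''/m) m a²`. -/
def S_KZ : Prop :=
  ∀ p : ℝ, 1 < p → ∀ η : ℝ, 0 < η → ∃ a₀ T₀ : ℝ, 0 < a₀ ∧ 0 < T₀ ∧ ∀ (m : ℕ), 1 ≤ m →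
    ∀ (z : Fin (m + 1) → ℂ) (a : ℝ), z 0 = a → 0 ≤ a → a ≤ a₀ → T₀ ≤ m * a ^ 2 →
    ∑ j, ‖z j‖ ^ p = m + 1 → ∑ j, chi p (z j) = 0 →
    (m : ℝ) + 1 ≤ ‖∏ j : Fin m, ((a : ℂ) - z j.succ)‖ →
    ∑ j, ‖z j - a‖ ^ p ≤ (m + 1) + p / 2 * a ^ 2 * (∑ j, (1 + (p - 2) * q2 (z j)))
      + η * (m * a ^ 2)

/-- (AVQ) `∑ χ_p(w_k) = O(m a^β)`; assume (PM), (B2Q), (MOM), (BDQ), (PTQ). Compare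
`Pool/Agent/H25/BV/Avp.lean` (the case `2 < p ≤ 3`, `s = 2`).

Proof. `S` as in (PM), `r_k = |w_k - a|`, `b_k = ∑_j S k j |z_j - a|^p - r_k^p ≥ 0` (B2Q).
`∑_k b_k ≤ m (1 + K a^β) - ∑ r_k^p ≤ K m a^β`, because `Θ ≥ 0` and `∑ r_k^(-s) ≤ m` give `∑ r_k^p ≥ m`; in
the same way `∑ Θ(r_k) ≤ K m a^β`. For `r_k ≥ 1/2` (BDQ) gives `|∑_j S k j χ(z_j) - χ(w_k)| ≤ K b_k`. The number
of `k` with `r_k < 1/2` is `≤ K ∑ Θ(r_k)`, and for these the same difference is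
`≤ K (1 + ∑_j S k j |z_j - a|^p) ≤ K'(1 + b_k)`. Sum; `∑_k ∑_j S k j χ(z_j) = (m/(m+1)) ∑_j χ(z_j) = 0`. -/
def S_AVQ : Prop :=
  ∀ p s : ℝ, 1 < p → 1 < s → ∃ K : ℝ, 0 < K ∧ ∀ (m : ℕ), 1 ≤ m → ∀ (z : Fin (m + 1) → ℂ)
    (w : Fin m → ℂ) (a : ℝ), Crit m z w → 0 ≤ a → a ≤ 1 / 4 → ∑ j, ‖z j‖ ^ p = m + 1 →
    ∑ j, chi p (z j) = 0 → (∀ k, w k ≠ a) → ∑ k, ‖((a : ℂ) - w k)⁻¹‖ ^ s ≤ m →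
    ‖∑ k, chi p (w k)‖ ≤ K * (m * a ^ (min p 2))

/-- (KW) The second moment of the critical points around `a`; assume (PM), (B2Q), (MOM), (BDG), (PTQ),
(KZ).

Proof. Notation of (AVQ); `∑ b_k ≤ K m a^β`, `∑ Θ(r_k) ≤ K m a^β`. `∑_k r_k^p ≤ (m/(m+1)) ∑_j |z_j - a|^p`,
apply (KZ) with `η/4`. By (BDG), `|∑_j S k j q(z_j) - q(w_k)| ≤ K b_k` if `1/2 ≤ r_k ≤ 2`, and it is `≤ 4` for the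
other `k`, whose number is `≤ K ∑ Θ`; so `|(m/(m+1)) ∑_j q(z_j) - ∑_k q(w_k)| ≤ K m a^β`. Finally
`|q(w_k) - (Re x_k/|x_k|)²| ≤ K (a + |r_k - 1|)` for `x_k = a - w_k` (all terms bounded; on `1/2 ≤ r_k ≤ 2`
Lipschitz) and `∑ |r_k - 1| ≤ K (∑ Θ + (m ∑ Θ)^(1/2)) ≤ K m a^(β/2)`; all errors are multiplied by `a²`. -/
def S_KW : Prop :=
  ∀ p s : ℝ, 1 < p → 1 < s → ∀ η : ℝ, 0 < η → ∃ a₀ T₀ : ℝ, 0 < a₀ ∧ 0 < T₀ ∧ ∀ (m : ℕ), 1 ≤ m →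
    ∀ (z : Fin (m + 1) → ℂ) (w : Fin m → ℂ) (a : ℝ), Crit m z w → z 0 = a → 0 ≤ a → a ≤ a₀ →
    T₀ ≤ m * a ^ 2 → ∑ j, ‖z j‖ ^ p = m + 1 → ∑ j, chi p (z j) = 0 →
    (m : ℝ) + 1 ≤ ‖∏ j : Fin m, ((a : ℂ) - z j.succ)‖ →
    (∀ k, w k ≠ a) → ∑ k, ‖((a : ℂ) - w k)⁻¹‖ ^ s ≤ m →
    ∑ k, ‖(a : ℂ) - w k‖ ^ p ≤ m * (1 + (p / 2 * (1 + (p - 2) *
      ((∑ k, (((a : ℂ) - w k).re / ‖(a : ℂ) - w k‖) ^ 2) / m)) + η) * a ^ 2)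

/-- (BR2) The two variable inequality behind (REALQ).

Proof. `A = 1 + (p-2)u² ≥ min(1, p-1)`. For `ε = 0`: `c ≤ p √(A/(p+s))`, and `p² < (p-1)(p+s)` is
`1/p + 1/s < 1`. `τ = 0`: `A - c u ≥ √A (√A - p u/√(p+s)) > 0` because
`1 > u² (p²/(p+s) - p + 2)`. `τ = 1`: `1/2 + (p-1)u² - cu > 0` because
`(1/2 + (p-1)u²)² - (p-1)u²A = 1/4 + (p-1)u⁴ > 0`. Affine in `τ`. Compactness in `(u, τ, c)` and in `ε → 0`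
(or explicit constants). -/
def S_BR2 : Prop :=
  ∀ p s : ℝ, 1 < p → 1 < s → 1 / p + 1 / s < 1 → ∃ ε μ : ℝ, 0 < ε ∧ 0 < μ ∧
    ∀ u τ c : ℝ, 0 ≤ u → u ≤ 1 → 0 ≤ τ → τ ≤ 1 → 0 ≤ c →
      c ^ 2 ≤ (2 * p / (p + s) + ε) * (p / 2 * (1 + (p - 2) * u ^ 2) + ε) →
      μ ≤ 1 + (p - 2) * u ^ 2 - c * u + τ * (u ^ 2 - 1 / 2)

/-- (REALQ) The lower bound of the exponent; assume (PTQ), (XPQ), (BR2).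

Proof. `r = |x|`, `e = x/|x|`, means over `k`, `u² = U = mean (Re e)²`, `κ = (p/2)(1 + (p-2)u²)`.
`mean Θ ≤ (κ + ε) a²` (`Θ` of (PTQ)). The third claim follows, and the number of `k` with `r_k < 1/2` is
`≤ K m a²`, and `∑ |r-1|`, `∑_{r ≥ 1/2} |r^(p-2) - 1|`, `∑_{r≥1/2} |r⁻² - 1|` are `≤ K m a`. Sum (XPQ) over
`r_k ≥ 1/2` (for the others all terms of hypothesis (h3) are bounded):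
`mean_{r≥1/2} χ_p(x) = a (p/2 + ((p-2)/2) mean e²) + O(a^β)`, with real part `a (1 + (p-2)u²) + O(a^β)`.
`conj(x⁻¹) = e/r = χ_p(x) - (r^(p-1) - r⁻¹) e`, so
`Re mean x⁻¹ ≥ a(1 + (p-2)u²) - mean |r^(p-1) - r⁻¹||Re e| - O(a^β)` (the terms with `r < 1/2` are `O(a²)`), and
by Cauchy-Schwarz the mean is `≤ ((2p/(p+s) + ε)(κ + ε))^(1/2) a u + K a²`.
`Re mean (x⁻¹)² 1_{r≥1/2} = 2u² - 1 + O(a)`. Now (BR2). First claim: the same with `|·|` instead of `Re`. -/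
def S_REALQ : Prop :=
  ∀ p s : ℝ, 1 < p → 1 < s → 1 / p + 1 / s < 1 → ∀ K₀ : ℝ, 0 < K₀ →
    ∃ ε a₀ μ K : ℝ, 0 < ε ∧ 0 < a₀ ∧ 0 < μ ∧ 0 < K ∧
    ∀ (m : ℕ), 1 ≤ m → ∀ (a : ℝ) (x : Fin m → ℂ), 0 ≤ a → a ≤ a₀ → (∀ k, x k ≠ 0) →
    ∑ k, ‖x k‖ ^ p ≤ m * (1 + (p / 2 * (1 + (p - 2) *
      ((∑ k, ((x k).re / ‖x k‖) ^ 2) / m)) + ε) * a ^ 2) →
    ∑ k, ‖(x k)⁻¹‖ ^ s ≤ m →
    ‖∑ k, chi p ((a : ℂ) - x k)‖ ≤ K₀ * (m * a ^ (min p 2)) →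
    ‖(∑ k, (x k)⁻¹) / m‖ ≤ K * a ∧
    (∀ τ : ℝ, 0 ≤ τ → τ ≤ 1 →
      μ * a * τ ≤ τ * ((∑ k, (x k)⁻¹) / m).re
        + a * τ ^ 2 * ((∑ k, (if 2 < ‖(x k)⁻¹‖ then 0 else ((x k)⁻¹) ^ 2)) / m).re / 2) ∧
    ∑ k, (if 2 < ‖(x k)⁻¹‖ then ‖(x k)⁻¹‖ ^ s else 0) ≤ K * (a ^ 2 * m)

/-- (INTQ) The integral is large when `a` is small and `m a²` is large. Compare
`Pool/Agent/H345/BV/Intp.lean` (the case `s = 2`, without truncation of the second moment).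

Proof. `P(u) = ∏ (1 - u l_k)`, `L = mean l`, `q = mean l² 1_{|l| ≤ 2}`, `ζ = u l_k`, `0 ≤ u ≤ a ≤ 1/8`. For
`|l_k| ≤ 2` (`|ζ| ≤ 1/4`): `log|1 - ζ| ≤ - Re ζ - Re(ζ²)/2 + |ζ|³`, sum of the errors `≤ 8 m u³`. For all `ζ`:
`|1 - ζ| ≤ exp(- Re ζ + 4|ζ|^s)`; use it for `|l_k| > 2`, sum of the errors `≤ 4 u^s K a² m`. So for `a ≤ a₀`:
`|P(u)| ≤ exp(-m μ a u/2)` (hypothesis with `τ = u/a`; `8u³ + 4K u^s a² ≤ u a (8a + 4K a^s)`). Let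
`u₁ = K₁/(m a)`, `K₁` large: `∫_{u₁}^a |P| ≤ (2/(mμa)) exp(-μK₁/2)`. For `u ≤ u₁`:
`|l_k| ≤ 2 + (K a² m)^(1/s)` so `|u l_k| ≤ 2K₁/(ma) + K₁ K^(1/s) (m a²)^(1/s - 1) a ≤ 1/2`, and
`|log P(u) + m u L| ≤ ∑ |u l_k|² ≤ 4 m u² + ∑_{|l_k|>2} |u l_k|^s ≤ 4K₁²/(m a²) + K₁^s K (m a²)^(1-s) a^s`, small
if `T₀` is large. `∫₀^{u₁} e^{-muL} du = (1 - e^{-m u₁ L})/(m L)` has norm `≥ (1 - e^{-μK₁})/(m K a)`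
(`Re L ≥ μ a`, from small `τ`). Hence `|∫₀^a P| ≥ 1/(2 K m a)` and `(m+1)/(2Kma) > 1` for small `a`. -/
def S_INTQ : Prop :=
  ∀ s : ℝ, 1 < s → s ≤ 2 → ∀ μ K : ℝ, 0 < μ → 0 < K → ∃ a₀ T₀ : ℝ, 0 < a₀ ∧
    ∀ (m : ℕ) (a : ℝ), 0 < a → a ≤ a₀ → T₀ ≤ m * a ^ 2 → ∀ l : Fin m → ℂ,
    ‖(∑ k, l k) / m‖ ≤ K * a →
    (∀ τ : ℝ, 0 ≤ τ → τ ≤ 1 →
      μ * a * τ ≤ τ * ((∑ k, l k) / m).re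
        + a * τ ^ 2 * ((∑ k, (if 2 < ‖l k‖ then 0 else (l k) ^ 2)) / m).re / 2) →
    ∑ k, (if 2 < ‖l k‖ then ‖l k‖ ^ s else 0) ≤ K * (a ^ 2 * m) →
    1 < ‖((m : ℂ) + 1) * ∫ u in (0:ℝ)..a, ∏ k, (1 - (u : ℂ) * l k)‖

end Pool.Agent.H798.BV
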